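import Mathlib

/-!
# Slopes and costs of finite-dimensional subspaces of modules over a division algebra

`E` is a division `K`-algebra, `M` a left `E`-module, `T ⊆ M` a finite-dimensional `K`-subspace.
-/

open Module

namespace Pool.Agent.Helper7.G3

variable {K E M : Type*} [Field K] [DivisionRing E] [Algebra K E] [AddCommGroup M] [Module K M]
  [Module E M] [IsScalarTower K E M]

/-- The part of the `K`-subspace `T` inside the `E`-subspace `R`. -/
def cap (T : Submodule K M) (R : Submodule E M) : Submodule K M := T ⊓ R.restrictScalars K

/-- All slopes of `T` over `E` are at most `lam`. -/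
def Slope (E : Type*) {K M : Type*} [Field K] [DivisionRing E] [Algebra K E] [AddCommGroup M]
    [Module K M] [Module E M] [IsScalarTower K E M] (T : Submodule K M) (lam : ℝ) : Prop :=
  ∀ R : Submodule E M, Module.Finite E R →
    (finrank K ↥(cap T R) : ℝ) ≤ lam * (finrank E R : ℝ)

/-- `x • T` -/
def tr (x : E) (T : Submodule K M) : Submodule K M := T.map (Algebra.lsmul K K M x)

/-- The cost of `x` on `T`: `dim (T + x T) - dim T`. -/
noncomputable def cst (x : E) (T : Submodule K M) : ℕ := finrank K ↥(tr x T ⊔ T) - finrank K T

lemma mem_cap {T : Submodule K M} {R : Submodule E M} {x : M} :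
    x ∈ cap T R ↔ x ∈ T ∧ x ∈ R := by
  unfold cap
  rw [Submodule.mem_inf, Submodule.restrictScalars_mem]

end Pool.Agent.Helper7.G3
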