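import Pool.Agent.Helper7.G3.Cost

/-!
# The capture bound

`Q` and `E` act on `M`, `E` through a homomorphism `s : E → Q`; `q 1, ..., q n` in `Q` are left
`E`-independent.

PROOF.  Let `t = dim T`, `U = {x ∈ T : q j • x ∈ X for all j}`.  By `stay_in` (for the
`K`-subspace `X.restrictScalars K`) and `dim (A ⊓ B) ≥ dim A + dim B - dim T` for `A, B ≤ T`:
`dim U ≥ t - n (t - dim (cap T X)) - Σ cst (q j) T`.  Let `R` be the `Q`-span of `U` (finite over
`Q`); `U ≤ cap T R`, so `dim U ≤ lam * rank_Q R`.  `U` spans `R`, so there is a `Q`-basis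
`x_1, ..., x_r` of `R` consisting of elements of `U`.  The `n r` elements `q j • x_l` lie in `X` and
are left `E`-independent: `Σ e_{jl} • q j • x_l = Σ_l (Σ_j s(e_{jl}) q_j) • x_l = 0` gives
`Σ_j s(e_{jl}) q_j = 0` for every `l`, so all `e_{jl} = 0`.  Hence `n r ≤ rank_E X`.
-/

open Module

namespace Pool.Agent.Helper7.G3

variable {K E Q M : Type*} [Field K] [DivisionRing E] [Algebra K E] [DivisionRing Q] [Algebra K Q]
  [AddCommGroup M] [Module K M] [Module E M] [Module Q M] [IsScalarTower K E M]
  [IsScalarTower K Q M]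

/-- `q` is left independent over the image of `s`. -/
def LeftIndep (s : E →ₐ[K] Q) {n : ℕ} (q : Fin n → Q) : Prop :=
  ∀ e : Fin n → E, ∑ j, s (e j) * q j = 0 → ∀ j, e j = 0

private theorem stay_all {n : ℕ} (q : Fin n → Q) (T : Submodule K M) [FiniteDimensional K T]
    (X' : Submodule K M) (S : Finset (Fin n)) :
    (finrank K T : ℝ) - ∑ j ∈ S, ((cst (q j) T : ℝ) +
      ((finrank K T : ℝ) - finrank K ↥(T ⊓ X'))) ≤
      finrank K ↥(T ⊓ ⨅ j ∈ S, X'.comap (Algebra.lsmul K K M (q j))) := by
  classical
  have hTX : finrank K ↥(T ⊓ X') ≤ finrank K T := Submodule.finrank_mono inf_le_left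
  induction S using Finset.induction_on with
  | empty =>
    have h0 : T ⊓ ⨅ j ∈ (∅ : Finset (Fin n)), X'.comap (Algebra.lsmul K K M (q j)) = T := by
      apply le_antisymm inf_le_left
      refine le_inf le_rfl (le_iInf fun j => le_iInf fun hj => ?_)
      exact absurd hj (Finset.notMem_empty j)
    rw [h0, Finset.sum_empty, sub_zero]
  | insert a S ha ih =>
    rw [Finset.sum_insert ha]
    set A : Submodule K M := T ⊓ ⨅ j ∈ S, X'.comap (Algebra.lsmul K K M (q j)) with hA
    set B : Submodule K M := T ⊓ X'.comap (Algebra.lsmul K K M (q a)) with hB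
    have hAT : A ≤ T := inf_le_left
    have hBT : B ≤ T := inf_le_left
    have : FiniteDimensional K A := Submodule.finiteDimensional_of_le hAT
    have : FiniteDimensional K B := Submodule.finiteDimensional_of_le hBT
    have h1 : finrank K T ≤ finrank K B + cst (q a) T + (finrank K T - finrank K ↥(T ⊓ X')) :=
      stay_in (q a) T X'
    have h2 := Submodule.finrank_sup_add_finrank_inf_eq A B
    have h3 : finrank K ↥(A ⊔ B) ≤ finrank K T := Submodule.finrank_mono (sup_le hAT hBT)
    have h4 : A ⊓ B = T ⊓ ⨅ j ∈ insert a S, X'.comap (Algebra.lsmul K K M (q j)) := by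
      rw [Finset.iInf_insert, hA, hB]
      apply le_antisymm
      · exact le_inf (inf_le_left.trans inf_le_left)
          (le_inf (inf_le_right.trans inf_le_right) (inf_le_left.trans inf_le_right))
      · exact le_inf (le_inf inf_le_left (inf_le_right.trans inf_le_right))
          (le_inf inf_le_left (inf_le_right.trans inf_le_left))
    rw [← h4]
    have h5 : (finrank K T : ℝ) ≤ finrank K B + cst (q a) T +
        ((finrank K T : ℝ) - finrank K ↥(T ⊓ X')) := by
      have h6 : ((finrank K T - finrank K ↥(T ⊓ X') : ℕ) : ℝ) =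
          (finrank K T : ℝ) - finrank K ↥(T ⊓ X') := Nat.cast_sub hTX
      rw [← h6]
      exact_mod_cast h1
    have h7 : (finrank K ↥(A ⊔ B) : ℝ) + finrank K ↥(A ⊓ B) = finrank K A + finrank K B := by
      exact_mod_cast h2
    have h8 : (finrank K ↥(A ⊔ B) : ℝ) ≤ finrank K T := by exact_mod_cast h3
    linarith

theorem capture (s : E →ₐ[K] Q) (hs : ∀ (e : E) (m : M), e • m = s e • m)
    (T : Submodule K M) [FiniteDimensional K T] (lam : ℝ) (hlam : 0 < lam)
    (hT : Slope Q T lam) {n : ℕ} (q : Fin n → Q) (hq : LeftIndep s q)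
    (X : Submodule E M) [Module.Finite E X] :
    (n : ℝ) * ((finrank K T : ℝ) - n * ((finrank K T : ℝ) - finrank K ↥(cap T X)) -
      ∑ j, (cst (q j) T : ℝ)) ≤ lam * finrank E X := by
  classical
  set X' : Submodule K M := X.restrictScalars K with hX'
  set U : Submodule K M := T ⊓ ⨅ j ∈ (Finset.univ : Finset (Fin n)),
    X'.comap (Algebra.lsmul K K M (q j)) with hU
  have hdim := stay_all q T X' Finset.univ
  have hUT : U ≤ T := inf_le_left
  have : FiniteDimensional K U := Submodule.finiteDimensional_of_le hUT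
  have hUX : ∀ x ∈ U, ∀ j, q j • x ∈ X := by
    intro x hx j
    have h1 : x ∈ ⨅ j ∈ (Finset.univ : Finset (Fin n)),
        X'.comap (Algebra.lsmul K K M (q j)) := (Submodule.mem_inf.mp hx).2
    rw [Submodule.mem_iInf] at h1
    have h2 := h1 j
    rw [Submodule.mem_iInf] at h2
    exact h2 (Finset.mem_univ j)
  -- a maximal independent subset of `U` over `Q`
  obtain ⟨b, hbU, hbs, hbi⟩ := exists_linearIndependent Q (U : Set M)
  set R : Submodule Q M := Submodule.span Q (U : Set M) with hR
  have hRfg : R.FG := by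
    obtain ⟨S, hS⟩ := (inferInstance : FiniteDimensional K U).1
    have hUfg : U.FG := Submodule.fg_top U |>.mp ⟨S, hS⟩
    obtain ⟨S', hS'⟩ := hUfg
    refine ⟨S', ?_⟩
    apply le_antisymm
    · rw [Submodule.span_le]
      intro x hx
      apply Submodule.subset_span
      show x ∈ U
      rw [← hS']
      exact Submodule.subset_span hx
    · rw [hR, Submodule.span_le]
      intro x hx
      have hx' : x ∈ Submodule.span K (S' : Set M) := by rw [hS']; exact hx
      exact Submodule.span_le_restrictScalars K Q (S' : Set M) hx'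
  have : Module.Finite Q R := Module.Finite.iff_fg.mpr hRfg
  have hdimU : (finrank K U : ℝ) ≤ lam * finrank Q R := by
    have h1 : U ≤ cap T R := by
      intro x hx
      rw [mem_cap]
      exact ⟨hUT hx, Submodule.subset_span hx⟩
    have : FiniteDimensional K ↥(cap T R) := Submodule.finiteDimensional_of_le inf_le_left
    have h2 : finrank K U ≤ finrank K ↥(cap T R) := Submodule.finrank_mono h1
    have h3 := hT R inferInstance
    have h4 : (finrank K U : ℝ) ≤ finrank K ↥(cap T R) := by exact_mod_cast h2
    linarith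
  have hbfin : b.Finite := by
    have h1 : LinearIndependent Q (fun x : b => (⟨(x : M), Submodule.subset_span (hbU x.2)⟩ : R)) := by
      apply LinearIndependent.of_comp R.subtype
      exact hbi
    have : _root_.Finite b := h1.finite
    exact Set.toFinite b
  have : Fintype b := hbfin.fintype
  have hcard : finrank Q R = Fintype.card b := by
    rw [← hbs]
    have h1 := finrank_span_set_eq_card (R := Q) (s := b) hbi
    rw [h1, Set.toFinset_card]
  have hind : LinearIndependent E (fun p : Fin n × b => (⟨q p.1 • (p.2 : M),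
      hUX _ (hbU p.2.2) p.1⟩ : X)) := by
    apply LinearIndependent.of_comp X.subtype
    rw [Fintype.linearIndependent_iff]
    intro g hg
    have h1 : ∑ x : b, (∑ j, s (g (j, x)) * q j) • (x : M) = 0 := by
      rw [← hg, Fintype.sum_prod_type_right]
      apply Finset.sum_congr rfl
      intro x _
      rw [Finset.sum_smul]
      apply Finset.sum_congr rfl
      intro j _
      rw [hs, mul_smul]
      rfl
    rw [Fintype.linearIndependent_iff] at hbi
    intro p
    exact hq (fun j => g (j, p.2)) (hbi _ h1 p.2) p.1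
  have hcard2 := hind.fintype_card_le_finrank
  rw [Fintype.card_prod, Fintype.card_fin, ← hcard] at hcard2
  have hcard3 : (n : ℝ) * finrank Q R ≤ finrank E X := by exact_mod_cast hcard2
  have hn : (0 : ℝ) ≤ n := Nat.cast_nonneg n
  have h5 : (finrank K T : ℝ) - n * ((finrank K T : ℝ) - finrank K ↥(cap T X)) -
      ∑ j, (cst (q j) T : ℝ) ≤ finrank K U := by
    rw [Finset.sum_add_distrib, Finset.sum_const, Finset.card_univ, Fintype.card_fin,
      nsmul_eq_mul] at hdim
    have h6 : finrank K ↥(T ⊓ X') = finrank K ↥(cap T X) := rfl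
    rw [h6] at hdim
    linarith
  calc (n : ℝ) * ((finrank K T : ℝ) - n * ((finrank K T : ℝ) - finrank K ↥(cap T X)) -
      ∑ j, (cst (q j) T : ℝ)) ≤ n * finrank K U := mul_le_mul_of_nonneg_left h5 hn
    _ ≤ n * (lam * finrank Q R) := mul_le_mul_of_nonneg_left hdimU hn
    _ = lam * (n * finrank Q R) := by ring
    _ ≤ lam * finrank E X := mul_le_mul_of_nonneg_left hcard3 hlam.le

/-- Slopes over `E` are at most the slopes over `Q`. -/
theorem slope_sub (s : E →ₐ[K] Q) (hs : ∀ (e : E) (m : M), e • m = s e • m)
    (T : Submodule K M) [FiniteDimensional K T] (lam : ℝ) (hlam : 0 < lam)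
    (hT : Slope Q T lam) : Slope E T lam := by
  intro R hR
  have h1 : LeftIndep s (fun _ : Fin 1 => (1 : Q)) := by
    intro e he j
    rw [Fin.sum_univ_one, mul_one, map_eq_zero] at he
    rw [Fin.fin_one_eq_zero j]
    exact he
  have h2 := capture s hs T lam hlam hT (fun _ : Fin 1 => (1 : Q)) h1 R
  have h3 : cst (1 : Q) T = 0 := by
    have := cst_scalar (E := Q) (1 : K) T
    rwa [map_one] at this
  simp only [Fin.sum_univ_one, h3, Nat.cast_one, one_mul, Nat.cast_zero, sub_zero] at h2
  linarith

end Pool.Agent.Helper7.G3
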