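import Mathlib

/-!
# The combinatorial contradiction

`t i` (real) is the dimension of `T ∩ X i`, `ρ i` the rank of `X i`, `t i ≤ D`, slopes `lam / 4^i`.

PROOF.  Put `μ 0 = t 0 / D`, `μ (i+1) = (t (i+1) - t i) / D` for `i < k`, `μ (k+1) = (D - t k) / D`;
all are `≥ 0` with sum `1`.  `hcost` with `j i ≥ 2^i j0 / 2` gives
`μ 0 / 2 + Σ_{1 ≤ i ≤ k+1} μ i 2^(i-1) / 2 ≤ C`, hence `Σ_{i ≤ k+1} μ i 2^i ≤ 4 C`.
`hrank0`, `hrank` give (telescoping, `4^i`) `(lam / D) ρ i ≤ Σ_{l ≤ i} μ l 4^l`.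
For `i ≤ k` let `R i = 2^i Σ_{l > i} μ l = 2^i (D - t i) / D` and `P i = 2^(-i) Σ_{l ≤ i} μ l 4^l`.
If `R i < 1/4` then `hcap` gives `lam ρ i ≥ 2^i (D - D/4 - D/4)`, so `P i ≥ 1/2`.  So
`P i + R i ≥ 1/4` always, and `Σ_{i ≤ k} (P i + R i) ≤ 3 Σ_l μ l 2^l ≤ 12 C`
(`Σ_{i ≥ l} 2^(l-i) ≤ 2`, `Σ_{i < l} 2^(i-l) ≤ 1`).  Hence `(k + 1) / 4 ≤ 12 C`.
-/

namespace Pool.Agent.Helper7.G3

theorem comb (k : ℕ) (D lam C j0 : ℝ) (hD : 0 < D) (hlam : 0 < lam) (hj0 : 0 < j0)
    (t ρ j : ℕ → ℝ) (ht0 : 0 ≤ t 0) (htmono : ∀ i, t i ≤ t (i + 1)) (htD : ∀ i, t i ≤ D)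
    (hj : ∀ i, i ≤ k → (2 : ℝ) ^ i * j0 / 2 ≤ j i)
    (hcost : j 0 * t 0 + (∑ i ∈ Finset.range k, j i * (t (i + 1) - t i)) + j k * (D - t k) ≤
      C * j0 * D)
    (hrank0 : lam * ρ 0 ≤ t 0)
    (hrank : ∀ i, lam / 4 ^ (i + 1) * (ρ (i + 1) - ρ i) ≤ t (i + 1) - t i)
    (hcap : ∀ i, i ≤ k → (2 : ℝ) ^ i * (D - (2 : ℝ) ^ i * (D - t i) - D / 4) ≤ lam * ρ i) :
    ((k : ℝ) + 1) ≤ 48 * C := by
  classical
  -- the partial sums of the ranks
  let S : ℕ → ℝ := fun i => t 0 + ∑ l ∈ Finset.range i, (4 : ℝ) ^ (l + 1) * (t (l + 1) - t l)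
  have hS0 : S 0 = t 0 := by simp [S]
  have hSs : ∀ i, S (i + 1) = S i + (4 : ℝ) ^ (i + 1) * (t (i + 1) - t i) := by
    intro i
    simp only [S]
    rw [Finset.sum_range_succ]
    ring
  have hρ : ∀ i, lam * ρ i ≤ S i := by
    intro i
    induction i with
    | zero => rw [hS0]; exact hrank0
    | succ i ih =>
      rw [hSs]
      have h4 : (0 : ℝ) < 4 ^ (i + 1) := by positivity
      have h1 := hrank i
      have h2 : lam * (ρ (i + 1) - ρ i) ≤ 4 ^ (i + 1) * (t (i + 1) - t i) := by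
        have h3 := mul_le_mul_of_nonneg_left h1 h4.le
        have h5 : (4 : ℝ) ^ (i + 1) * (lam / 4 ^ (i + 1) * (ρ (i + 1) - ρ i)) =
            lam * (ρ (i + 1) - ρ i) := by
          field_simp
        rw [h5] at h3
        exact h3
      nlinarith [ih, h2]
  -- pointwise lower bound
  have hpt : ∀ i, i ≤ k → D / 4 ≤ S i / 2 ^ i + 2 ^ i * (D - t i) := by
    intro i hi
    have h2 : (0 : ℝ) < 2 ^ i := by positivity
    by_cases h : (2 : ℝ) ^ i * (D - t i) < D / 4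
    · have h1 := (hcap i hi).trans (hρ i)
      have h3 : D - (2 : ℝ) ^ i * (D - t i) - D / 4 ≤ S i / 2 ^ i := by
        rw [le_div_iff₀ h2, mul_comm]
        exact h1
      have h4 : 0 ≤ (2 : ℝ) ^ i * (D - t i) :=
        mul_nonneg h2.le (sub_nonneg.mpr (htD i))
      linarith
    · push Not at h
      have hSnn : 0 ≤ S i := by
        simp only [S]
        apply add_nonneg ht0
        apply Finset.sum_nonneg
        intro l _
        exact mul_nonneg (by positivity) (sub_nonneg.mpr (htmono l))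
      have h5 : 0 ≤ S i / 2 ^ i := div_nonneg hSnn h2.le
      linarith
  -- the two telescoping identities
  have hA : ∀ m, (∑ i ∈ Finset.range (m + 1), S i / 2 ^ i) + S m / 2 ^ m =
      2 * (t 0 + ∑ i ∈ Finset.range m, (2 : ℝ) ^ (i + 1) * (t (i + 1) - t i)) := by
    intro m
    induction m with
    | zero =>
      simp only [zero_add, Finset.range_one, Finset.sum_singleton, pow_zero, div_one,
        Finset.range_zero, Finset.sum_empty, add_zero, hS0]
      ring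
    | succ m ih =>
      have e1 := Finset.sum_range_succ (fun i => S i / 2 ^ i) (m + 1)
      have e2 := Finset.sum_range_succ (fun i => (2 : ℝ) ^ (i + 1) * (t (i + 1) - t i)) m
      rw [e1, e2]
      have h2 : (2 : ℝ) ^ m ≠ 0 := by positivity
      have h1 : S (m + 1) / 2 ^ (m + 1) = S m / 2 ^ m / 2 +
          (2 : ℝ) ^ (m + 1) * (t (m + 1) - t m) := by
        rw [hSs, add_div, pow_succ (2 : ℝ) m]
        have h4 : (4 : ℝ) ^ (m + 1) = 2 ^ m * 2 * (2 ^ m * 2) := by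
          have : (4 : ℝ) = 2 * 2 := by norm_num
          rw [this, mul_pow, pow_succ]
        rw [h4]
        field_simp
      rw [h1]
      linarith [ih]
  have hB : ∀ m, (∑ i ∈ Finset.range (m + 1), (2 : ℝ) ^ i * (D - t i)) =
      (∑ i ∈ Finset.range m, (2 : ℝ) ^ (i + 1) * (t (i + 1) - t i)) +
        2 ^ (m + 1) * (D - t m) - (D - t 0) := by
    intro m
    induction m with
    | zero =>
      simp
      ring
    | succ m ih =>
      rw [Finset.sum_range_succ, ih, Finset.sum_range_succ, pow_succ (2 : ℝ) (m + 1)]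
      ring
  have hsum : ((k : ℝ) + 1) * (D / 4) ≤ ∑ i ∈ Finset.range (k + 1),
      (S i / 2 ^ i + 2 ^ i * (D - t i)) := by
    have h1 : ∑ i ∈ Finset.range (k + 1), D / 4 ≤ ∑ i ∈ Finset.range (k + 1),
        (S i / 2 ^ i + 2 ^ i * (D - t i)) := by
      apply Finset.sum_le_sum
      intro i hi
      exact hpt i (Nat.lt_succ_iff.mp (Finset.mem_range.mp hi))
    rw [Finset.sum_const, Finset.card_range, nsmul_eq_mul] at h1
    push_cast at h1
    exact h1
  rw [Finset.sum_add_distrib] at hsum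
  -- the cost
  have hW : t 0 / 2 + (∑ i ∈ Finset.range k, (2 : ℝ) ^ i / 2 * (t (i + 1) - t i)) +
      2 ^ k / 2 * (D - t k) ≤ C * D := by
    have h1 : j0 * (t 0 / 2 + (∑ i ∈ Finset.range k, (2 : ℝ) ^ i / 2 * (t (i + 1) - t i)) +
      2 ^ k / 2 * (D - t k)) ≤ j 0 * t 0 + (∑ i ∈ Finset.range k, j i * (t (i + 1) - t i)) +
        j k * (D - t k) := by
      rw [mul_add, mul_add, Finset.mul_sum]
      apply add_le_add
      · apply add_le_add
        · have h2 := hj 0 (Nat.zero_le k)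
          rw [pow_zero, one_mul] at h2
          nlinarith [ht0, h2]
        · apply Finset.sum_le_sum
          intro i hi
          have h2 := hj i (Finset.mem_range.mp hi).le
          have h3 : 0 ≤ t (i + 1) - t i := sub_nonneg.mpr (htmono i)
          have h4 := mul_le_mul_of_nonneg_right h2 h3
          calc j0 * ((2 : ℝ) ^ i / 2 * (t (i + 1) - t i)) =
              (2 : ℝ) ^ i * j0 / 2 * (t (i + 1) - t i) := by ring
            _ ≤ _ := h4
      · have h2 := hj k le_rfl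
        have h3 : 0 ≤ D - t k := sub_nonneg.mpr (htD k)
        have h4 := mul_le_mul_of_nonneg_right h2 h3
        calc j0 * ((2 : ℝ) ^ k / 2 * (D - t k)) = (2 : ℝ) ^ k * j0 / 2 * (D - t k) := by ring
          _ ≤ _ := h4
    have h5 := h1.trans hcost
    have h6 : j0 * (t 0 / 2 + (∑ i ∈ Finset.range k, (2 : ℝ) ^ i / 2 * (t (i + 1) - t i)) +
      2 ^ k / 2 * (D - t k)) ≤ j0 * (C * D) := by
      calc _ ≤ C * j0 * D := h5
        _ = j0 * (C * D) := by ring
    exact le_of_mul_le_mul_left h6 hj0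
  have hsum2 : (∑ i ∈ Finset.range k, (2 : ℝ) ^ (i + 1) * (t (i + 1) - t i)) =
      4 * ∑ i ∈ Finset.range k, (2 : ℝ) ^ i / 2 * (t (i + 1) - t i) := by
    rw [Finset.mul_sum]
    apply Finset.sum_congr rfl
    intro i _
    rw [pow_succ]
    ring
  have hSk : 0 ≤ S k / 2 ^ k := by
    apply div_nonneg _ (by positivity)
    simp only [S]
    apply add_nonneg ht0
    apply Finset.sum_nonneg
    intro l _
    exact mul_nonneg (by positivity) (sub_nonneg.mpr (htmono l))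
  have hA' := hA k
  have hB' := hB k
  have hDt0 : 0 ≤ D - t 0 := sub_nonneg.mpr (htD 0)
  have hDtk : 0 ≤ (2 : ℝ) ^ k * (D - t k) := mul_nonneg (by positivity) (sub_nonneg.mpr (htD k))
  have hpk : (2 : ℝ) ^ (k + 1) * (D - t k) = 2 * (2 ^ k * (D - t k)) := by
    rw [pow_succ]; ring
  rw [hpk] at hB'
  rw [hsum2] at hA' hB'
  have hW' : (2 : ℝ) ^ k / 2 * (D - t k) = (2 ^ k * (D - t k)) / 2 := by ring
  rw [hW'] at hW
  have hfin : ((k : ℝ) + 1) * (D / 4) ≤ 12 * (C * D) := by linarith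
  have h7 : ((k : ℝ) + 1) * D ≤ (48 * C) * D := by linarith
  exact le_of_mul_le_mul_right h7 hD

end Pool.Agent.Helper7.G3
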