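import Pool.Agent.Helper7.G3.Basic
import Pool.Agent.Helper41.CT.Cost

/-!
# Costs: subadditivity

PROOFS.  They are the module versions of `Pool.Agent.Helper41.CT.Bd.*` (same proofs, with
`T.map (LinearMap.mulLeft K q)` replaced by `tr q T`).
`finrank_tr`: `Algebra.lsmul K K M x` is injective for `x ≠ 0`.
`cst_add_le`: `tr (x+y) T ⊔ T ≤ (tr x T ⊔ T) ⊔ (tr y T ⊔ T)`, whose intersection contains `T`.
`cst_mul_le`: `tr (x*y) T ⊔ T ≤ tr x (tr y T ⊔ T) ⊔ (tr x T ⊔ T)`, intersection contains `tr x T`.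
`cst_inv_le`: `tr x (tr x⁻¹ T ⊔ T) = T ⊔ tr x T`.
`cst_cx`: induction on the expression.
`stay`: `T / {x ∈ T : q x ∈ T}` embeds into `(tr q T ⊔ T) / T` by `q`.
-/

open Module

namespace Pool.Agent.Helper7.G3

open Pool.Agent.Helper41.CT

variable {K E M : Type*} [Field K] [DivisionRing E] [Algebra K E] [AddCommGroup M] [Module K M]
  [Module E M] [IsScalarTower K E M]

lemma mem_tr {q : E} {T : Submodule K M} {z : M} : z ∈ tr q T ↔ ∃ t ∈ T, q • t = z := by
  unfold tr
  rw [Submodule.mem_map]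
  rfl

lemma smul_mem_tr {q : E} {T : Submodule K M} {t : M} (ht : t ∈ T) : q • t ∈ tr q T :=
  mem_tr.2 ⟨t, ht, rfl⟩

lemma tr_mono (q : E) {S T : Submodule K M} (h : S ≤ T) : tr q S ≤ tr q T :=
  Submodule.map_mono h

lemma lsmul_inj {x : E} (hx : x ≠ 0) :
    Function.Injective (Algebra.lsmul K K M x : M →ₗ[K] M) := by
  intro a b hab
  have h1 : x • a = x • b := hab
  have h2 : x⁻¹ • (x • a) = x⁻¹ • (x • b) := by rw [h1]
  rwa [smul_smul, smul_smul, inv_mul_cancel₀ hx, one_smul, one_smul] at h2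

instance fd_tr (x : E) (T : Submodule K M) [FiniteDimensional K T] :
    FiniteDimensional K ↥(tr x T) :=
  inferInstanceAs (FiniteDimensional K ↥(T.map (Algebra.lsmul K K M x : M →ₗ[K] M)))

lemma finrank_tr (T : Submodule K M) {x : E} (hx : x ≠ 0) :
    finrank K ↥(tr x T) = finrank K T :=
  (LinearEquiv.finrank_eq (Submodule.equivMapOfInjective _ (lsmul_inj hx) T)).symm

lemma tr_zero (T : Submodule K M) : tr (0 : E) T = ⊥ := by
  rw [eq_bot_iff]
  intro z hz
  obtain ⟨t, -, rfl⟩ := mem_tr.1 hz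
  simp

lemma cst_add_finrank (x : E) (T : Submodule K M) [FiniteDimensional K T] :
    finrank K ↥(tr x T ⊔ T) = cst x T + finrank K T := by
  have h : finrank K T ≤ finrank K ↥(tr x T ⊔ T) := Submodule.finrank_mono le_sup_right
  unfold cst
  omega

lemma cst_scalar (a : K) (T : Submodule K M) [FiniteDimensional K T] :
    cst (algebraMap K E a) T = 0 := by
  have h : tr (algebraMap K E a) T ⊔ T = T := by
    apply sup_eq_right.2
    intro z hz
    obtain ⟨t, ht, rfl⟩ := mem_tr.1 hz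
    rw [algebraMap_smul]
    exact T.smul_mem a ht
  unfold cst
  rw [h]
  omega

lemma cst_add_le (x y : E) (T : Submodule K M) [FiniteDimensional K T] :
    cst (x + y) T ≤ cst x T + cst y T := by
  have h1 : tr (x + y) T ⊔ T ≤ (tr x T ⊔ T) ⊔ (tr y T ⊔ T) := by
    apply sup_le
    · intro z hz
      obtain ⟨t, ht, rfl⟩ := mem_tr.1 hz
      rw [add_smul]
      apply Submodule.add_mem
      · exact (le_sup_left : tr x T ⊔ T ≤ _) ((le_sup_left : tr x T ≤ _) (smul_mem_tr ht))
      · exact (le_sup_right : tr y T ⊔ T ≤ _) ((le_sup_left : tr y T ≤ _) (smul_mem_tr ht))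
    · exact le_sup_right.trans le_sup_left
  have h2 := Submodule.finrank_mono h1
  have h3 := Submodule.finrank_sup_add_finrank_inf_eq (tr x T ⊔ T) (tr y T ⊔ T)
  have h4 : finrank K T ≤ finrank K ↥((tr x T ⊔ T) ⊓ (tr y T ⊔ T)) :=
    Submodule.finrank_mono (le_inf le_sup_right le_sup_right)
  have h5 := cst_add_finrank x T
  have h6 := cst_add_finrank y T
  have h7 := cst_add_finrank (x + y) T
  omega

lemma cst_mul_le (x y : E) (T : Submodule K M) [FiniteDimensional K T] :
    cst (x * y) T ≤ cst x T + cst y T := by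
  by_cases hx0 : x = 0
  · subst hx0
    have h : cst ((0 : E) * y) T = 0 := by
      rw [zero_mul]
      unfold cst
      rw [tr_zero, bot_sup_eq]
      omega
    omega
  have h1 : tr (x * y) T ⊔ T ≤ tr x (tr y T ⊔ T) ⊔ (tr x T ⊔ T) := by
    apply sup_le
    · intro z hz
      obtain ⟨t, ht, rfl⟩ := mem_tr.1 hz
      apply (le_sup_left : tr x (tr y T ⊔ T) ≤ _)
      rw [mul_smul]
      exact smul_mem_tr ((le_sup_left : tr y T ≤ _) (smul_mem_tr ht))
    · exact le_sup_right.trans le_sup_right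
  have h2 := Submodule.finrank_mono h1
  have h3 := Submodule.finrank_sup_add_finrank_inf_eq (tr x (tr y T ⊔ T)) (tr x T ⊔ T)
  have h4 : finrank K ↥(tr x T) ≤ finrank K ↥(tr x (tr y T ⊔ T) ⊓ (tr x T ⊔ T)) :=
    Submodule.finrank_mono (le_inf (tr_mono x le_sup_right) le_sup_left)
  have h5 := finrank_tr T hx0
  have h6 := finrank_tr (tr y T ⊔ T) hx0
  have h7 := cst_add_finrank x T
  have h8 := cst_add_finrank y T
  have h9 := cst_add_finrank (x * y) T
  omega

lemma cst_inv_le (x : E) (T : Submodule K M) [FiniteDimensional K T] :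
    cst x⁻¹ T ≤ cst x T := by
  by_cases hx0 : x = 0
  · subst hx0
    rw [inv_zero]
  have h1 : tr x (tr x⁻¹ T ⊔ T) = tr x T ⊔ T := by
    apply le_antisymm
    · intro z hz
      obtain ⟨t, ht, rfl⟩ := mem_tr.1 hz
      obtain ⟨a, ha, b, hb, rfl⟩ := Submodule.mem_sup.1 ht
      obtain ⟨c, hc, rfl⟩ := mem_tr.1 ha
      rw [smul_add, smul_smul, mul_inv_cancel₀ hx0, one_smul]
      exact Submodule.add_mem _ ((le_sup_right : T ≤ _) hc)
        ((le_sup_left : tr x T ≤ _) (smul_mem_tr hb))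
    · apply sup_le
      · exact tr_mono x le_sup_right
      · intro z hz
        refine mem_tr.2 ⟨x⁻¹ • z, (le_sup_left : tr x⁻¹ T ≤ _) (smul_mem_tr hz), ?_⟩
        rw [smul_smul, mul_inv_cancel₀ hx0, one_smul]
  have h2 := finrank_tr (tr x⁻¹ T ⊔ T) hx0
  rw [h1] at h2
  have h3 := cst_add_finrank x T
  have h4 := cst_add_finrank x⁻¹ T
  omega

/-- An element with a rational expression with `n` leaves costs at most `n b` if all leaves cost at
most `b`. -/
lemma cst_cx {S : Set E} {n : ℕ} {q : E} (h : Cx K S n q) (T : Submodule K M)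
    [FiniteDimensional K T] {b : ℕ} (hS : ∀ s ∈ S, cst s T ≤ b) : cst q T ≤ n * b := by
  induction h with
  | base s hs => simpa using hS s hs
  | scalar a => rw [cst_scalar]; exact Nat.zero_le _
  | add _ _ hx hy => rw [add_mul]; exact (cst_add_le _ _ T).trans (Nat.add_le_add hx hy)
  | mul _ _ hx hy => rw [add_mul]; exact (cst_mul_le _ _ T).trans (Nat.add_le_add hx hy)
  | inv _ hx => exact (cst_inv_le _ T).trans hx

/-- `{x ∈ T : q x ∈ T}` has codimension at most `cst q T` in `T`. -/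
lemma stay (q : E) (T : Submodule K M) [FiniteDimensional K T] :
    finrank K T ≤ finrank K ↥(T ⊓ T.comap (Algebra.lsmul K K M q)) + cst q T := by
  by_cases hq : q = 0
  · subst hq
    have h : T ⊓ T.comap (Algebra.lsmul K K M (0 : E)) = T := by
      apply inf_eq_left.2
      intro z _
      rw [Submodule.mem_comap, map_zero, LinearMap.zero_apply]
      exact T.zero_mem
    rw [h]
    omega
  have h1 : tr q (T ⊓ T.comap (Algebra.lsmul K K M q)) = tr q T ⊓ T := by
    apply le_antisymm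
    · intro z hz
      obtain ⟨t, ht, rfl⟩ := mem_tr.1 hz
      obtain ⟨ht1, ht2⟩ := Submodule.mem_inf.1 ht
      exact Submodule.mem_inf.2 ⟨smul_mem_tr ht1, ht2⟩
    · intro z hz
      obtain ⟨hz1, hz2⟩ := Submodule.mem_inf.1 hz
      obtain ⟨t, ht, rfl⟩ := mem_tr.1 hz1
      exact smul_mem_tr (Submodule.mem_inf.2 ⟨ht, hz2⟩)
  have h2 := finrank_tr (T ⊓ T.comap (Algebra.lsmul K K M q)) hq
  rw [h1] at h2
  have h3 := Submodule.finrank_sup_add_finrank_inf_eq (tr q T) T
  have h4 := finrank_tr T hq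
  have h5 := cst_add_finrank q T
  omega

/-- `{x ∈ T : q x ∈ X}` has codimension at most `cst q T + (dim T - dim (T ∩ X))` in `T`, here
for a `K`-subspace `X` of `M`. -/
lemma stay_in (q : E) (T X : Submodule K M) [FiniteDimensional K T] :
    finrank K T ≤ finrank K ↥(T ⊓ X.comap (Algebra.lsmul K K M q)) + cst q T +
      (finrank K T - finrank K ↥(T ⊓ X)) := by
  by_cases hq : q = 0
  · subst hq
    have h : T ⊓ X.comap (Algebra.lsmul K K M (0 : E)) = T := by
      apply inf_eq_left.2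
      intro z _
      rw [Submodule.mem_comap, map_zero, LinearMap.zero_apply]
      exact X.zero_mem
    rw [h]
    omega
  have hTX : T ⊓ X ≤ T := inf_le_left
  have : FiniteDimensional K ↥(T ⊓ X) := Submodule.finiteDimensional_of_le hTX
  have h1 : tr q T ⊓ (T ⊓ X) ≤ tr q (T ⊓ X.comap (Algebra.lsmul K K M q)) := by
    intro z hz
    obtain ⟨hz1, hz2⟩ := Submodule.mem_inf.1 hz
    obtain ⟨t, ht, rfl⟩ := mem_tr.1 hz1
    exact smul_mem_tr (Submodule.mem_inf.2 ⟨ht, (Submodule.mem_inf.1 hz2).2⟩)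
  have : FiniteDimensional K ↥(T ⊓ X.comap (Algebra.lsmul K K M q)) :=
    Submodule.finiteDimensional_of_le (inf_le_left : _ ≤ T)
  have h2 := finrank_tr (T ⊓ X.comap (Algebra.lsmul K K M q)) hq
  have h3 := Submodule.finrank_mono h1
  have h4 := Submodule.finrank_sup_add_finrank_inf_eq (tr q T) (T ⊓ X)
  have h5 : finrank K ↥(tr q T ⊔ (T ⊓ X)) ≤ finrank K ↥(tr q T ⊔ T) :=
    Submodule.finrank_mono (sup_le_sup_left hTX _)
  have h6 := finrank_tr T hq
  have h7 := cst_add_finrank q T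
  have h8 := Submodule.finrank_mono hTX
  omega

end Pool.Agent.Helper7.G3
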