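import Pool.Agent.Helper7.G3.Main
import Pool.Agent.Helper7.DivSub.Setup

/-!
# Algebras of lower Gelfand-Kirillov dimension at most three
-/

open Module Filter

universe u v w

namespace Pool.Agent.Helper7.G3

open Pool.Agent.Helper41.CT Pool.Agent.Helper7.DivSub

/-- The lower Gelfand-Kirillov dimension of a `K`-algebra `A`: the supremum, over all
finite-dimensional subspaces `V` of `A` containing `1`, of `liminf log dim (V^n) / log n`.
It is at most the Gelfand-Kirillov dimension, where `limsup` replaces `liminf`. -/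
noncomputable def lowerGKdim (K A : Type*) [Field K] [Ring A] [Algebra K A] : EReal :=
  ⨆ (V : Submodule K A) (_ : FiniteDimensional K V) (_ : (1 : A) ∈ V),
    liminf (fun n : ℕ => ((Real.log (finrank K ↥(V ^ n)) / Real.log n : ℝ) : EReal)) atTop

lemma lowerGKdim_le_GKdim (K A : Type*) [Field K] [Ring A] [Algebra K A] :
    lowerGKdim K A ≤ GKdim K A := by
  unfold lowerGKdim GKdim
  refine iSup_mono fun V => iSup_mono fun _ => iSup_mono fun _ => ?_
  exact liminf_le_limsup

/-- Transport of a generating subspace to the quotient division algebra. -/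
lemma exists_V_lower {K A Q : Type*} [Field K] [Ring A] [Algebra K A] [DivisionRing Q]
    [Algebra K Q] [hA : Algebra.FiniteType K A] (ι : A →ₐ[K] Q)
    (hι : IsQuotientDivisionAlgebra ι) :
    ∃ V : Submodule K Q, FiniteDimensional K V ∧ (1 : Q) ∈ V ∧
      (∀ q : Q, ∃ n : ℕ, ∃ a ∈ V ^ n, ∃ b ∈ V ^ n, b ≠ 0 ∧ q = b⁻¹ * a) ∧
      liminf (fun n : ℕ => ((Real.log (finrank K ↥(V ^ n)) / Real.log n : ℝ) : EReal)) atTop ≤
        lowerGKdim K A := by
  obtain ⟨W, hWf, hW1, hW⟩ := exists_generating (K := K) (A := A)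
  have hpow : ∀ n : ℕ, (W.map ι.toLinearMap) ^ n = (W ^ n).map ι.toLinearMap := by
    intro n
    exact (Submodule.map_pow W ι n).symm
  have h1 : (1 : Q) ∈ W.map ι.toLinearMap := ⟨1, hW1, map_one ι⟩
  refine ⟨W.map ι.toLinearMap, inferInstance, h1, ?_, ?_⟩
  · intro q
    obtain ⟨a, b, hb, hq⟩ := hι.2 q
    obtain ⟨n, hn⟩ := hW a
    obtain ⟨m, hm⟩ := hW b
    refine ⟨max n m, ι a, ?_, ι b, ?_, ?_, hq⟩
    · rw [hpow]
      exact ⟨a, pow_mono' hW1 (le_max_left _ _) hn, rfl⟩
    · rw [hpow]
      exact ⟨b, pow_mono' hW1 (le_max_right _ _) hm, rfl⟩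
    · intro h
      exact hb (hι.1 (h.trans (map_zero ι).symm))
  · have h2 : ∀ n : ℕ, finrank K ↥((W.map ι.toLinearMap) ^ n) = finrank K ↥(W ^ n) := by
      intro n
      rw [hpow]
      exact (LinearEquiv.finrank_eq
        (Submodule.equivMapOfInjective ι.toLinearMap hι.1 (W ^ n))).symm
    simp only [h2]
    unfold lowerGKdim
    exact le_iSup_of_le W (le_iSup_of_le hWf (le_iSup_of_le hW1 le_rfl))

/-- A copy of `Q`, to carry a second module structure. -/
def Cp (Q : Type u) : Type u := Q

instance (Q : Type u) [DivisionRing Q] : DivisionRing (Cp Q) := inferInstanceAs (DivisionRing Q)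

instance (K : Type v) (Q : Type u) [Field K] [DivisionRing Q] [Algebra K Q] :
    Algebra K (Cp Q) := inferInstanceAs (Algebra K Q)

/-- From the limit inferior to infinitely many good `n`. -/
lemma frequently_of_liminf (f : ℕ → ℕ) (hf : ∀ n, 1 ≤ f n)
    (h : liminf (fun n : ℕ => ((Real.log (f n) / Real.log n : ℝ) : EReal)) atTop ≤ 3)
    (ε : ℝ) (hε : 0 < ε) : ∃ᶠ N : ℕ in atTop, (f N : ℝ) ≤ (N : ℝ) ^ (3 + ε) := by
  have h1 : liminf (fun n : ℕ => ((Real.log (f n) / Real.log n : ℝ) : EReal)) atTop <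
      ((3 + ε : ℝ) : EReal) := by
    refine lt_of_le_of_lt h ?_
    have h3 : (3 : EReal) = ((3 : ℝ) : EReal) := by norm_cast
    rw [h3]
    exact EReal.coe_lt_coe_iff.2 (by linarith)
  have h2 := frequently_lt_of_liminf_lt (by isBoundedDefault) h1
  refine (h2.and_eventually (eventually_ge_atTop 2)).mono ?_
  rintro n ⟨hn, hn2⟩
  have hn' : Real.log (f n) / Real.log n < 3 + ε := by exact_mod_cast hn
  have hn2' : (2 : ℝ) ≤ n := by exact_mod_cast hn2
  have hlog : 0 < Real.log n := Real.log_pos (by linarith)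
  rw [div_lt_iff₀ hlog] at hn'
  have hfn : (0 : ℝ) < f n := by exact_mod_cast hf n
  rw [← Real.log_le_log_iff hfn (by positivity), Real.log_rpow (by linarith)]
  exact hn'.le

/-- The theorem for an endomorphism `φ`. -/
theorem finite_of_endomorphism {K A : Type*} {Q : Type u} [Field K] [Ring A] [Algebra K A]
    [Algebra.FiniteType K A] [DivisionRing Q] [Algebra K Q] (ι : A →ₐ[K] Q)
    (hι : IsQuotientDivisionAlgebra ι) (hgk : lowerGKdim K A ≤ 3) (φ : Q →ₐ[K] Q)
    (D : Subfield Q) (hD : ∀ q : Q, φ q ∈ D) : Module.Finite D Q := by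
  classical
  by_contra hfin
  obtain ⟨V, hV, h1, hfrac, hle⟩ := exists_V_lower ι hι
  set s : Cp Q →ₐ[K] Q := φ with hs
  letI : Module (Cp Q) Q := Module.compHom Q (s : Cp Q →+* Q)
  have hsm : ∀ (e : Cp Q) (m : Q), e • m = s e * m := fun _ _ => rfl
  haveI i1 : IsScalarTower K (Cp Q) Q := by
    refine ⟨fun a e x => ?_⟩
    rw [hsm, hsm, map_smul, smul_mul_assoc]
  haveI i2 : IsScalarTower (Cp Q) Q Q := by
    refine ⟨fun e x y => ?_⟩
    rw [smul_eq_mul, smul_eq_mul, hsm, hsm, mul_assoc]
  have hinf : ¬ Module.Finite (Cp Q) Q := by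
    intro hF
    apply hfin
    obtain ⟨S, hS⟩ := hF.fg_top
    refine ⟨⟨S, ?_⟩⟩
    rw [eq_top_iff]
    intro x _
    have hx : x ∈ Submodule.span (Cp Q) (S : Set Q) := by rw [hS]; trivial
    induction hx using Submodule.span_induction with
    | mem x hx => exact Submodule.subset_span hx
    | zero => exact zero_mem _
    | add x y _ _ hx hy => exact add_mem (hx trivial) (hy trivial)
    | smul a x _ hx =>
      have h := (Submodule.span D (S : Set Q)).smul_mem ⟨φ a, hD a⟩ (hx trivial)
      exact h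
  have hinfK : ¬ Module.Finite K Q := by
    intro h
    exact hinf (Module.Finite.of_restrictScalars_finite K (Cp Q) Q)
  set b := Module.finBasis K V with hb
  set F : Fin (finrank K V) → Q := fun i => (b i : Q) with hF
  have hFV : ∀ i, F i ∈ V := fun i => (b i).2
  have hspan : Submodule.span K ((Finset.univ.image F : Finset Q) : Set Q) = V := by
    apply le_antisymm
    · rw [Submodule.span_le]
      intro x hx
      rw [Finset.coe_image, Finset.coe_univ, Set.image_univ] at hx
      obtain ⟨i, rfl⟩ := hx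
      exact hFV i
    · intro x hx
      have h2 : (⟨x, hx⟩ : V) ∈ Submodule.span K (Set.range b) := by rw [b.span_eq]; trivial
      have h3 : x ∈ (Submodule.span K (Set.range b)).map V.subtype := ⟨⟨x, hx⟩, h2, rfl⟩
      rw [Submodule.map_span] at h3
      refine Submodule.span_mono ?_ h3
      rintro _ ⟨_, ⟨i, rfl⟩, rfl⟩
      rw [Finset.coe_image, Finset.coe_univ, Set.image_univ]
      exact ⟨i, rfl⟩
  have hrange : ((Finset.univ.image F : Finset Q) : Set Q) = Set.range F := by
    rw [Finset.coe_image, Finset.coe_univ, Set.image_univ]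
  have hgen : ∀ q : Q, ∃ k : ℕ, Cx K (Set.range F) k q := by
    intro q
    obtain ⟨n, a, ha, c, hc, _, rfl⟩ := hfrac q
    obtain ⟨k, hk⟩ := exists_cx_pow (Finset.univ.image F) n a (by rw [hspan]; exact ha)
    obtain ⟨l, hl⟩ := exists_cx_pow (Finset.univ.image F) n c (by rw [hspan]; exact hc)
    rw [hrange] at hk hl
    exact ⟨l + k, hl.inv.mul hk⟩
  exact main s hsm hinf hinfK V h1 hfrac (fun i => (F i : Cp Q)) F (fun _ => rfl) hFV hgen
    (frequently_of_liminf (fun n => finrank K ↥(V ^ n)) (fun n => finrank_pow_pos h1 n)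
      (hle.trans hgk))

end Pool.Agent.Helper7.G3
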