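import Pool.Agent.Helper7.G3.Main

/-!
# The main argument under a weaker comparison of the profile functions

`J_Q (4^a lam) ≤ J_E (lam)` for some fixed `a` instead of `J_E = J_Q`.
-/

open Module Filter

universe u v

namespace Pool.Agent.Helper7.G3

open Pool.Agent.Helper41.CT

/-- Shift of the index in the growth condition. -/
lemma shift_hub (j : ℕ → ℝ) (a : ℕ)
    (h : ∀ δ : ℝ, 0 < δ → ∃ᶠ m : ℕ in atTop, j (m + a) ≤ (2 : ℝ) ^ (-((1 - δ) * (m : ℝ)))) :
    ∀ δ : ℝ, 0 < δ → ∃ᶠ m : ℕ in atTop, j m ≤ (2 : ℝ) ^ (-((1 - δ) * (m : ℝ))) := by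
  intro δ hδ
  obtain ⟨m₁, hm₁⟩ := exists_nat_ge (2 * (a : ℝ) / δ)
  have h1 := (h (δ / 2) (by linarith)).and_eventually (eventually_ge_atTop m₁)
  rw [frequently_atTop] at h1 ⊢
  intro b
  obtain ⟨m, hm, hm2, hm3⟩ := h1 b
  refine ⟨m + a, by omega, hm2.trans ?_⟩
  apply Real.rpow_le_rpow_of_exponent_le (by norm_num)
  have h2 : (m₁ : ℝ) ≤ m := by exact_mod_cast hm3
  have h3 : 2 * (a : ℝ) / δ ≤ m := hm₁.trans h2
  rw [div_le_iff₀ hδ] at h3
  have h4 : (0 : ℝ) ≤ a := Nat.cast_nonneg a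
  push_cast
  nlinarith

/-- The main theorem for `E → Q` of infinite left index with comparable profile functions. -/
theorem main2 {K : Type v} {E Q : Type u} [Field K] [DivisionRing E] [Algebra K E] [DivisionRing Q]
    [Algebra K Q] [Module E Q] [IsScalarTower K E Q] [IsScalarTower E Q Q]
    (s : E →ₐ[K] Q) (hs : ∀ (e : E) (m : Q), e • m = s e * m)
    (hinf : ¬ Module.Finite E Q) (hinfK : ¬ Module.Finite K Q)
    (V : Submodule K Q) [FiniteDimensional K V] (h1 : (1 : Q) ∈ V)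
    (hfrac : ∀ q : Q, ∃ n : ℕ, ∃ a ∈ V ^ n, ∃ b ∈ V ^ n, b ≠ 0 ∧ q = b⁻¹ * a)
    {r r' : ℕ} (F' : Fin r' → E) (F : Fin r → Q) (a : ℕ)
    (hJ : ∀ lam : ℝ, 1 ≤ lam → J K F ((4 : ℝ) ^ a * lam) ≤ J K F' lam)
    (hFV : ∀ i, F i ∈ V) (hgen : ∀ q : Q, ∃ k : ℕ, Cx K (Set.range F) k q)
    (hub : ∀ ε : ℝ, 0 < ε → ∃ᶠ N : ℕ in atTop, (finrank K ↥(V ^ N) : ℝ) ≤ (N : ℝ) ^ (3 + ε)) :
    False := by
  classical
  -- complexities of the images
  choose κ hκ using fun i => hgen (s (F' i))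
  set C : ℝ := ∑ i, (κ i : ℝ) with hC
  have hC0 : 0 ≤ C := Finset.sum_nonneg fun _ _ => Nat.cast_nonneg _
  -- costs over `E` against costs over `Q`
  have hcost : ∀ (M : Type u) [AddCommGroup M] [Module K M] [Module E M] [Module Q M]
      [IsScalarTower K E M] [IsScalarTower K Q M], (∀ (e : E) (m : M), e • m = s e • m) →
      ∀ (T : Submodule K M), FiniteDimensional K T →
      (∑ i, (cst (F' i) T : ℝ)) ≤ C * ∑ i, (cst (F i) T : ℝ) := by
    intro M _ _ _ _ _ _ hM T hT
    have h := sum_cst_le F (fun i => s (F' i)) κ hκ T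
    refine le_trans (le_of_eq ?_) h
    apply Finset.sum_congr rfl
    intro i _
    rw [cst_eq s hM]
  set g : ℕ → ℕ := fun n => finrank K ↥(V ^ n) with hg
  have hg1 : ∀ n, 1 ≤ g n := fun n => Pool.Agent.Helper7.DivSub.finrank_pow_pos h1 n
  have hgm : Monotone g := by
    intro a b hab
    exact Submodule.finrank_mono (Pool.Agent.Helper7.DivSub.pow_le_pow_of_one_mem h1 hab)
  -- the bound for `J`
  have hJg : ∀ n : ℕ, 1 ≤ n → J K F ((4 : ℝ) ^ a * max 1 ((g (2 * n) : ℝ) / (n + 1))) ≤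
      (C * r) * (((g (n + 1) : ℝ) - g n) / g n) := by
    intro n hn
    have hS : Slope E (V ^ n) (max 1 ((g (2 * n) : ℝ) / (n + 1))) :=
      Slope.mono (slope_pow (E := E) hinf V h1 hfrac n) le_rfl (le_max_right _ _)
    have h2 : J K F ((4 : ℝ) ^ a * max 1 ((g (2 * n) : ℝ) / (n + 1))) * finrank K ↥(V ^ n) ≤
        ∑ i, (cst (F' i) (V ^ n) : ℝ) :=
      (mul_le_mul_of_nonneg_right (hJ _ (le_max_left _ _)) (Nat.cast_nonneg _)).trans
        (J_le F' (V ^ n) hS)
    have h3 := hcost Q (fun e m => by rw [hs, smul_eq_mul]) (V ^ n) inferInstance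
    have h4 : (∑ i, (cst (F i) (V ^ n) : ℝ)) ≤ r * ((g (n + 1) : ℝ) - g n) := by
      calc (∑ i, (cst (F i) (V ^ n) : ℝ)) ≤ ∑ _i : Fin r, ((g (n + 1) : ℝ) - g n) := by
            apply Finset.sum_le_sum
            intro i _
            have h5 := cst_pow V h1 (F i) (hFV i) n
            have h6 : ((cst (K := K) (M := Q) (F i) (V ^ n) : ℕ) : ℝ) + g n ≤ g (n + 1) := by
              exact_mod_cast h5
            linarith
        _ = r * ((g (n + 1) : ℝ) - g n) := by
            rw [Finset.sum_const, Finset.card_univ, Fintype.card_fin, nsmul_eq_mul]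
    have hgn : (0 : ℝ) < g n := by exact_mod_cast hg1 n
    have h7 : J K F ((4 : ℝ) ^ a * max 1 ((g (2 * n) : ℝ) / (n + 1))) * g n ≤
        C * (r * ((g (n + 1) : ℝ) - g n)) :=
      h2.trans (h3.trans (mul_le_mul_of_nonneg_left h4 hC0))
    rw [← mul_div_assoc, le_div_iff₀ hgn]
    linarith
  have h4a : (1 : ℝ) ≤ 4 ^ a := one_le_pow₀ (by norm_num)
  have hhub0 := growth_J (fun x => J K F ((4 : ℝ) ^ a * x))
    (fun x y hx hxy => J_anti F (by nlinarith) (mul_le_mul_of_nonneg_left hxy (by linarith)))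
    (C * r) (mul_nonneg hC0 (Nat.cast_nonneg _)) g hg1 hgm hub hJg
  have hhub := shift_hub (fun m : ℕ => J K F ((4 : ℝ) ^ m)) a (by
    intro δ hδ
    refine (hhub0 δ hδ).mono ?_
    intro m hm
    rw [pow_add, mul_comm]
    exact hm)
  -- the sequence `j`
  set j : ℕ → ℝ := fun m => J K F ((4 : ℝ) ^ m) with hjdef
  have h4pow : ∀ m : ℕ, (1 : ℝ) ≤ 4 ^ m := fun m => one_le_pow₀ (by norm_num)
  have hjpos : ∀ m, 0 < j m := fun m => J_pos F hinfK hgen _ (h4pow m)
  have hjanti : Antitone j := by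
    intro a b hab
    exact J_anti F (h4pow a) (pow_le_pow_right₀ (by norm_num) hab)
  -- number of scales
  obtain ⟨k, hk⟩ := exists_nat_gt (48 * (2 ^ a * (2 * C + 1)))
  obtain ⟨q, hq⟩ := exists_leftIndep s hs hinf (2 ^ k)
  choose L hL using fun i => hgen (q i)
  set B : ℝ := ∑ i, (L i : ℝ) with hB
  have hB0 : 0 ≤ B := Finset.sum_nonneg fun _ _ => Nat.cast_nonneg _
  obtain ⟨m₀, hm₀⟩ := small j hjanti hhub (1 / (8 * (B + 1))) (by positivity)
  obtain ⟨m, hm, hkm, hreg⟩ := regular j hjpos hhub (k + 1) m₀ (by omega)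
  -- a near optimal subspace
  obtain ⟨M, iM1, iM2, iM3, iM4, T, hTf, hT0, hTS, hTc⟩ := exists_near F (h4pow m) (hjpos m)
  letI : Module E M := Module.compHom M (s : E →+* Q)
  have hM : ∀ (e : E) (x : M), e • x = s e • x := fun _ _ => rfl
  haveI : IsScalarTower K E M := by
    refine ⟨fun a e x => ?_⟩
    rw [hM, hM, map_smul, smul_assoc]
  have hD : (0 : ℝ) < finrank K T := by
    have : 0 < finrank K T := by
      rw [Module.finrank_pos_iff]
      exact (Submodule.nontrivial_iff_ne_bot).2 hT0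
    exact_mod_cast this
  set lam : ℕ → ℝ := fun i => (4 : ℝ) ^ m / 4 ^ i with hlam
  have hlampos : ∀ i, 0 < lam i := fun i => by positivity
  have hSE : Slope E T (lam 0) := by
    have := slope_sub s hM T ((4 : ℝ) ^ m) (by positivity) hTS
    simpa [hlam] using this
  obtain ⟨X, hXf, hXm, hr0, hr, hc⟩ := law T lam hlampos hSE
  have hJi : ∀ i, ∀ T' : Submodule K M, FiniteDimensional K T' → Slope E T' (lam i) →
      J K F' (lam i) * finrank K T' ≤ ∑ f, (cst (F' f) T' : ℝ) := by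
    intro i T' hT' hS
    exact J_le F' T' hS
  have hc' := hc r' F' (fun i => J K F' (lam i)) hJi k
  have hcE := hcost M hM T hTf
  have hcap : ∀ i, i ≤ k → (2 : ℝ) ^ i * ((finrank K T : ℝ) -
      (2 : ℝ) ^ i * ((finrank K T : ℝ) - finrank K ↥(cap T (X i))) - finrank K T / 4) ≤
      (4 : ℝ) ^ m * finrank E (X i) := by
    intro i hi
    haveI := hXf i
    have hle : 2 ^ i ≤ 2 ^ k := Nat.pow_le_pow_right (by norm_num) hi
    have h5 := capture s hM T ((4 : ℝ) ^ m) (by positivity) hTS _ (hq.castLE hle) (X i)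
    have h6 : (∑ a : Fin (2 ^ i), (cst (q (Fin.castLE hle a)) T : ℝ)) ≤ finrank K T / 4 := by
      have h7 : (∑ a : Fin (2 ^ i), (cst (q (Fin.castLE hle a)) T : ℝ)) ≤
          ∑ a : Fin (2 ^ k), (cst (q a) T : ℝ) := by
        have h12 : (∑ a : Fin (2 ^ i), (cst (q (Fin.castLE hle a)) T : ℝ)) =
            ∑ a ∈ Finset.univ.map (Fin.castLEEmb hle), (cst (q a) T : ℝ) := by
          rw [Finset.sum_map]
          rfl
        rw [h12]
        exact Finset.sum_le_sum_of_subset_of_nonneg (Finset.subset_univ _)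
          fun _ _ _ => Nat.cast_nonneg _
      have h8 := sum_cst_le F q L hL T
      have h9 : B * ∑ i, (cst (F i) T : ℝ) ≤ B * (2 * J K F ((4 : ℝ) ^ m) * finrank K T) :=
        mul_le_mul_of_nonneg_left hTc hB0
      have h10 : J K F ((4 : ℝ) ^ m) ≤ 1 / (8 * (B + 1)) := hm₀ m hm
      have h11 : B * (2 * J K F ((4 : ℝ) ^ m) * finrank K T) ≤ finrank K T / 4 := by
        have h12 : B * (2 * J K F ((4 : ℝ) ^ m)) ≤ 1 / 4 := by
          have h13 : B * (2 * J K F ((4 : ℝ) ^ m)) ≤ B * (2 * (1 / (8 * (B + 1)))) := by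
            gcongr
          have h14 : B * (2 * (1 / (8 * (B + 1)))) = (1 / 4) * (B / (B + 1)) := by
            field_simp
            ring
          have h15 : B / (B + 1) ≤ 1 := by
            rw [div_le_one (by linarith)]
            linarith
          linarith
        nlinarith
      linarith
    push_cast at h5
    refine le_trans ?_ h5
    have : (0 : ℝ) ≤ 2 ^ i := by positivity
    apply mul_le_mul_of_nonneg_left _ this
    linarith
  have hfin := comb k (finrank K T) ((4 : ℝ) ^ m) (2 ^ a * (2 * C + 1)) (J K F ((4 : ℝ) ^ m)) hD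
    (by positivity)
    (hjpos m) (fun i => (finrank K ↥(cap T (X i)) : ℝ)) (fun i => (finrank E (X i) : ℝ))
    (fun i => 2 ^ a * (J K F' (lam i) + J K F ((4 : ℝ) ^ m))) (Nat.cast_nonneg _)
    ?_ ?_ ?_ ?_ ?_ ?_ hcap
  · linarith
  · intro i
    have h5 : cap T (X i) ≤ cap T (X (i + 1)) := by
      intro x hx
      rw [mem_cap] at hx ⊢
      exact ⟨hx.1, hXm i hx.2⟩
    haveI : FiniteDimensional K ↥(cap T (X (i + 1))) :=
      Submodule.finiteDimensional_of_le (inf_le_left : cap T (X (i + 1)) ≤ T)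
    exact_mod_cast Submodule.finrank_mono h5
  · intro i
    have h5 : cap T (X i) ≤ T := inf_le_left
    exact_mod_cast Submodule.finrank_mono h5
  · intro i hi
    have hJE : 0 ≤ J K F' (lam i) := J_nonneg F' _
    have hj0 : 0 < J K F ((4 : ℝ) ^ m) := hjpos m
    rcases lt_or_ge i a with hia | hia
    · have h7 : (2 : ℝ) ^ i ≤ 2 ^ a := pow_le_pow_right₀ (by norm_num) hia.le
      have h8 : (0 : ℝ) < 2 ^ a := by positivity
      nlinarith [mul_nonneg h8.le hJE, mul_le_mul_of_nonneg_right h7 hj0.le,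
        mul_pos h8 hj0]
    · have h5 := hreg (i - a) (by omega)
      have h6 : lam i = (4 : ℝ) ^ (m - i) := by
        rw [hlam]
        simp only
        rw [div_eq_iff (by positivity), ← pow_add]
        congr 1
        omega
      have h7 : (4 : ℝ) ^ a * lam i = (4 : ℝ) ^ (m - (i - a)) := by
        rw [h6, ← pow_add]
        congr 1
        omega
      have h8 : J K F ((4 : ℝ) ^ (m - (i - a))) ≤ J K F' (lam i) := by
        rw [← h7]
        apply hJ
        rw [h6]
        exact h4pow _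
      have h9 : (2 : ℝ) ^ i = 2 ^ a * 2 ^ (i - a) := by
        rw [← pow_add]
        congr 1
        omega
      have h10 : (2 : ℝ) ^ (i - a) * J K F ((4 : ℝ) ^ m) / 2 ≤ J K F' (lam i) := h5.trans h8
      have h11 : (0 : ℝ) < 2 ^ a := by positivity
      rw [h9]
      nlinarith [mul_le_mul_of_nonneg_left h10 h11.le, mul_pos h11 hj0]
  · have h5 := mul_le_mul_of_nonneg_left hTc hC0
    have h6 := hc'.trans hcE
    have h8 : (0 : ℝ) < 2 ^ a := by positivity
    have htel : ∑ i ∈ Finset.range k, ((finrank K ↥(cap T (X (i + 1))) : ℝ) -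
        finrank K ↥(cap T (X i))) = finrank K ↥(cap T (X k)) - finrank K ↥(cap T (X 0)) :=
      Finset.sum_range_sub (fun i => (finrank K ↥(cap T (X i)) : ℝ)) k
    have hsplit : ∑ i ∈ Finset.range k, 2 ^ a * (J K F' (lam i) + J K F ((4 : ℝ) ^ m)) *
        ((finrank K ↥(cap T (X (i + 1))) : ℝ) - finrank K ↥(cap T (X i))) =
        2 ^ a * (∑ i ∈ Finset.range k, J K F' (lam i) *
          ((finrank K ↥(cap T (X (i + 1))) : ℝ) - finrank K ↥(cap T (X i)))) +
        2 ^ a * J K F ((4 : ℝ) ^ m) *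
          ((finrank K ↥(cap T (X k)) : ℝ) - finrank K ↥(cap T (X 0))) := by
      rw [← htel, Finset.mul_sum, Finset.mul_sum, ← Finset.sum_add_distrib]
      apply Finset.sum_congr rfl
      intro i _
      ring
    rw [hsplit]
    have h9 := mul_le_mul_of_nonneg_left (h6.trans h5) h8.le
    nlinarith [h9]
  · have : lam 0 = (4 : ℝ) ^ m := by simp [hlam]
    rw [← this]
    exact hr0
  · intro i
    exact hr i

end Pool.Agent.Helper7.G3
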