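import Pool.Agent.Helper7.G3.Profile
import Mathlib.LinearAlgebra.Matrix.Module

/-!
# The profile functions of `Q` and of `E` when `Q` embeds into `M_m(E)`

Let `φ : Q → M_m(E)` be a homomorphism of `K`-algebras and `F'` the family of all entries of the
matrices `φ (F i)`.  If `T ⊆ M` has slopes at most `lam` over `E` then `T^m ⊆ M^m` has slopes at most
`m² lam` over `Q` and costs at most those of the entries.  Hence `J_Q (m² lam) ≤ J_E (lam)`.
-/

open Module

universe u v

namespace Pool.Agent.Helper7.G3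

section

variable {K : Type v} {E Q M : Type u} [Field K] [DivisionRing E] [Algebra K E] [DivisionRing Q]
  [Algebra K Q] [AddCommGroup M] [Module K M] [Module E M] [IsScalarTower K E M] {m : ℕ}

/-- `M^m` with the left `Q`-module structure given by `φ`. -/
def Vc (_φ : Q →ₐ[K] Matrix (Fin m) (Fin m) E) (M : Type u) : Type u := Fin m → M

variable (φ : Q →ₐ[K] Matrix (Fin m) (Fin m) E)

instance : AddCommGroup (Vc φ M) := inferInstanceAs (AddCommGroup (Fin m → M))

instance : Module K (Vc φ M) := inferInstanceAs (Module K (Fin m → M))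

open Matrix.Module in
instance : Module Q (Vc φ M) :=
  letI : Module (Matrix (Fin m) (Fin m) E) (Vc φ M) :=
    inferInstanceAs (Module (Matrix (Fin m) (Fin m) E) (Fin m → M))
  Module.compHom (Vc φ M) (φ : Q →+* Matrix (Fin m) (Fin m) E)

lemma vc_smul (q : Q) (x : Vc φ M) (i : Fin m) :
    (q • x : Vc φ M) i = ∑ j, φ q i j • x j := rfl

instance : IsScalarTower K Q (Vc φ M) := by
  refine ⟨fun a q x => ?_⟩
  funext i
  have h : (a • (q • x) : Vc φ M) i = a • ((q • x : Vc φ M) i) := rfl
  rw [h, vc_smul, vc_smul, Finset.smul_sum, map_smul]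
  apply Finset.sum_congr rfl
  intro j _
  rw [Matrix.smul_apply, smul_assoc]

/-- `T^m`. -/
def vpow (T : Submodule K M) : Submodule K (Vc φ M) :=
  (Submodule.pi Set.univ (fun _ : Fin m => T) : Submodule K (Fin m → M))

variable {φ}

lemma mem_vpow {T : Submodule K M} {x : Vc φ M} : x ∈ vpow φ T ↔ ∀ i, x i ∈ T := by
  unfold vpow
  constructor
  · intro h i
    exact h i (Set.mem_univ i)
  · intro h i _
    exact h i

end

/-- The subspace of functions with values in given subspaces. -/
lemma finrank_pi_sub {K : Type v} {M : Type u} [Field K] [AddCommGroup M] [Module K M] {m : ℕ}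
    (T : Fin m → Submodule K M) [∀ i, FiniteDimensional K (T i)] :
    finrank K ↥(Submodule.pi Set.univ T : Submodule K (Fin m → M)) = ∑ i, finrank K (T i) ∧
      FiniteDimensional K ↥(Submodule.pi Set.univ T : Submodule K (Fin m → M)) := by
  let e : ↥(Submodule.pi Set.univ T : Submodule K (Fin m → M)) ≃ₗ[K] ((i : Fin m) → T i) :=
    { toFun := fun x i => ⟨x.1 i, x.2 i (Set.mem_univ i)⟩
      invFun := fun y => ⟨fun i => (y i : M), fun i _ => (y i).2⟩
      map_add' := fun _ _ => rfl
      map_smul' := fun _ _ => rfl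
      left_inv := fun _ => rfl
      right_inv := fun _ => rfl }
  refine ⟨?_, ?_⟩
  · rw [e.finrank_eq, Module.finrank_pi_fintype]
  · exact Module.Finite.equiv e.symm

section

variable {K : Type v} {E Q M : Type u} [Field K] [DivisionRing E] [Algebra K E] [DivisionRing Q]
  [Algebra K Q] [AddCommGroup M] [Module K M] [Module E M] [IsScalarTower K E M] {m : ℕ}
  (φ : Q →ₐ[K] Matrix (Fin m) (Fin m) E)

lemma finrank_vpow (T : Submodule K M) [FiniteDimensional K T] :
    finrank K ↥(vpow φ T) = m * finrank K T := by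
  have h := (finrank_pi_sub (m := m) (fun _ => T)).1
  rw [Finset.sum_const, Finset.card_univ, Fintype.card_fin, smul_eq_mul] at h
  exact h

instance (T : Submodule K M) [FiniteDimensional K T] : FiniteDimensional K ↥(vpow φ T) :=
  (finrank_pi_sub (m := m) (fun _ => T)).2

/-- The sum of `T` and of finitely many translates. -/
lemma finrank_sup_tr (T : Submodule K M) [FiniteDimensional K T] (y : Fin m → E)
    (s : Finset (Fin m)) :
    finrank K ↥(T ⊔ ⨆ j ∈ s, tr (y j) T) ≤ finrank K T + ∑ j ∈ s, cst (y j) T ∧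
      FiniteDimensional K ↥(T ⊔ ⨆ j ∈ s, tr (y j) T) := by
  classical
  induction s using Finset.induction_on with
  | empty =>
    have h : T ⊔ ⨆ j ∈ (∅ : Finset (Fin m)), tr (y j) T = T := by simp
    rw [h]
    exact ⟨by simp, inferInstance⟩
  | insert a s ha ih =>
    obtain ⟨ih1, ih2⟩ := ih
    set A : Submodule K M := T ⊔ ⨆ j ∈ s, tr (y j) T with hA
    have h1 : T ⊔ ⨆ j ∈ insert a s, tr (y j) T = A ⊔ (tr (y a) T ⊔ T) := by
      rw [hA, Finset.iSup_insert]
      apply le_antisymm
      · refine sup_le (le_sup_left.trans le_sup_left) (sup_le ?_ ?_)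
        · exact le_sup_left.trans le_sup_right
        · exact le_sup_right.trans le_sup_left
      · refine sup_le (sup_le le_sup_left (le_sup_right.trans le_sup_right)) (sup_le ?_ le_sup_left)
        exact le_sup_left.trans le_sup_right
    rw [h1]
    refine ⟨?_, inferInstance⟩
    have h2 := Submodule.finrank_sup_add_finrank_inf_eq A (tr (y a) T ⊔ T)
    have h3 : finrank K T ≤ finrank K ↥(A ⊓ (tr (y a) T ⊔ T)) :=
      Submodule.finrank_mono (le_inf (by rw [hA]; exact le_sup_left) le_sup_right)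
    have h4 := cst_add_finrank (y a) T
    rw [Finset.sum_insert ha]
    omega

lemma cst_vpow (T : Submodule K M) [FiniteDimensional K T] (q : Q) :
    cst q (vpow φ T) ≤ ∑ i, ∑ j, cst (φ q i j) T := by
  classical
  let B : Fin m → Submodule K M := fun i => T ⊔ ⨆ j ∈ Finset.univ, tr (φ q i j) T
  have hB : ∀ i, FiniteDimensional K (B i) := fun i =>
    (finrank_sup_tr T (fun j => φ q i j) Finset.univ).2
  let P : Submodule K (Vc φ M) := (Submodule.pi Set.univ B : Submodule K (Fin m → M))
  have hle : tr q (vpow φ T) ⊔ vpow φ T ≤ P := by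
    apply sup_le
    · intro z hz
      obtain ⟨t, ht, rfl⟩ := mem_tr.1 hz
      rw [mem_vpow] at ht
      intro i _
      have h1 : (q • t : Vc φ M) i = ∑ j, φ q i j • t j := rfl
      change (q • t : Vc φ M) i ∈ B i
      rw [h1]
      refine Submodule.sum_mem _ fun j _ => ?_
      refine Submodule.mem_sup_right ?_
      refine Submodule.mem_iSup_of_mem j (Submodule.mem_iSup_of_mem (Finset.mem_univ j) ?_)
      exact smul_mem_tr (ht j)
    · intro z hz
      rw [mem_vpow] at hz
      intro i _
      exact Submodule.mem_sup_left (hz i)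
  have hfd := finrank_pi_sub B
  have hP1 : finrank K P = ∑ i, finrank K (B i) := hfd.1
  haveI hP2 : FiniteDimensional K P := hfd.2
  have h1 : finrank K ↥(tr q (vpow φ T) ⊔ vpow φ T) ≤ ∑ i, finrank K (B i) := by
    rw [← hP1]
    exact Submodule.finrank_mono hle
  have h2 : ∑ i, finrank K (B i) ≤ ∑ i, (finrank K T + ∑ j, cst (φ q i j) T) :=
    Finset.sum_le_sum fun i _ => (finrank_sup_tr T (fun j => φ q i j) Finset.univ).1
  rw [Finset.sum_add_distrib, Finset.sum_const, Finset.card_univ, Fintype.card_fin,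
    smul_eq_mul] at h2
  have h3 := finrank_vpow φ T
  unfold cst at *
  omega

/-- The `E`-span of all components of the elements of a `Q`-subspace of `M^m`. -/
lemma exists_span (R : Submodule Q (Vc φ M)) [Module.Finite Q R] :
    ∃ R' : Submodule E M, Module.Finite E R' ∧ (∀ x ∈ R, ∀ i, x i ∈ R') ∧
      finrank E R' ≤ finrank Q R * m := by
  classical
  set b := Module.finBasis Q R with hb
  set R' : Submodule E M := Submodule.span E
    (Set.range (fun p : Fin (finrank Q R) × Fin m => ((b p.1 : R) : Vc φ M) p.2)) with hR'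
  refine ⟨R', Module.Finite.span_of_finite E (Set.finite_range _), ?_, ?_⟩
  · intro x hx i
    have h1 : (⟨x, hx⟩ : R) = ∑ l, b.repr ⟨x, hx⟩ l • b l := (b.sum_repr _).symm
    have h2 : x = ∑ l, b.repr ⟨x, hx⟩ l • ((b l : R) : Vc φ M) := by
      have := congrArg (Submodule.subtype R) h1
      rw [map_sum] at this
      exact this
    have h3 : x i = ∑ l, (b.repr ⟨x, hx⟩ l • ((b l : R) : Vc φ M) : Vc φ M) i := by
      conv_lhs => rw [h2]
      exact Finset.sum_apply i Finset.univ
        (fun l => (b.repr ⟨x, hx⟩ l • ((b l : R) : Vc φ M) : Fin m → M))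
    rw [h3]
    refine Submodule.sum_mem _ fun l _ => ?_
    rw [vc_smul]
    refine Submodule.sum_mem _ fun j _ => ?_
    exact R'.smul_mem _ (Submodule.subset_span ⟨(l, j), rfl⟩)
  · have h1 := finrank_range_le_card (R := E)
      (b := fun p : Fin (finrank Q R) × Fin m => ((b p.1 : R) : Vc φ M) p.2)
    rw [Fintype.card_prod, Fintype.card_fin, Fintype.card_fin] at h1
    exact h1

lemma slope_vpow (T : Submodule K M) [FiniteDimensional K T] {lam : ℝ} (hlam : 0 ≤ lam)
    (hT : Slope E T lam) : Slope Q (vpow φ T) ((m : ℝ) ^ 2 * lam) := by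
  intro R hR
  obtain ⟨R', hR'f, hR', hrk⟩ := exists_span φ R
  haveI := hR'f
  have hle : cap (vpow φ T) R ≤ vpow φ (cap T R') := by
    intro x hx
    rw [mem_cap, mem_vpow] at hx
    rw [mem_vpow]
    intro i
    exact mem_cap.2 ⟨hx.1 i, hR' x hx.2 i⟩
  haveI : FiniteDimensional K ↥(cap T R') := Submodule.finiteDimensional_of_le inf_le_left
  have h1 : finrank K ↥(cap (vpow φ T) R) ≤ m * finrank K ↥(cap T R') := by
    rw [← finrank_vpow φ]
    exact Submodule.finrank_mono hle
  have h2 := hT R' hR'f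
  have h3 : (finrank K ↥(cap (vpow φ T) R) : ℝ) ≤ m * finrank K ↥(cap T R') := by
    exact_mod_cast h1
  have h4 : (finrank E R' : ℝ) ≤ finrank Q R * m := by exact_mod_cast hrk
  have hm : (0 : ℝ) ≤ m := Nat.cast_nonneg m
  calc (finrank K ↥(cap (vpow φ T) R) : ℝ) ≤ m * finrank K ↥(cap T R') := h3
    _ ≤ m * (lam * finrank E R') := mul_le_mul_of_nonneg_left h2 hm
    _ ≤ m * (lam * (finrank Q R * m)) :=
        mul_le_mul_of_nonneg_left (mul_le_mul_of_nonneg_left h4 hlam) hm
    _ = (m : ℝ) ^ 2 * lam * finrank Q R := by ring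

end

/-- Comparison of the profile functions. -/
theorem J_matrix {K : Type v} {E Q : Type u} [Field K] [DivisionRing E] [Algebra K E]
    [DivisionRing Q] [Algebra K Q] {m : ℕ} (hm : 0 < m)
    (φ : Q →ₐ[K] Matrix (Fin m) (Fin m) E) {r : ℕ} (F : Fin r → Q) :
    ∃ (r' : ℕ) (F' : Fin r' → E), ∀ lam : ℝ, 1 ≤ lam →
      J K F ((m : ℝ) ^ 2 * lam) ≤ J K F' lam := by
  classical
  let e : (Fin r × (Fin m × Fin m)) ≃ Fin (Fintype.card (Fin r × (Fin m × Fin m))) :=
    Fintype.equivFin _
  refine ⟨_, fun k => φ (F (e.symm k).1) (e.symm k).2.1 (e.symm k).2.2, ?_⟩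
  intro lam hlam
  refine le_csInf (ratio_nonempty _ hlam) ?_
  rintro ρ ⟨M, _, _, _, _, T, hT1, hT2, hT3, rfl⟩
  haveI := hT1
  have hpos : 0 < finrank K T := by
    have : Nontrivial T := Submodule.nontrivial_iff_ne_bot.2 hT2
    exact finrank_pos
  have hpos' : (0 : ℝ) < finrank K T := by exact_mod_cast hpos
  rw [le_div_iff₀ hpos']
  have h1 := J_le F (vpow φ T) (slope_vpow φ T (by linarith) hT3)
  rw [finrank_vpow] at h1
  have h2 : (∑ i, (cst (F i) (vpow φ T) : ℝ)) ≤
      ∑ i, ∑ a, ∑ b, (cst (φ (F i) a b) T : ℝ) := by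
    apply Finset.sum_le_sum
    intro i _
    exact_mod_cast cst_vpow φ T (F i)
  have h3 : (∑ k, (cst ((fun k => φ (F (e.symm k).1) (e.symm k).2.1 (e.symm k).2.2) k) T : ℝ)) =
      ∑ i, ∑ a, ∑ b, (cst (φ (F i) a b) T : ℝ) := by
    rw [← Equiv.sum_comp e]
    simp only [Equiv.symm_apply_apply]
    rw [Fintype.sum_prod_type]
    apply Finset.sum_congr rfl
    intro i _
    rw [Fintype.sum_prod_type]
  rw [h3]
  have h4 : (1 : ℝ) ≤ m := by exact_mod_cast hm
  have h5 := J_nonneg (K := K) F ((m : ℝ) ^ 2 * lam)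
  push_cast at h1
  have h6 : J K F ((m : ℝ) ^ 2 * lam) * finrank K T ≤
      J K F ((m : ℝ) ^ 2 * lam) * (m * finrank K T) := by
    apply mul_le_mul_of_nonneg_left _ h5
    nlinarith
  linarith

end Pool.Agent.Helper7.G3
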