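import Pool.Agent.Helper7.G3.Final
import Pool.Agent.Helper7.G3.Main2
import Pool.Agent.Helper7.G3.Matrix

/-!
# Division subalgebras `D` such that `Q` embeds into `M_m(D)`
-/

open Module Filter

universe u v w

namespace Pool.Agent.Helper7.G3

open Pool.Agent.Helper41.CT Pool.Agent.Helper7.DivSub

/-- The `K`-algebra structure of a division subalgebra. -/
@[reducible] def algD {K : Type v} {Q : Type u} [Field K] [DivisionRing Q] [Algebra K Q]
    (D : Subfield Q) (hK : ∀ k : K, algebraMap K Q k ∈ D) : Algebra K D where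
  smul k d := ⟨algebraMap K Q k, hK k⟩ * d
  algebraMap :=
    { toFun := fun k => ⟨algebraMap K Q k, hK k⟩
      map_one' := Subtype.ext (map_one _)
      map_mul' := fun _ _ => Subtype.ext (map_mul _ _ _)
      map_zero' := Subtype.ext (map_zero _)
      map_add' := fun _ _ => Subtype.ext (map_add _ _ _) }
  commutes' k d := Subtype.ext (Algebra.commutes k (d : Q))
  smul_def' _ _ := rfl

/-- The theorem for a homomorphism `Q → M_m(D)`. -/
theorem finite_of_matrix {K A : Type*} {Q : Type u} [Field K] [Ring A] [Algebra K A]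
    [Algebra.FiniteType K A] [DivisionRing Q] [Algebra K Q] (ι : A →ₐ[K] Q)
    (hι : IsQuotientDivisionAlgebra ι) (hgk : lowerGKdim K A ≤ 3)
    (D : Subfield Q) {m : ℕ} (hm : 0 < m) (φ : Q →+* Matrix (Fin m) (Fin m) D)
    (hφ : ∀ (k : K) (i j : Fin m),
      ((φ (algebraMap K Q k) i j : D) : Q) = if i = j then algebraMap K Q k else 0) :
    Module.Finite D Q := by
  classical
  by_contra hinf
  have hK : ∀ k : K, algebraMap K Q k ∈ D := by
    intro k
    have h := hφ k ⟨0, hm⟩ ⟨0, hm⟩
    rw [if_pos rfl] at h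
    rw [← h]
    exact (φ (algebraMap K Q k) ⟨0, hm⟩ ⟨0, hm⟩).2
  letI : Algebra K D := algD D hK
  obtain ⟨V, hV, h1, hfrac, hle⟩ := exists_V_lower ι hι
  let s : D →ₐ[K] Q := { toRingHom := D.subtype, commutes' := fun _ => rfl }
  have hsm : ∀ (e : D) (x : Q), e • x = s e * x := fun _ _ => rfl
  haveI i1 : IsScalarTower K D Q := by
    refine ⟨fun a e x => ?_⟩
    have h : ((a • e : D) : Q) = algebraMap K Q a * (e : Q) := rfl
    rw [hsm, hsm]
    change ((a • e : D) : Q) * x = a • ((e : Q) * x)
    rw [h, Algebra.smul_def, mul_assoc]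
  haveI i2 : IsScalarTower D Q Q := by
    refine ⟨fun e x y => ?_⟩
    rw [smul_eq_mul, smul_eq_mul, hsm, hsm, mul_assoc]
  let ψ : Q →ₐ[K] Matrix (Fin m) (Fin m) D :=
    { toRingHom := φ
      commutes' := by
        intro k
        ext i j
        have h := hφ k i j
        rw [Matrix.algebraMap_matrix_apply]
        change ((φ (algebraMap K Q k) i j : D) : Q) = _
        rw [h]
        split_ifs
        · rfl
        · rfl }
  have hinfK : ¬ Module.Finite K Q := by
    intro h
    exact hinf (Module.Finite.of_restrictScalars_finite K D Q)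
  set b := Module.finBasis K V with hb
  set F : Fin (finrank K V) → Q := fun i => (b i : Q) with hF
  have hFV : ∀ i, F i ∈ V := fun i => (b i).2
  have hspan : Submodule.span K ((Finset.univ.image F : Finset Q) : Set Q) = V := by
    apply le_antisymm
    · rw [Submodule.span_le]
      intro x hx
      rw [Finset.coe_image, Finset.coe_univ, Set.image_univ] at hx
      obtain ⟨i, rfl⟩ := hx
      exact hFV i
    · intro x hx
      have h2 : (⟨x, hx⟩ : V) ∈ Submodule.span K (Set.range b) := by rw [b.span_eq]; trivial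
      have h3 : x ∈ (Submodule.span K (Set.range b)).map V.subtype := ⟨⟨x, hx⟩, h2, rfl⟩
      rw [Submodule.map_span] at h3
      refine Submodule.span_mono ?_ h3
      rintro _ ⟨_, ⟨i, rfl⟩, rfl⟩
      rw [Finset.coe_image, Finset.coe_univ, Set.image_univ]
      exact ⟨i, rfl⟩
  have hrange : ((Finset.univ.image F : Finset Q) : Set Q) = Set.range F := by
    rw [Finset.coe_image, Finset.coe_univ, Set.image_univ]
  have hgen : ∀ q : Q, ∃ k : ℕ, Cx K (Set.range F) k q := by
    intro q
    obtain ⟨n, a, ha, c, hc, _, rfl⟩ := hfrac q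
    obtain ⟨k, hk⟩ := exists_cx_pow (Finset.univ.image F) n a (by rw [hspan]; exact ha)
    obtain ⟨l, hl⟩ := exists_cx_pow (Finset.univ.image F) n c (by rw [hspan]; exact hc)
    rw [hrange] at hk hl
    exact ⟨l + k, hl.inv.mul hk⟩
  obtain ⟨r', F', hF'⟩ := J_matrix hm ψ F
  obtain ⟨a, ha⟩ := pow_unbounded_of_one_lt ((m : ℝ) ^ 2) (by norm_num : (1 : ℝ) < 4)
  have hm1 : (1 : ℝ) ≤ m := by exact_mod_cast hm
  refine main2 s hsm hinf hinfK V h1 hfrac F' F a ?_ hFV hgen
    (frequently_of_liminf (fun n => finrank K ↥(V ^ n)) (fun n => finrank_pow_pos h1 n)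
      (hle.trans hgk))
  intro lam hlam
  refine le_trans (J_anti F ?_ (mul_le_mul_of_nonneg_right ha.le (by linarith))) (hF' lam hlam)
  nlinarith [mul_self_nonneg ((m : ℝ) - 1)]

/-- Division subalgebras isomorphic to `Q`. -/
theorem finite_of_iso {K A : Type*} {Q : Type u} [Field K] [Ring A] [Algebra K A]
    [Algebra.FiniteType K A] [DivisionRing Q] [Algebra K Q] (ι : A →ₐ[K] Q)
    (hι : IsQuotientDivisionAlgebra ι) (hgk : lowerGKdim K A ≤ 3)
    (D : Subfield Q) (e : Q ≃+* D)
    (he : ∀ k : K, ((e (algebraMap K Q k) : D) : Q) = algebraMap K Q k) :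
    Module.Finite D Q := by
  refine finite_of_matrix ι hι hgk D one_pos
    ((Matrix.scalar (Fin 1) : D →+* Matrix (Fin 1) (Fin 1) D).comp (e : Q →+* D)) ?_
  intro k i j
  have hij : i = j := Subsingleton.elim i j
  subst hij
  rw [if_pos rfl]
  simpa using he k

open MulOpposite in
/-- The left multiplications of `Q`, written as matrices over `D` when `Q` is a right `D`-vector space
of finite dimension. -/
noncomputable def leftMat {Q : Type u} [DivisionRing Q] (D : Subfield Q) [Module Dᵐᵒᵖ Q]
    (hmod : ∀ (d : Dᵐᵒᵖ) (z : Q), d • z = z * (d.unop : Q)) {m : ℕ}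
    (b : Basis (Fin m) Dᵐᵒᵖ Q) : Q →+* Matrix (Fin m) (Fin m) D where
  toFun x := Matrix.of fun i j => (b.repr (x * b j) i).unop
  map_one' := by
    ext i j
    simp only [Matrix.of_apply, one_mul, Basis.repr_self, Matrix.one_apply, Finsupp.single_apply]
    by_cases h : j = i
    · simp [h]
    · rw [if_neg h, if_neg (fun h' => h h'.symm)]
      simp
  map_mul' x y := by
    ext i j
    simp only [Matrix.of_apply, Matrix.mul_apply]
    have h1 : y * b j = ∑ k, b.repr (y * b j) k • b k := (b.sum_repr _).symm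
    have h2 : x * y * b j = ∑ k, b.repr (y * b j) k • (x * b k) := by
      rw [mul_assoc]
      conv_lhs => rw [h1, Finset.mul_sum]
      apply Finset.sum_congr rfl
      intro k _
      rw [hmod, hmod, mul_assoc]
    rw [h2, map_sum, Finsupp.finsetSum_apply, Finset.unop_sum]
    congr 1
    apply Finset.sum_congr rfl
    intro k _
    rw [map_smul, Finsupp.smul_apply, smul_eq_mul, unop_mul]
  map_zero' := by
    ext i j
    simp
  map_add' x y := by
    ext i j
    simp [add_mul]

/-- Division subalgebras of finite right index. -/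
theorem finite_of_right {K A : Type*} {Q : Type u} [Field K] [Ring A] [Algebra K A]
    [Algebra.FiniteType K A] [DivisionRing Q] [Algebra K Q] (ι : A →ₐ[K] Q)
    (hι : IsQuotientDivisionAlgebra ι) (hgk : lowerGKdim K A ≤ 3)
    (D : Subfield Q) (hK : ∀ k : K, algebraMap K Q k ∈ D)
    (hr : ∃ S : Finset Q, ∀ x : Q, ∃ d : Q → D, x = ∑ s ∈ S, s * d s) :
    Module.Finite D Q := by
  classical
  letI : Module Dᵐᵒᵖ Q := Module.compHom Q (RingHom.op D.subtype : Dᵐᵒᵖ →+* Qᵐᵒᵖ)
  have hmod : ∀ (d : Dᵐᵒᵖ) (z : Q), d • z = z * (d.unop : Q) := fun _ _ => rfl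
  haveI hfin : Module.Finite Dᵐᵒᵖ Q := by
    obtain ⟨S, hS⟩ := hr
    refine ⟨⟨S, ?_⟩⟩
    rw [eq_top_iff]
    intro x _
    obtain ⟨d, hd⟩ := hS x
    rw [hd]
    refine Submodule.sum_mem _ fun s hs => ?_
    have h := (Submodule.span Dᵐᵒᵖ (S : Set Q)).smul_mem (MulOpposite.op (d s))
      (Submodule.subset_span hs)
    exact h
  set b := Module.finBasis Dᵐᵒᵖ Q with hb
  have hm : 0 < finrank Dᵐᵒᵖ Q := Module.finrank_pos
  refine finite_of_matrix ι hι hgk D hm (leftMat D hmod b) ?_
  intro k i j
  have h1 : algebraMap K Q k * b j = (MulOpposite.op (⟨algebraMap K Q k, hK k⟩ : D)) • b j := by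
    rw [hmod]
    exact Algebra.commutes k (b j)
  change (((b.repr (algebraMap K Q k * b j) i).unop : D) : Q) = _
  rw [h1, map_smul, Finsupp.smul_apply, Basis.repr_self, Finsupp.single_apply]
  by_cases h : j = i
  · subst h
    simp
  · rw [if_neg h, if_neg (fun h' => h h'.symm)]
    simp

end Pool.Agent.Helper7.G3
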