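import Mathlib
/-!
# From the growth of `A` to the profile function

PROOF.  Given `δ > 0` (we may assume `δ ≤ 1`) put `ε = δ / 8`.  Let `N` be large with
`g N ≤ N ^ (3 + ε)` and put `a = N / 4`, `b = N / 2` (natural division).  The sum of
`log (g (n+1) / g n)` over `a ≤ n < b` telescopes to `log (g b / g a) ≤ log (g N) ≤ 4 log N`, so some
`n` with `a ≤ n < b` has `log (g (n+1) / g n) ≤ 4 log N / (b - a) ≤ 20 log N / N =: x ≤ 1`, hence
`g (n+1) / g n - 1 ≤ exp x - 1 ≤ 2 x`, and `J (max 1 (g (2n) / (n+1))) ≤ 40 C log N / N`.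
Here `max 1 (g (2n) / (n+1)) ≤ 4 g N / N ≤ 4 N ^ (2 + ε)` (`2n ≤ N`, `n + 1 ≥ N / 4`).  Let `m` be
the least natural number with `4 N ^ (2 + ε) ≤ 4 ^ m`, so `4 ^ m < 16 N ^ (2 + ε)`,
`2 ^ m < 4 N ^ (1 + ε)`, and `m` tends to infinity with `N`.  Then
`J (4^m) ≤ 40 C log N / N ≤ (4 N ^ (1+ε)) ^ (-(1-δ)) ≤ 2 ^ (-(1-δ) m)` for large `N` because
`(1+ε)(1-δ) < 1`.
-/

set_option autoImplicit false

open Filter

namespace Pool.Agent.Helper7.G3

private theorem avg_step (g : ℕ → ℕ) (hg1 : ∀ n, 1 ≤ g n) (hmono : Monotone g) (N : ℕ)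
    (hN : 16 ≤ N) (ε : ℝ) (hε : ε ≤ 1) (hg : (g N : ℝ) ≤ (N : ℝ) ^ (3 + ε)) :
    ∃ n, N / 4 ≤ n ∧ n < N / 2 ∧
      Real.log (g (n + 1)) - Real.log (g n) ≤ 20 * Real.log N / N := by
  have hNr : (16 : ℝ) ≤ N := by exact_mod_cast hN
  have hN0 : (0 : ℝ) < N := by linarith
  have hlogN : 0 ≤ Real.log N := Real.log_nonneg (by linarith)
  have hab : N / 4 ≤ N / 2 := by omega
  have hsum : ∑ n ∈ Finset.Ico (N / 4) (N / 2), (Real.log (g (n + 1)) - Real.log (g n)) =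
      Real.log (g (N / 2)) - Real.log (g (N / 4)) :=
    Finset.sum_Ico_sub (fun n => Real.log (g n)) hab
  have h1 : Real.log (g (N / 2)) ≤ 4 * Real.log N := by
    have hle : (g (N / 2) : ℝ) ≤ g N := by exact_mod_cast hmono (Nat.div_le_self N 2)
    have hpos : (0 : ℝ) < g (N / 2) := by exact_mod_cast hg1 _
    calc Real.log (g (N / 2)) ≤ Real.log ((N : ℝ) ^ (3 + ε)) :=
          Real.log_le_log hpos (hle.trans hg)
      _ = (3 + ε) * Real.log N := Real.log_rpow hN0 _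
      _ ≤ 4 * Real.log N := by nlinarith
  have h2 : 0 ≤ Real.log (g (N / 4)) := Real.log_nonneg (by exact_mod_cast hg1 _)
  have hne : (Finset.Ico (N / 4) (N / 2)).Nonempty := by
    rw [Finset.nonempty_Ico]; omega
  have hcard : (N : ℝ) / 5 ≤ ((N / 2 - N / 4 : ℕ) : ℝ) := by
    have : N ≤ 5 * (N / 2 - N / 4) := by omega
    have h' : (N : ℝ) ≤ 5 * ((N / 2 - N / 4 : ℕ) : ℝ) := by exact_mod_cast this
    linarith
  obtain ⟨n, hn, hle⟩ := Finset.exists_le_of_sum_le hne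
    (f := fun n => Real.log (g (n + 1)) - Real.log (g n))
    (g := fun _ => 20 * Real.log N / N) (by
      rw [hsum, Finset.sum_const, Nat.card_Ico, nsmul_eq_mul]
      have hx : 0 ≤ 20 * Real.log N / N := by positivity
      have h3 : (N : ℝ) / 5 * (20 * Real.log N / N) ≤
          ((N / 2 - N / 4 : ℕ) : ℝ) * (20 * Real.log N / N) :=
        mul_le_mul_of_nonneg_right hcard hx
      have h4 : (N : ℝ) / 5 * (20 * Real.log N / N) = 4 * Real.log N := by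
        field_simp; ring
      linarith)
  rw [Finset.mem_Ico] at hn
  exact ⟨n, hn.1, hn.2, hle⟩

private theorem growth_aux (J : ℝ → ℝ) (hanti : ∀ a b : ℝ, 1 ≤ a → a ≤ b → J b ≤ J a) (C : ℝ)
    (hC : 0 ≤ C)
    (g : ℕ → ℕ) (hg1 : ∀ n, 1 ≤ g n) (hmono : Monotone g)
    (hub : ∀ ε : ℝ, 0 < ε → ∃ᶠ N : ℕ in atTop, (g N : ℝ) ≤ (N : ℝ) ^ (3 + ε))
    (h : ∀ n : ℕ, 1 ≤ n → J (max 1 ((g (2 * n) : ℝ) / (n + 1))) ≤
      C * (((g (n + 1) : ℝ) - g n) / g n)) (δ : ℝ) (hδ : 0 < δ) (hδ1 : δ ≤ 1) :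
    ∃ᶠ m : ℕ in atTop, J ((4 : ℝ) ^ m) ≤ (2 : ℝ) ^ (-((1 - δ) * (m : ℝ))) := by
  set ε : ℝ := δ / 8 with hεd
  have hε : 0 < ε := by positivity
  have hε1 : ε ≤ 1 := by rw [hεd]; linarith
  have hκ : 0 < 7 * δ / 8 := by positivity
  have hlo : ∀ c : ℝ, 0 < c → ∀ᶠ N : ℕ in atTop, Real.log N ≤ c * (N : ℝ) ^ (7 * δ / 8) := by
    intro c hc
    have h1 := (isLittleO_log_rpow_atTop hκ).bound hc
    have h2 := tendsto_natCast_atTop_atTop (R := ℝ)
    filter_upwards [h2.eventually h1, eventually_ge_atTop 1] with N hN hN1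
    have hN0 : (0 : ℝ) ≤ (N : ℝ) ^ (7 * δ / 8) := by positivity
    rw [Real.norm_eq_abs, Real.norm_eq_abs, abs_of_nonneg hN0] at hN
    exact (le_abs_self _).trans hN
  have hlo1 : ∀ᶠ N : ℕ in atTop, 20 * Real.log N ≤ (N : ℝ) := by
    have h1 := (isLittleO_log_rpow_atTop (show (0:ℝ) < 1 by norm_num)).bound
      (show (0:ℝ) < 1 / 20 by norm_num)
    have h2 := tendsto_natCast_atTop_atTop (R := ℝ)
    filter_upwards [h2.eventually h1, eventually_ge_atTop 1] with N hN hN1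
    rw [Real.rpow_one, Real.norm_eq_abs, Real.norm_eq_abs,
      abs_of_nonneg (show (0:ℝ) ≤ (N : ℝ) from Nat.cast_nonneg N)] at hN
    have := (le_abs_self (Real.log N)).trans hN
    linarith
  have hbig := hlo (1 / (160 * (C + 1))) (by positivity)
  rw [Filter.frequently_atTop]
  intro M0
  have hfr := (hub ε hε).and_eventually
    (hbig.and (hlo1.and ((eventually_ge_atTop 16).and (eventually_ge_atTop (4 ^ M0)))))
  obtain ⟨N, hg, hE3, hE2, hN16, hN4⟩ := hfr.exists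
  have hNr : (16 : ℝ) ≤ N := by exact_mod_cast hN16
  have hN0 : (0 : ℝ) < N := by linarith
  have hN1 : (1 : ℝ) ≤ N := by linarith
  have hlogN : 0 ≤ Real.log N := Real.log_nonneg hN1
  obtain ⟨n, hna, hnb, hlog⟩ := avg_step g hg1 hmono N hN16 ε hε1 hg
  have hn1 : 1 ≤ n := by omega
  set x : ℝ := 20 * Real.log N / N with hx
  have hx0 : 0 ≤ x := by positivity
  have hx1 : x ≤ 1 := by
    rw [hx, div_le_one hN0]; exact hE2
  have hgn : (0 : ℝ) < g n := by exact_mod_cast hg1 n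
  have hgn1 : (0 : ℝ) < g (n + 1) := by exact_mod_cast hg1 (n + 1)
  have hratio : ((g (n + 1) : ℝ) - g n) / g n ≤ 2 * x := by
    have h1 : (g (n + 1) : ℝ) / g n ≤ Real.exp x := by
      rw [← Real.log_le_iff_le_exp (by positivity), Real.log_div hgn1.ne' hgn.ne']
      exact hlog
    have h2 := Real.abs_exp_sub_one_sub_id_le (x := x) (by rw [abs_of_nonneg hx0]; exact hx1)
    have h3 := (le_abs_self _).trans h2
    have h4 : x ^ 2 ≤ x := by nlinarith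
    rw [sub_div, div_self hgn.ne']
    linarith
  have hJ1 : J (max 1 ((g (2 * n) : ℝ) / (n + 1))) ≤ C * (2 * x) :=
    (h n hn1).trans (mul_le_mul_of_nonneg_left hratio hC)
  have hpow2 : (1 : ℝ) ≤ (N : ℝ) ^ (2 + ε) := Real.one_le_rpow hN1 (by linarith)
  have hmax : max 1 ((g (2 * n) : ℝ) / (n + 1)) ≤ 4 * (N : ℝ) ^ (2 + ε) := by
    refine max_le (by linarith) ?_
    have h1 : (g (2 * n) : ℝ) ≤ (N : ℝ) ^ (3 + ε) := by
      have : (g (2 * n) : ℝ) ≤ g N := by exact_mod_cast hmono (by omega)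
      exact this.trans hg
    have h2 : (N : ℝ) / 4 ≤ n + 1 := by
      have : N ≤ 4 * (n + 1) := by omega
      have h' : (N : ℝ) ≤ 4 * ((n : ℝ) + 1) := by exact_mod_cast this
      linarith
    have h3 : (N : ℝ) ^ (3 + ε) = (N : ℝ) ^ (2 + ε) * N := by
      rw [← Real.rpow_add_one hN0.ne']; congr 1; ring
    rw [div_le_iff₀ (by positivity)]
    calc (g (2 * n) : ℝ) ≤ (N : ℝ) ^ (2 + ε) * N := by rw [← h3]; exact h1
      _ = 4 * (N : ℝ) ^ (2 + ε) * (N / 4) := by ring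
      _ ≤ 4 * (N : ℝ) ^ (2 + ε) * (n + 1) := by
          apply mul_le_mul_of_nonneg_left h2 (by positivity)
  obtain ⟨m', hm1, hm2⟩ := exists_nat_pow_near (x := 4 * (N : ℝ) ^ (2 + ε)) (y := 4)
    (by linarith) (by norm_num)
  refine ⟨m' + 1, ?_, ?_⟩
  · have h1 : ((4 : ℝ)) ^ M0 < 4 ^ (m' + 1) := by
      calc (4 : ℝ) ^ M0 ≤ N := by exact_mod_cast hN4
        _ = (N : ℝ) ^ (1 : ℝ) := (Real.rpow_one _).symm
        _ ≤ (N : ℝ) ^ (2 + ε) := Real.rpow_le_rpow_of_exponent_le hN1 (by linarith)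
        _ ≤ 4 * (N : ℝ) ^ (2 + ε) := by linarith
        _ < 4 ^ (m' + 1) := hm2
    exact ((pow_lt_pow_iff_right₀ (by norm_num : (1 : ℝ) < 4)).mp h1).le
  · have hJ2 : J ((4 : ℝ) ^ (m' + 1)) ≤ C * (2 * x) :=
      (hanti _ _ (le_max_left _ _) (hmax.trans hm2.le)).trans hJ1
    have hbase : (2 : ℝ) ^ (m' + 1) ≤ 4 * (N : ℝ) ^ (1 + ε) := by
      have hsq : ((2 : ℝ) ^ (m' + 1)) ^ 2 ≤ (4 * (N : ℝ) ^ (1 + ε)) ^ 2 := by
        have e1 : ((2 : ℝ) ^ (m' + 1)) ^ 2 = 4 * 4 ^ m' := by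
          rw [← pow_mul, mul_comm, pow_mul]; norm_num; ring
        have e2 : (4 * (N : ℝ) ^ (1 + ε)) ^ 2 = 16 * (N : ℝ) ^ (2 + 2 * ε) := by
          rw [mul_pow, ← Real.rpow_natCast ((N : ℝ) ^ (1 + ε)) 2, ← Real.rpow_mul hN0.le]
          norm_num
          congr 1; ring
        rw [e1, e2]
        have e3 : (N : ℝ) ^ (2 + ε) ≤ (N : ℝ) ^ (2 + 2 * ε) :=
          Real.rpow_le_rpow_of_exponent_le hN1 (by linarith)
        linarith
      exact (pow_le_pow_iff_left₀ (by positivity) (by positivity) two_ne_zero).mp hsq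
    have hfin : C * (2 * x) ≤ (4 * (N : ℝ) ^ (1 + ε)) ^ (-(1 - δ)) := by
      have hpos : (0 : ℝ) < 4 * (N : ℝ) ^ (1 + ε) := by positivity
      rw [Real.rpow_neg hpos.le, ← one_div, le_div_iff₀ (by positivity)]
      have e1 : (4 * (N : ℝ) ^ (1 + ε)) ^ (1 - δ) ≤ 4 * (N : ℝ) ^ (1 - 7 * δ / 8) := by
        rw [Real.mul_rpow (by norm_num) (by positivity), ← Real.rpow_mul hN0.le]
        have a1 : (4 : ℝ) ^ (1 - δ) ≤ 4 := by
          calc (4 : ℝ) ^ (1 - δ) ≤ (4 : ℝ) ^ (1 : ℝ) :=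
                Real.rpow_le_rpow_of_exponent_le (by norm_num) (by linarith)
            _ = 4 := Real.rpow_one _
        have a2 : (N : ℝ) ^ ((1 + ε) * (1 - δ)) ≤ (N : ℝ) ^ (1 - 7 * δ / 8) := by
          apply Real.rpow_le_rpow_of_exponent_le hN1
          rw [hεd]; nlinarith
        exact mul_le_mul a1 a2 (by positivity) (by norm_num)
      have e2 : (N : ℝ) ^ (1 - 7 * δ / 8) = N / (N : ℝ) ^ (7 * δ / 8) := by
        rw [Real.rpow_sub hN0, Real.rpow_one]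
      have hP : (0 : ℝ) < (N : ℝ) ^ (7 * δ / 8) := by positivity
      calc C * (2 * x) * (4 * (N : ℝ) ^ (1 + ε)) ^ (1 - δ)
          ≤ C * (2 * x) * (4 * (N / (N : ℝ) ^ (7 * δ / 8))) := by
            rw [← e2]; exact mul_le_mul_of_nonneg_left e1 (by positivity)
        _ = 160 * C * Real.log N / (N : ℝ) ^ (7 * δ / 8) := by
            rw [hx]; field_simp; ring
        _ ≤ 1 := by
            rw [div_le_one hP]
            have e4 : 160 * (C + 1) * Real.log N ≤ (N : ℝ) ^ (7 * δ / 8) := by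
              have := mul_le_mul_of_nonneg_left hE3 (show (0:ℝ) ≤ 160 * (C + 1) by positivity)
              calc 160 * (C + 1) * Real.log N
                  ≤ 160 * (C + 1) * (1 / (160 * (C + 1)) * (N : ℝ) ^ (7 * δ / 8)) := this
                _ = (N : ℝ) ^ (7 * δ / 8) := by field_simp
            nlinarith
    have hlast : (4 * (N : ℝ) ^ (1 + ε)) ^ (-(1 - δ)) ≤
        (2 : ℝ) ^ (-((1 - δ) * ((m' + 1 : ℕ) : ℝ))) := by
      have e1 : (2 : ℝ) ^ (-((1 - δ) * ((m' + 1 : ℕ) : ℝ))) =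
          ((2 : ℝ) ^ (m' + 1)) ^ (-(1 - δ)) := by
        rw [← Real.rpow_natCast (2 : ℝ) (m' + 1), ← Real.rpow_mul (by norm_num)]
        congr 1; ring
      rw [e1]
      exact Real.rpow_le_rpow_of_nonpos (by positivity) hbase (by linarith)
    exact hJ2.trans (hfin.trans hlast)

theorem growth_J (J : ℝ → ℝ) (hanti : ∀ a b : ℝ, 1 ≤ a → a ≤ b → J b ≤ J a) (C : ℝ) (hC : 0 ≤ C)
    (g : ℕ → ℕ) (hg1 : ∀ n, 1 ≤ g n) (hmono : Monotone g)
    (hub : ∀ ε : ℝ, 0 < ε → ∃ᶠ N : ℕ in atTop, (g N : ℝ) ≤ (N : ℝ) ^ (3 + ε))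
    (h : ∀ n : ℕ, 1 ≤ n → J (max 1 ((g (2 * n) : ℝ) / (n + 1))) ≤
      C * (((g (n + 1) : ℝ) - g n) / g n)) :
    ∀ δ : ℝ, 0 < δ → ∃ᶠ m : ℕ in atTop, J ((4 : ℝ) ^ m) ≤ (2 : ℝ) ^ (-((1 - δ) * (m : ℝ))) := by
  intro δ hδ
  have h1 := growth_aux J hanti C hC g hg1 hmono hub h (min δ 1) (lt_min hδ one_pos)
    (min_le_right _ _)
  refine h1.mono ?_
  intro m hm
  refine hm.trans ?_
  apply Real.rpow_le_rpow_of_exponent_le (by norm_num)
  have : min δ 1 ≤ δ := min_le_left _ _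
  have hm0 : (0 : ℝ) ≤ m := Nat.cast_nonneg m
  nlinarith

end Pool.Agent.Helper7.G3
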