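import Pool.Agent.Helper7.G3.Basic

/-!
# Superadditivity of the cost along a filtration

PROOFS.  `finrank_ker_map`: rank-nullity for the restriction of `p` to `A`
(`LinearMap.finrank_range_add_finrank_ker` for `(p.restrictScalars K).domRestrict A`).
`cst_super`: put `A = tr x T ⊔ T`.  Then `tr x (cap T (ker p)) ⊔ cap T (ker p) ≤ cap A (ker p)` and
`A.map p = tr x (T.map p) ⊔ T.map p`; apply `finrank_ker_map` to `A` and to `T`.
`exists_proj`: `Submodule.exists_isCompl` over the division ring `E`, projection along `X` onto a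
complement.
`slope_map`: let `R` be finite over `E`, `R' = R ⊓ range p` and `Y = X ⊔ R'`.  Since `p` is
idempotent with kernel `X`, `X ⊓ R' = ⊥`, so `finrank Y = finrank X + finrank R'`.  If `y = p t`
lies in `R`, `t ∈ T`, then `t = (t - p t) + p t ∈ Y`.  So `p` maps `cap T Y` onto a space containing
`cap (T.map p) R`, and the kernel of `p` on `cap T Y` is `cap T X`; hence
`finrank (cap (T.map p) R) ≤ finrank (cap T Y) - finrank (cap T X) ≤ lam * finrank R'`.
-/

open Module

namespace Pool.Agent.Helper7.G3

variable {K E M : Type*} [Field K] [DivisionRing E] [Algebra K E] [AddCommGroup M] [Module K M]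
  [Module E M] [IsScalarTower K E M]

/-- The image of a `K`-subspace under an `E`-linear map. -/
def im (p : M →ₗ[E] M) (T : Submodule K M) : Submodule K M := T.map (p.restrictScalars K)

lemma finrank_ker_map (p : M →ₗ[E] M) (A : Submodule K M) [FiniteDimensional K A] :
    finrank K A = finrank K ↥(cap A (LinearMap.ker p)) + finrank K ↥(im p A) := by
  have h := LinearMap.finrank_range_add_finrank_ker ((p.restrictScalars K).domRestrict A)
  have h1 : LinearMap.range ((p.restrictScalars K).domRestrict A) = im p A := by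
    unfold im
    rw [LinearMap.range_domRestrict]
  have h2 : finrank K ↥(LinearMap.ker ((p.restrictScalars K).domRestrict A)) =
      finrank K ↥(cap A (LinearMap.ker p)) := by
    have h3 : (LinearMap.ker ((p.restrictScalars K).domRestrict A)).map A.subtype =
        cap A (LinearMap.ker p) := by
      ext x
      rw [mem_cap, Submodule.mem_map]
      constructor
      · rintro ⟨y, hy, rfl⟩
        exact ⟨y.2, hy⟩
      · rintro ⟨hx, hk⟩
        exact ⟨⟨x, hx⟩, hk, rfl⟩
    rw [← h3]
    exact (LinearEquiv.finrank_eq (Submodule.equivMapOfInjective A.subtype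
      (Submodule.injective_subtype A) _))
  rw [← h, h1, h2, add_comm]

lemma cst_super (p : M →ₗ[E] M) (x : E) (T : Submodule K M) [FiniteDimensional K T] :
    cst x (cap T (LinearMap.ker p)) + cst x (im p T) ≤ cst x T := by
  have hfd : FiniteDimensional K ↥(tr x T) := by
    unfold tr; infer_instance
  have hA : FiniteDimensional K ↥(tr x T ⊔ T) := inferInstance
  have e1 := finrank_ker_map p (tr x T ⊔ T)
  have e2 := finrank_ker_map p T
  have hle : tr x (cap T (LinearMap.ker p)) ⊔ cap T (LinearMap.ker p) ≤
      cap (tr x T ⊔ T) (LinearMap.ker p) := by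
    apply sup_le
    · intro y hy
      unfold tr at hy
      rw [Submodule.mem_map] at hy
      obtain ⟨z, hz, rfl⟩ := hy
      rw [mem_cap] at hz
      rw [mem_cap]
      constructor
      · exact Submodule.mem_sup_left (Submodule.mem_map_of_mem hz.1)
      · rw [Algebra.lsmul_coe]
        exact Submodule.smul_mem _ _ hz.2
    · intro y hy
      rw [mem_cap] at hy ⊢
      exact ⟨Submodule.mem_sup_right hy.1, hy.2⟩
  have him : im p (tr x T ⊔ T) = tr x (im p T) ⊔ im p T := by
    unfold im tr
    rw [Submodule.map_sup]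
    congr 1
    rw [← Submodule.map_comp, ← Submodule.map_comp]
    congr 1
    ext y
    simp
  have : FiniteDimensional K ↥(cap (tr x T ⊔ T) (LinearMap.ker p)) := by
    unfold cap; exact Submodule.finiteDimensional_inf_left _ _
  have hfin := Submodule.finrank_mono hle
  rw [him] at e1
  have h1 : finrank K ↥(cap T (LinearMap.ker p)) ≤
      finrank K ↥(tr x (cap T (LinearMap.ker p)) ⊔ cap T (LinearMap.ker p)) := by
    have : FiniteDimensional K ↥(tr x (cap T (LinearMap.ker p)) ⊔ cap T (LinearMap.ker p)) :=
      Submodule.finiteDimensional_of_le hle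
    exact Submodule.finrank_mono le_sup_right
  have : FiniteDimensional K ↥(im p T) := by unfold im; infer_instance
  have : FiniteDimensional K ↥(tr x (im p T)) := by unfold tr; infer_instance
  have h2 : finrank K ↥(im p T) ≤ finrank K ↥(tr x (im p T) ⊔ im p T) :=
    Submodule.finrank_mono le_sup_right
  unfold cst
  omega

omit [Algebra K E] [Module K M] [IsScalarTower K E M] in
lemma exists_proj (X : Submodule E M) :
    ∃ p : M →ₗ[E] M, LinearMap.ker p = X ∧ ∀ x, p (p x) = p x := by
  obtain ⟨Y, hY⟩ := Submodule.exists_isCompl X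
  refine ⟨Y.subtype ∘ₗ Submodule.projectionOnto Y X hY.symm, ?_, ?_⟩
  · rw [LinearMap.ker_comp, Submodule.ker_subtype, Submodule.comap_bot]
    exact Submodule.ker_projectionOnto hY.symm
  · intro x
    rw [LinearMap.comp_apply, LinearMap.comp_apply]
    have h := Submodule.projectionOnto_apply_left hY.symm (Submodule.projectionOnto Y X hY.symm x)
    exact congrArg Y.subtype h

lemma Slope.mono {T T' : Submodule K M} [FiniteDimensional K T] {lam lam' : ℝ}
    (h : Slope E T lam) (hT : T' ≤ T) (hl : lam ≤ lam') : Slope E T' lam' := by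
  intro R hR
  have h1 := h R hR
  have h2 : cap T' R ≤ cap T R := inf_le_inf_right _ hT
  have : FiniteDimensional K ↥(cap T R) := by
    unfold cap; exact Submodule.finiteDimensional_inf_left _ _
  have h3 : finrank K ↥(cap T' R) ≤ finrank K ↥(cap T R) := Submodule.finrank_mono h2
  have h4 : (finrank K ↥(cap T' R) : ℝ) ≤ finrank K ↥(cap T R) := by exact_mod_cast h3
  have h5 : lam * (finrank E R : ℝ) ≤ lam' * (finrank E R : ℝ) :=
    mul_le_mul_of_nonneg_right hl (Nat.cast_nonneg _)
  linarith

lemma slope_map (T : Submodule K M) [FiniteDimensional K T] (X : Submodule E M)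
    [Module.Finite E X] (p : M →ₗ[E] M) (hp : LinearMap.ker p = X) (hpp : ∀ x, p (p x) = p x)
    (lam : ℝ) (hlam : 0 ≤ lam)
    (hmax : ∀ Y : Submodule E M, X ≤ Y → Module.Finite E Y →
      (finrank K ↥(cap T Y) : ℝ) - finrank K ↥(cap T X) ≤ lam * (finrank E Y - finrank E X)) :
    Slope E (im p T) lam := by
  intro R hR
  set R' : Submodule E M := R ⊓ LinearMap.range p with hR'
  have : Module.Finite E R' := Submodule.finiteDimensional_inf_left _ _
  have hdisj : X ⊓ R' = ⊥ := by
    rw [eq_bot_iff]
    intro y hy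
    obtain ⟨hyX, hyR⟩ := Submodule.mem_inf.1 hy
    obtain ⟨_, z, rfl⟩ := Submodule.mem_inf.1 hyR
    rw [← hp, LinearMap.mem_ker, hpp] at hyX
    rw [Submodule.mem_bot]
    exact hyX
  have hdim := Submodule.finrank_sup_add_finrank_inf_eq X R'
  rw [hdisj, finrank_bot, add_zero] at hdim
  have hm := hmax (X ⊔ R') le_sup_left inferInstance
  -- rank nullity on cap T (X ⊔ R')
  have : FiniteDimensional K ↥(cap T (X ⊔ R')) := by
    unfold cap; exact Submodule.finiteDimensional_inf_left _ _
  have hrn := finrank_ker_map p (cap T (X ⊔ R'))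
  have hker : cap (cap T (X ⊔ R')) (LinearMap.ker p) = cap T X := by
    ext y
    rw [mem_cap, mem_cap, mem_cap, hp]
    constructor
    · rintro ⟨⟨h1, _⟩, h3⟩
      exact ⟨h1, h3⟩
    · rintro ⟨h1, h2⟩
      exact ⟨⟨h1, Submodule.mem_sup_left h2⟩, h2⟩
  rw [hker] at hrn
  have hsub : cap (im p T) R ≤ im p (cap T (X ⊔ R')) := by
    intro y hy
    rw [mem_cap] at hy
    obtain ⟨hy1, hy2⟩ := hy
    unfold im at hy1 ⊢
    rw [Submodule.mem_map] at hy1 ⊢
    obtain ⟨t, ht, hty⟩ := hy1
    have hty' : p t = y := hty
    refine ⟨t, ?_, hty⟩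
    rw [mem_cap]
    refine ⟨ht, ?_⟩
    have : t = (t - p t) + p t := by abel
    rw [this]
    apply Submodule.add_mem
    · apply Submodule.mem_sup_left
      rw [← hp, LinearMap.mem_ker, map_sub, hpp, sub_self]
    · apply Submodule.mem_sup_right
      rw [hR', Submodule.mem_inf]
      exact ⟨hty'.symm ▸ hy2, ⟨t, rfl⟩⟩
  have : FiniteDimensional K ↥(im p (cap T (X ⊔ R'))) := by unfold im; infer_instance
  have h6 := Submodule.finrank_mono hsub
  have h7 : finrank E R' ≤ finrank E R := Submodule.finrank_mono inf_le_left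
  -- lam may be negative? handle
  have h8 : (finrank K ↥(cap T (X ⊔ R')) : ℝ) = finrank K ↥(cap T X) +
      finrank K ↥(im p (cap T (X ⊔ R'))) := by exact_mod_cast hrn
  have h9 : (finrank K ↥(cap (im p T) R) : ℝ) ≤ finrank K ↥(im p (cap T (X ⊔ R'))) := by
    exact_mod_cast h6
  have h10 : (finrank E ↥(X ⊔ R') : ℝ) = finrank E X + finrank E R' := by exact_mod_cast hdim
  rw [h10] at hm
  have h11 : (finrank K ↥(cap (im p T) R) : ℝ) ≤ lam * (finrank E R' : ℝ) := by
    have : lam * ((finrank E X : ℝ) + finrank E R' - finrank E X) = lam * (finrank E R' : ℝ) := by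
      ring
    rw [this] at hm
    linarith
  have : lam * (finrank E R' : ℝ) ≤ lam * (finrank E R : ℝ) :=
    mul_le_mul_of_nonneg_left (by exact_mod_cast h7) hlam
  linarith

end Pool.Agent.Helper7.G3
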