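import Pool.Agent.Helper7.G3.Nest
import Pool.Agent.Helper7.G3.Super

/-!
# The filtration of `T` by slopes

PROOF.  `X 0` is a maximiser of `dim (T ∩ X) - lam 0 * rank X` over `X ≥ ⊥`, `X (i+1)` a maximiser
of `dim (T ∩ X) - lam (i+1) * rank X` over `X ≥ X i` (`exists_max`, recursion).
(1), (2): compare with `⊥`, resp. with `X i`.
(3): let `p i` be an idempotent with kernel `X i` (`exists_proj`).  `p (i+1) (p i x) = p (i+1) x`
since `x - p i x ∈ X i ≤ X (i+1)`.  For `Y ≥ X i`: `dim (T ∩ Y) - dim (T ∩ X i) ≤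
lam i * (rank Y - rank (X i))` (as `Y ≥ X (i-1)`), so `slope_map` gives `Slope E (im (p i) T)
(lam i)`.  By `cst_super` with `p 0`: `c(T) ≥ c(cap T (X 0)) + c(im (p 0) T)`; with `p (i+1)` on
`im (p i) T`: `c(im (p i) T) ≥ c(cap (im (p i) T) (X (i+1))) + c(im (p (i+1)) T)` because
`im (p (i+1)) (im (p i) T) = im (p (i+1)) T`; here `dim (cap (im (p i) T) (X (i+1))) =
dim (cap T (X (i+1))) - dim (cap T (X i))` (apply `finrank_ker_map` to `T` with `p i` and with
`p (i+1)`, and to `im (p i) T` with `p (i+1)`), and `dim (im (p n) T) = dim T - dim (cap T (X n))`.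
Use `hJ` for each piece (slopes at most `lam i` by `Slope.mono`).
-/

open Module

namespace Pool.Agent.Helper7.G3

variable {K E M : Type*} [Field K] [DivisionRing E] [Algebra K E] [AddCommGroup M] [Module K M]
  [Module E M] [IsScalarTower K E M]

theorem law (T : Submodule K M) [FiniteDimensional K T] (lam : ℕ → ℝ) (hpos : ∀ i, 0 < lam i)
    (hT : Slope E T (lam 0)) :
    ∃ X : ℕ → Submodule E M, (∀ i, Module.Finite E (X i)) ∧ (∀ i, X i ≤ X (i + 1)) ∧
      lam 0 * finrank E (X 0) ≤ finrank K ↥(cap T (X 0)) ∧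
      (∀ i, lam (i + 1) * ((finrank E (X (i + 1)) : ℝ) - finrank E (X i)) ≤
        (finrank K ↥(cap T (X (i + 1))) : ℝ) - finrank K ↥(cap T (X i))) ∧
      (∀ (r : ℕ) (F : Fin r → E) (J : ℕ → ℝ),
        (∀ i, ∀ T' : Submodule K M, FiniteDimensional K T' → Slope E T' (lam i) →
          J i * finrank K T' ≤ ∑ f, (cst (F f) T' : ℝ)) →
        ∀ n : ℕ, J 0 * finrank K ↥(cap T (X 0)) +
          (∑ i ∈ Finset.range n, J i *
            ((finrank K ↥(cap T (X (i + 1))) : ℝ) - finrank K ↥(cap T (X i)))) +
          J n * ((finrank K T : ℝ) - finrank K ↥(cap T (X n))) ≤ ∑ f, (cst (F f) T : ℝ)) := by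
  classical
  have hex := fun (i : ℕ) (Y : {Y : Submodule E M // Module.Finite E Y}) =>
    exists_max T (lam i) (hpos i) Y.1 Y.2
  choose g hg1 hg2 hg3 using hex
  let start : {Y : Submodule E M // Module.Finite E Y} := ⟨⊥, inferInstance⟩
  let Z : ℕ → {Y : Submodule E M // Module.Finite E Y} := fun n =>
    Nat.rec ⟨g 0 start, hg2 0 start⟩ (fun i Y => ⟨g (i + 1) Y, hg2 (i + 1) Y⟩) n
  have hZ0 : (Z 0).1 = g 0 start := rfl
  have hZs : ∀ i, (Z (i + 1)).1 = g (i + 1) (Z i) := fun i => rfl
  have hle : ∀ i, (Z i).1 ≤ (Z (i + 1)).1 := fun i => by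
    rw [hZs]
    exact hg1 (i + 1) (Z i)
  have hmax : ∀ i, ∀ Y : Submodule E M, (Z i).1 ≤ Y → Module.Finite E Y →
      (finrank K ↥(cap T Y) : ℝ) - finrank K ↥(cap T (Z i).1) ≤
        lam i * (finrank E Y - finrank E (Z i).1) := by
    intro i Y hY hYf
    cases i with
    | zero =>
      have h1 := hg3 0 start Y bot_le hYf
      rw [← hZ0] at h1
      linarith
    | succ i =>
      have h1 := hg3 (i + 1) (Z i) Y ((hle i).trans hY) hYf
      rw [← hZs] at h1
      linarith
  have fdim : ∀ (p : M →ₗ[E] M) (T' : Submodule K M), FiniteDimensional K T' →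
      FiniteDimensional K ↥(im p T') := fun p T' h =>
    inferInstanceAs (FiniteDimensional K ↥(T'.map (p.restrictScalars K)))
  have fdcap : ∀ (T' : Submodule K M) (Y : Submodule E M), FiniteDimensional K T' →
      FiniteDimensional K ↥(cap T' Y) := fun T' Y h =>
    Submodule.finiteDimensional_of_le inf_le_left
  refine ⟨fun i => (Z i).1, fun i => (Z i).2, hle, ?_, ?_, ?_⟩
  · have h1 := hg3 0 start ⊥ le_rfl inferInstance
    rw [← hZ0, finrank_bot, Nat.cast_zero, mul_zero, sub_zero] at h1
    have h2 : (0 : ℝ) ≤ (finrank K ↥(cap T (⊥ : Submodule E M)) : ℝ) := Nat.cast_nonneg _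
    linarith
  · intro i
    have h1 := hg3 (i + 1) (Z i) (Z i).1 le_rfl (Z i).2
    rw [← hZs] at h1
    linarith
  · intro r F J hJ n
    choose p hp hpp using fun i => exists_proj (Z i).1
    have hslope : ∀ i, Slope E (im (p i) T) (lam i) := fun i =>
      haveI := (Z i).2
      slope_map T (Z i).1 (p i) (hp i) (hpp i) (lam i) (hpos i).le (hmax i)
    have hdim : ∀ i, (finrank K T : ℝ) = finrank K ↥(cap T (Z i).1) +
        finrank K ↥(im (p i) T) := by
      intro i
      have h1 := finrank_ker_map (p i) T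
      rw [hp i] at h1
      exact_mod_cast h1
    have himim : ∀ i, im (p (i + 1)) (im (p i) T) = im (p (i + 1)) T := by
      intro i
      have key : ∀ x, p (i + 1) (p i x) = p (i + 1) x := by
        intro x
        have h1 : x - p i x ∈ LinearMap.ker (p i) := by
          rw [LinearMap.mem_ker, map_sub, hpp, sub_self]
        rw [hp i] at h1
        have h2 : x - p i x ∈ LinearMap.ker (p (i + 1)) := by
          rw [hp (i + 1)]
          exact hle i h1
        rw [LinearMap.mem_ker, map_sub, sub_eq_zero] at h2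
        exact h2.symm
      unfold im
      rw [← Submodule.map_comp]
      congr 1
      ext x
      exact key x
    have hsuper : ∀ (q : M →ₗ[E] M) (T' : Submodule K M), FiniteDimensional K T' →
        (∑ f, (cst (F f) (cap T' (LinearMap.ker q)) : ℝ)) + ∑ f, (cst (F f) (im q T') : ℝ) ≤
          ∑ f, (cst (F f) T' : ℝ) := by
      intro q T' hT'
      rw [← Finset.sum_add_distrib]
      apply Finset.sum_le_sum
      intro f _
      have h1 := cst_super q (F f) T'
      exact_mod_cast h1
    have main : ∀ n : ℕ, J 0 * finrank K ↥(cap T (Z 0).1) +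
        (∑ i ∈ Finset.range n, J i *
          ((finrank K ↥(cap T (Z (i + 1)).1) : ℝ) - finrank K ↥(cap T (Z i).1))) +
        ∑ f, (cst (F f) (im (p n) T) : ℝ) ≤ ∑ f, (cst (F f) T : ℝ) := by
      intro n
      induction n with
      | zero =>
        have h1 := hsuper (p 0) T inferInstance
        rw [hp 0] at h1
        have h2 := hJ 0 (cap T (Z 0).1) (fdcap T _ inferInstance)
          (hT.mono inf_le_left le_rfl)
        rw [Finset.range_zero, Finset.sum_empty, add_zero]
        linarith
      | succ n ih =>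
        haveI hfd := fdim (p n) T inferInstance
        have h1 := hsuper (p (n + 1)) (im (p n) T) hfd
        rw [himim, hp (n + 1)] at h1
        have h2 := hJ n (cap (im (p n) T) (Z (n + 1)).1) (fdcap _ _ hfd)
          ((hslope n).mono inf_le_left le_rfl)
        have h3 := finrank_ker_map (p (n + 1)) (im (p n) T)
        rw [himim, hp (n + 1)] at h3
        have h4 : (finrank K ↥(im (p n) T) : ℝ) =
            finrank K ↥(cap (im (p n) T) (Z (n + 1)).1) + finrank K ↥(im (p (n + 1)) T) := by
          exact_mod_cast h3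
        have h5 := hdim n
        have h6 := hdim (n + 1)
        have h7 : (finrank K ↥(cap (im (p n) T) (Z (n + 1)).1) : ℝ) =
            finrank K ↥(cap T (Z (n + 1)).1) - finrank K ↥(cap T (Z n).1) := by
          linarith
        rw [h7] at h2
        rw [Finset.sum_range_succ]
        linarith
    have h1 := main n
    haveI hfd := fdim (p n) T inferInstance
    have h2 := hJ n (im (p n) T) hfd (hslope n)
    have h3 := hdim n
    have h4 : (finrank K ↥(im (p n) T) : ℝ) = finrank K T - finrank K ↥(cap T (Z n).1) := by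
      linarith
    rw [h4] at h2
    linarith

end Pool.Agent.Helper7.G3
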