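import Pool.Agent.Helper7.G3.Capture

/-!
# The profile function `J`

`J F lam` is the infimum of `(Σ cst (F i) T) / dim T` over all modules `M` (in the universe of `E`)
and all nonzero finite-dimensional `T ⊆ M` with all slopes at most `lam`.

PROOFS.  `ratio_nonempty`: `M = E`, `T = span {1}`: `dim (cap T R) ≤ 1`, and it is `0` if `R = ⊥`.
`J_le`: `csInf_le` (bounded below by `0`), multiply by `dim T > 0`; trivial for `T = ⊥`.
`exists_near`: `exists_lt_of_csInf_lt`.
`J_anti`: `csInf_le_csInf`, `Slope.mono`.
`J_pos`: let `m > lam` and `q_1..q_m ∈ E` linearly independent over `K` (`E` is infinite-dimensional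
over `K`), each `q_j` has complexity `k_j` over `S = range F`, so `cst (q_j) T ≤ k_j * c(T)` with
`c(T) = Σ cst (F i) T` (`cst_cx` with `b = c(T)`).  Put `B = 1 + Σ k_j`.  If `c(T) * B < dim T` then
`U = {x ∈ T : q_j x ∈ T for all j}` is nonzero (`stay` and intersections), take `x ∈ U`, `x ≠ 0`,
`R = span_E {x}`: rank `1`, and `cap T R` contains the `m` independent elements `q_j x`, so
`m ≤ lam`, a contradiction.  Hence every ratio is at least `1 / B`.
-/

open Module

universe u v

namespace Pool.Agent.Helper7.G3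

open Pool.Agent.Helper41.CT

/-- The set of ratios cost / dimension for subspaces with slopes at most `lam`. -/
def ratioSet {K : Type v} {E : Type u} [Field K] [DivisionRing E] [Algebra K E] {r : ℕ}
    (F : Fin r → E) (lam : ℝ) : Set ℝ :=
  {ρ | ∃ (M : Type u) (_ : AddCommGroup M) (_ : Module K M) (_ : Module E M)
    (_ : IsScalarTower K E M) (T : Submodule K M), FiniteDimensional K T ∧ T ≠ ⊥ ∧
      Slope E T lam ∧ ρ = (∑ i, (cst (F i) T : ℝ)) / finrank K T}

/-- The profile function. -/
noncomputable def J (K : Type v) {E : Type u} [Field K] [DivisionRing E] [Algebra K E] {r : ℕ}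
    (F : Fin r → E) (lam : ℝ) : ℝ := sInf (ratioSet (K := K) F lam)

section

variable {K : Type v} {E : Type u} [Field K] [DivisionRing E] [Algebra K E] {r : ℕ} (F : Fin r → E)

lemma slope_of_finrank_le_one {M : Type u} [AddCommGroup M] [Module K M] [Module E M]
    [IsScalarTower K E M] {T : Submodule K M} [FiniteDimensional K T] (hT : finrank K T ≤ 1)
    {lam : ℝ} (h : 1 ≤ lam) : Slope E T lam := by
  intro R hR
  by_cases hR0 : R = ⊥
  · subst hR0
    have h1 : cap T (⊥ : Submodule E M) = ⊥ := by
      rw [eq_bot_iff]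
      intro x hx
      rw [mem_cap] at hx
      exact hx.2
    rw [h1, finrank_bot, finrank_bot]
    simp
  · have h1 : 1 ≤ finrank E R := by
      have : Nontrivial R := Submodule.nontrivial_iff_ne_bot.2 hR0
      exact finrank_pos
    have h2 : finrank K ↥(cap T R) ≤ 1 := le_trans (Submodule.finrank_mono inf_le_left) hT
    have h3 : (finrank K ↥(cap T R) : ℝ) ≤ 1 := by exact_mod_cast h2
    have h4 : (1 : ℝ) ≤ finrank E R := by exact_mod_cast h1
    nlinarith

lemma ratio_nonempty {lam : ℝ} (h : 1 ≤ lam) : (ratioSet (K := K) F lam).Nonempty := by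
  have h1 : finrank K (Submodule.span K {(1 : E)}) ≤ 1 := (finrank_span_singleton one_ne_zero).le
  refine ⟨_, E, inferInstance, inferInstance, inferInstance, inferInstance,
    Submodule.span K {(1 : E)}, inferInstance, ?_, slope_of_finrank_le_one h1 h, rfl⟩
  rw [Ne, Submodule.span_singleton_eq_bot]
  exact one_ne_zero

lemma ratio_nonneg {lam ρ : ℝ} (h : ρ ∈ ratioSet (K := K) F lam) : 0 ≤ ρ := by
  obtain ⟨M, _, _, _, _, T, _, _, _, rfl⟩ := h
  positivity

lemma ratio_bdd (lam : ℝ) : BddBelow (ratioSet (K := K) F lam) :=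
  ⟨0, fun _ h => ratio_nonneg F h⟩

lemma J_nonneg (lam : ℝ) : 0 ≤ J K F lam :=
  Real.sInf_nonneg fun _ h => ratio_nonneg F h

lemma J_le {M : Type u} [AddCommGroup M] [Module K M] [Module E M] [IsScalarTower K E M]
    (T : Submodule K M) [FiniteDimensional K T] {lam : ℝ} (hT : Slope E T lam) :
    J K F lam * finrank K T ≤ ∑ i, (cst (F i) T : ℝ) := by
  have h0 : (0 : ℝ) ≤ ∑ i, (cst (F i) T : ℝ) := Finset.sum_nonneg fun _ _ => Nat.cast_nonneg _
  by_cases hT0 : T = ⊥
  · have h1 : finrank K T = 0 := by rw [hT0, finrank_bot]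
    rw [h1, Nat.cast_zero, mul_zero]
    exact h0
  · have h1 : 0 < finrank K T := by
      have : Nontrivial T := Submodule.nontrivial_iff_ne_bot.2 hT0
      exact finrank_pos
    have h2 : (0 : ℝ) < finrank K T := by exact_mod_cast h1
    have h3 : J K F lam ≤ (∑ i, (cst (F i) T : ℝ)) / finrank K T :=
      csInf_le (ratio_bdd F lam)
        ⟨M, inferInstance, inferInstance, inferInstance, inferInstance, T, inferInstance, hT0, hT,
          rfl⟩
    rwa [le_div_iff₀ h2] at h3

lemma exists_near {lam : ℝ} (h : 1 ≤ lam) (hJ : 0 < J K F lam) :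
    ∃ (M : Type u) (_ : AddCommGroup M) (_ : Module K M) (_ : Module E M)
      (_ : IsScalarTower K E M) (T : Submodule K M), FiniteDimensional K T ∧ T ≠ ⊥ ∧
      Slope E T lam ∧ (∑ i, (cst (F i) T : ℝ)) ≤ 2 * J K F lam * finrank K T := by
  have h1 : sInf (ratioSet (K := K) F lam) < 2 * J K F lam := by
    have : sInf (ratioSet (K := K) F lam) = J K F lam := rfl
    rw [this]
    linarith
  obtain ⟨ρ, hρ, hlt⟩ := exists_lt_of_csInf_lt (ratio_nonempty F h) h1
  obtain ⟨M, i1, i2, i3, i4, T, hT1, hT2, hT3, rfl⟩ := hρ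
  refine ⟨M, i1, i2, i3, i4, T, hT1, hT2, hT3, ?_⟩
  have h3 : 0 < finrank K T := by
    have : Nontrivial T := Submodule.nontrivial_iff_ne_bot.2 hT2
    exact finrank_pos
  have h2 : (0 : ℝ) < finrank K T := by exact_mod_cast h3
  rw [div_lt_iff₀ h2] at hlt
  exact hlt.le

lemma J_anti {lam lam' : ℝ} (h : 1 ≤ lam) (h' : lam ≤ lam') : J K F lam' ≤ J K F lam := by
  refine csInf_le_csInf (ratio_bdd F lam') (ratio_nonempty F h) ?_
  rintro ρ ⟨M, i1, i2, i3, i4, T, hT1, hT2, hT3, rfl⟩
  refine ⟨M, i1, i2, i3, i4, T, hT1, hT2, fun R hR => (hT3 R hR).trans ?_, rfl⟩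
  exact mul_le_mul_of_nonneg_right h' (Nat.cast_nonneg _)

/-- The elements of `T` which stay in `T` under finitely many elements. -/
lemma exists_stay {M : Type u} [AddCommGroup M] [Module K M] [Module E M] [IsScalarTower K E M]
    (T : Submodule K M) [FiniteDimensional K T] {m : ℕ} (q : Fin m → E) (s : Finset (Fin m)) :
    ∃ U : Submodule K M, U ≤ T ∧ (∀ x ∈ U, ∀ j ∈ s, q j • x ∈ T) ∧
      finrank K T ≤ finrank K U + ∑ j ∈ s, cst (q j) T := by
  classical
  induction s using Finset.induction_on with
  | empty => exact ⟨T, le_rfl, fun x _ j hj => absurd hj (Finset.notMem_empty j), by simp⟩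
  | insert j s hj ih =>
    obtain ⟨U, hU1, hU2, hU3⟩ := ih
    set V : Submodule K M := T ⊓ T.comap (Algebra.lsmul K K M (q j)) with hV
    refine ⟨U ⊓ V, inf_le_left.trans hU1, ?_, ?_⟩
    · rintro x ⟨hx1, hx2⟩ i hi
      rcases Finset.mem_insert.1 hi with h | h
      · rw [h]
        exact hx2.2
      · exact hU2 x hx1 i h
    · have h1 := stay (q j) T
      rw [← hV] at h1
      have : FiniteDimensional K U := Submodule.finiteDimensional_of_le hU1
      have : FiniteDimensional K V := Submodule.finiteDimensional_of_le inf_le_left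
      have h2 := Submodule.finrank_sup_add_finrank_inf_eq U V
      have h3 : finrank K ↥(U ⊔ V) ≤ finrank K T := Submodule.finrank_mono (sup_le hU1 inf_le_left)
      rw [Finset.sum_insert hj]
      omega

end

/-- `J` is positive if `E` is infinite-dimensional over `K` and rationally generated by `F`. -/
theorem J_pos {K : Type v} {E : Type u} [Field K] [DivisionRing E] [Algebra K E] {r : ℕ}
    (F : Fin r → E) (hinf : ¬ Module.Finite K E)
    (hgen : ∀ q : E, ∃ k : ℕ, Cx K (Set.range F) k q) (lam : ℝ) (hlam : 1 ≤ lam) :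
    0 < J K F lam := by
  classical
  obtain ⟨m, hm⟩ := exists_nat_gt lam
  have hrank : (m : Cardinal) ≤ Module.rank K E := by
    by_contra h
    have h1 : Module.rank K E < Cardinal.aleph0 := lt_trans (not_le.1 h) (Cardinal.natCast_lt_aleph0 )
    exact hinf (Module.rank_lt_aleph0_iff.1 h1)
  obtain ⟨q, hq⟩ := exists_linearIndependent_of_le_rank hrank
  choose k hk using fun j => hgen (q j)
  set B : ℕ := 1 + ∑ j, k j with hB
  have hBpos : (0 : ℝ) < B := by
    have : 0 < B := by omega
    exact_mod_cast this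
  have key : ∀ ρ ∈ ratioSet (K := K) F lam, 1 / (B : ℝ) ≤ ρ := by
    rintro ρ ⟨M, _, _, _, _, T, hT1, hT2, hT3, rfl⟩
    have hpos : 0 < finrank K T := by
      have : Nontrivial T := Submodule.nontrivial_iff_ne_bot.2 hT2
      exact finrank_pos
    set c : ℕ := ∑ i, cst (F i) T with hc
    have hcst : ∀ j, cst (q j) T ≤ k j * c := by
      intro j
      refine cst_cx (hk j) T ?_
      rintro _ ⟨i, rfl⟩
      exact Finset.single_le_sum (f := fun i => cst (F i) T) (fun _ _ => Nat.zero_le _)
        (Finset.mem_univ i)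
    have hmain : finrank K T ≤ c * B := by
      by_contra hcon
      have hcon := not_le.1 hcon
      obtain ⟨U, hU1, hU2, hU3⟩ := exists_stay T q Finset.univ
      have h1 : ∑ j, cst (q j) T ≤ c * ∑ j, k j := by
        rw [Finset.mul_sum]
        exact Finset.sum_le_sum fun j _ => by rw [mul_comm]; exact hcst j
      have h2 : 0 < finrank K U := by
        rw [hB, mul_add, mul_one] at hcon
        omega
      have hU0 : U ≠ ⊥ := by
        rintro rfl
        rw [finrank_bot] at h2
        exact absurd h2 (lt_irrefl 0)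
      obtain ⟨x, hxU, hx0⟩ := Submodule.exists_mem_ne_zero_of_ne_bot hU0
      have h3 := hT3 (Submodule.span E {x}) inferInstance
      rw [finrank_span_singleton hx0, Nat.cast_one, mul_one] at h3
      have hmem : ∀ j, q j • x ∈ cap T (Submodule.span E {x}) := fun j =>
        mem_cap.2 ⟨hU2 x hxU j (Finset.mem_univ j),
          Submodule.smul_mem _ _ (Submodule.mem_span_singleton_self x)⟩
      have : FiniteDimensional K ↥(cap T (Submodule.span E {x})) :=
        Submodule.finiteDimensional_of_le inf_le_left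
      have hli : LinearIndependent K
          (fun j => (⟨q j • x, hmem j⟩ : ↥(cap T (Submodule.span E {x})))) := by
        rw [Fintype.linearIndependent_iff] at hq ⊢
        intro g hg
        refine hq g ?_
        have h4 := congrArg Subtype.val hg
        rw [AddSubmonoidClass.coe_finsetSum] at h4
        have h5 : (∑ j, g j • q j) • x = 0 := by
          rw [Finset.sum_smul]
          refine Eq.trans (Finset.sum_congr rfl fun j _ => ?_) h4
          rw [smul_assoc]
          rfl
        rcases smul_eq_zero.1 h5 with h | h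
        · exact h
        · exact absurd h hx0
      have h6 := hli.fintype_card_le_finrank
      rw [Fintype.card_fin] at h6
      have h7 : (m : ℝ) ≤ finrank K ↥(cap T (Submodule.span E {x})) := by exact_mod_cast h6
      linarith
    have hpos' : (0 : ℝ) < finrank K T := by exact_mod_cast hpos
    rw [div_le_div_iff₀ hBpos hpos', one_mul]
    have h8 : (∑ i, (cst (F i) T : ℝ)) = (c : ℝ) := by rw [hc]; push_cast; rfl
    rw [h8]
    exact_mod_cast hmain
  have h9 : 1 / (B : ℝ) ≤ J K F lam := le_csInf (ratio_nonempty F hlam) key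
  have h10 : 0 < 1 / (B : ℝ) := by positivity
  linarith

end Pool.Agent.Helper7.G3
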