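import Mathlib

/-!
# Regular scales

PROOF.  Put `ψ m = 2 ^ m * j m > 0`.  Suppose that for every `m ≥ max m₀ k` there is `i ≤ k` with
`j (m - i) < 2 ^ i * j m / 2`, that is `ψ (m - i) < ψ m / 2` (so `i ≥ 1`).  Let `B = max m₀ k` and
`c > 0` a lower bound of `ψ` on `[0, B]`.  By strong induction `ψ m * 2 ^ 0 ≥ c * 2 ^ ((m - B) / k)`
in the form `ψ m ≥ c * 2 ^ (((m : ℝ) - B) / k)` for all `m`.  With `δ = 1 / (2 k)` there are
arbitrarily large `m` with `ψ m ≤ 2 ^ (δ m)`, a contradiction for large `m`.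
-/

open Filter

namespace Pool.Agent.Helper7.G3

theorem regular (j : ℕ → ℝ) (hpos : ∀ m, 0 < j m)
    (hub : ∀ δ : ℝ, 0 < δ → ∃ᶠ m : ℕ in atTop, j m ≤ (2 : ℝ) ^ (-((1 - δ) * (m : ℝ))))
    (k m₀ : ℕ) (hk : 1 ≤ k) :
    ∃ m : ℕ, m₀ ≤ m ∧ k ≤ m ∧ ∀ i : ℕ, i ≤ k → (2 : ℝ) ^ i * j m / 2 ≤ j (m - i) := by
  classical
  by_contra hcon
  push Not at hcon
  have hk0 : (0 : ℝ) < (k : ℝ) := by exact_mod_cast hk
  set B : ℕ := max m₀ k with hB
  obtain ⟨c, hc0, hc⟩ : ∃ c : ℝ, 0 < c ∧ ∀ m : ℕ, m ≤ B → c ≤ (2 : ℝ) ^ m * j m := by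
    have hne : (Finset.range (B + 1)).Nonempty := ⟨0, by simp⟩
    refine ⟨(Finset.range (B + 1)).inf' hne (fun m => (2 : ℝ) ^ m * j m), ?_, ?_⟩
    · rw [Finset.lt_inf'_iff]
      intro m _
      have := hpos m
      positivity
    · intro m hm
      exact Finset.inf'_le (fun m => (2 : ℝ) ^ m * j m) (Finset.mem_range.2 (by omega))
  have key : ∀ m : ℕ, c * (2 : ℝ) ^ (((m : ℝ) - (B : ℝ)) / (k : ℝ)) ≤ (2 : ℝ) ^ m * j m := by
    intro m
    induction m using Nat.strong_induction_on with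
    | _ m ih =>
      rcases le_or_gt m B with hmB | hmB
      · have h1 : (2 : ℝ) ^ (((m : ℝ) - (B : ℝ)) / (k : ℝ)) ≤ 1 := by
          apply Real.rpow_le_one_of_one_le_of_nonpos (by norm_num)
          apply div_nonpos_of_nonpos_of_nonneg _ hk0.le
          have : (m : ℝ) ≤ (B : ℝ) := by exact_mod_cast hmB
          linarith
        calc c * (2 : ℝ) ^ (((m : ℝ) - (B : ℝ)) / (k : ℝ)) ≤ c * 1 :=
              mul_le_mul_of_nonneg_left h1 hc0.le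
          _ = c := mul_one c
          _ ≤ (2 : ℝ) ^ m * j m := hc m hmB
      · have hm0 : m₀ ≤ m := le_trans (le_max_left _ _) hmB.le
        have hmk : k ≤ m := le_trans (le_max_right _ _) hmB.le
        obtain ⟨i, hik, hi⟩ := hcon m hm0 hmk
        have hi0 : i ≠ 0 := by
          rintro rfl
          have := hpos m
          simp at hi
          linarith
        have him : i ≤ m := le_trans hik hmk
        have hlt : m - i < m := by omega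
        have h2 := ih (m - i) hlt
        have h3 : (2 : ℝ) ^ (m - i) * j (m - i) < (2 : ℝ) ^ m * j m / 2 := by
          have h4 : (2 : ℝ) ^ (m - i) * j (m - i) < (2 : ℝ) ^ (m - i) * ((2 : ℝ) ^ i * j m / 2) :=
            mul_lt_mul_of_pos_left hi (by positivity)
          have h5 : (2 : ℝ) ^ (m - i) * (2 : ℝ) ^ i = (2 : ℝ) ^ m := by
            rw [← pow_add, Nat.sub_add_cancel him]
          calc (2 : ℝ) ^ (m - i) * j (m - i) < (2 : ℝ) ^ (m - i) * ((2 : ℝ) ^ i * j m / 2) := h4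
            _ = ((2 : ℝ) ^ (m - i) * (2 : ℝ) ^ i) * j m / 2 := by ring
            _ = (2 : ℝ) ^ m * j m / 2 := by rw [h5]
        have hcast : ((m - i : ℕ) : ℝ) = (m : ℝ) - (i : ℝ) := by
          rw [Nat.cast_sub him]
        have h6 : (2 : ℝ) ^ (((m : ℝ) - (B : ℝ)) / (k : ℝ)) ≤
            2 * (2 : ℝ) ^ ((((m - i : ℕ) : ℝ) - (B : ℝ)) / (k : ℝ)) := by
          have h7 : (2 : ℝ) * (2 : ℝ) ^ ((((m - i : ℕ) : ℝ) - (B : ℝ)) / (k : ℝ)) =
              (2 : ℝ) ^ (1 + (((m - i : ℕ) : ℝ) - (B : ℝ)) / (k : ℝ)) := by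
            rw [Real.rpow_add (by norm_num), Real.rpow_one]
          rw [h7]
          apply Real.rpow_le_rpow_of_exponent_le (by norm_num)
          rw [hcast]
          have hik' : (i : ℝ) ≤ (k : ℝ) := by exact_mod_cast hik
          have h8 : (1 : ℝ) + ((m : ℝ) - (i : ℝ) - (B : ℝ)) / (k : ℝ) =
              ((m : ℝ) - (B : ℝ)) / (k : ℝ) + ((k : ℝ) - (i : ℝ)) / (k : ℝ) := by
            field_simp
            ring
          rw [h8]
          have h9 : 0 ≤ ((k : ℝ) - (i : ℝ)) / (k : ℝ) := div_nonneg (by linarith) hk0.le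
          linarith
        calc c * (2 : ℝ) ^ (((m : ℝ) - (B : ℝ)) / (k : ℝ))
            ≤ c * (2 * (2 : ℝ) ^ ((((m - i : ℕ) : ℝ) - (B : ℝ)) / (k : ℝ))) :=
              mul_le_mul_of_nonneg_left h6 hc0.le
          _ = 2 * (c * (2 : ℝ) ^ ((((m - i : ℕ) : ℝ) - (B : ℝ)) / (k : ℝ))) := by ring
          _ ≤ (2 : ℝ) ^ m * j m := by linarith
  have hδ : (0 : ℝ) < 1 / (2 * (k : ℝ)) := by positivity
  have hfreq := hub (1 / (2 * (k : ℝ))) hδ
  -- the upper bound tends to zero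
  have hlim : Tendsto (fun m : ℕ => (2 : ℝ) ^ ((B : ℝ) / (k : ℝ)) *
      ((2 : ℝ) ^ (-(1 / (2 * (k : ℝ))))) ^ m) atTop (nhds 0) := by
    have h1 : Tendsto (fun m : ℕ => ((2 : ℝ) ^ (-(1 / (2 * (k : ℝ))))) ^ m) atTop (nhds 0) := by
      apply tendsto_pow_atTop_nhds_zero_of_lt_one
      · positivity
      · exact Real.rpow_lt_one_of_one_lt_of_neg (by norm_num) (by linarith)
    have h2 := h1.const_mul ((2 : ℝ) ^ ((B : ℝ) / (k : ℝ)))
    simpa using h2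
  have hev : ∀ᶠ m : ℕ in atTop, (2 : ℝ) ^ ((B : ℝ) / (k : ℝ)) *
      ((2 : ℝ) ^ (-(1 / (2 * (k : ℝ))))) ^ m < c := hlim.eventually (gt_mem_nhds hc0)
  obtain ⟨m, hm1, hm2⟩ := (hfreq.and_eventually hev).exists
  have h1 := key m
  have h2 : (2 : ℝ) ^ m * j m ≤ (2 : ℝ) ^ ((1 / (2 * (k : ℝ))) * (m : ℝ)) := by
    calc (2 : ℝ) ^ m * j m ≤ (2 : ℝ) ^ m * (2 : ℝ) ^ (-((1 - 1 / (2 * (k : ℝ))) * (m : ℝ))) :=
          mul_le_mul_of_nonneg_left hm1 (by positivity)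
      _ = (2 : ℝ) ^ ((1 / (2 * (k : ℝ))) * (m : ℝ)) := by
          rw [← Real.rpow_natCast, ← Real.rpow_add (by norm_num)]
          congr 1
          ring
  have h3 : c * (2 : ℝ) ^ (((m : ℝ) - (B : ℝ)) / (k : ℝ)) ≤
      (2 : ℝ) ^ ((1 / (2 * (k : ℝ))) * (m : ℝ)) := h1.trans h2
  have h4 : c ≤ (2 : ℝ) ^ ((1 / (2 * (k : ℝ))) * (m : ℝ)) *
      (2 : ℝ) ^ (-(((m : ℝ) - (B : ℝ)) / (k : ℝ))) := by
    have hp : 0 < (2 : ℝ) ^ (((m : ℝ) - (B : ℝ)) / (k : ℝ)) := by positivity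
    rw [Real.rpow_neg (by norm_num), ← div_eq_mul_inv, le_div_iff₀ hp]
    exact h3
  have h5 : (2 : ℝ) ^ ((1 / (2 * (k : ℝ))) * (m : ℝ)) *
      (2 : ℝ) ^ (-(((m : ℝ) - (B : ℝ)) / (k : ℝ))) =
      (2 : ℝ) ^ ((B : ℝ) / (k : ℝ)) * ((2 : ℝ) ^ (-(1 / (2 * (k : ℝ))))) ^ m := by
    rw [← Real.rpow_natCast ((2 : ℝ) ^ (-(1 / (2 * (k : ℝ))))) m,
      ← Real.rpow_mul (by norm_num), ← Real.rpow_add (by norm_num),
      ← Real.rpow_add (by norm_num)]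
    congr 1
    field_simp
    ring
  rw [h5] at h4
  linarith

/-- `j` takes arbitrarily small values and is antitone, hence tends to zero. -/
theorem small (j : ℕ → ℝ) (hanti : Antitone j)
    (hub : ∀ δ : ℝ, 0 < δ → ∃ᶠ m : ℕ in atTop, j m ≤ (2 : ℝ) ^ (-((1 - δ) * (m : ℝ))))
    (ε : ℝ) (hε : 0 < ε) : ∃ m₀ : ℕ, ∀ m : ℕ, m₀ ≤ m → j m ≤ ε := by
  have hlim : Tendsto (fun m : ℕ => ((2 : ℝ) ^ (-(1 / 2 : ℝ))) ^ m) atTop (nhds 0) := by
    apply tendsto_pow_atTop_nhds_zero_of_lt_one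
    · positivity
    · exact Real.rpow_lt_one_of_one_lt_of_neg (by norm_num) (by norm_num)
  have hev : ∀ᶠ m : ℕ in atTop, ((2 : ℝ) ^ (-(1 / 2 : ℝ))) ^ m < ε :=
    hlim.eventually (gt_mem_nhds hε)
  obtain ⟨m, hm1, hm2⟩ := ((hub (1 / 2) (by norm_num)).and_eventually hev).exists
  refine ⟨m, fun n hn => ?_⟩
  have h1 : j n ≤ j m := hanti hn
  have h2 : (2 : ℝ) ^ (-((1 - 1 / 2 : ℝ) * (m : ℝ))) = ((2 : ℝ) ^ (-(1 / 2 : ℝ))) ^ m := by
    rw [← Real.rpow_natCast ((2 : ℝ) ^ (-(1 / 2 : ℝ))) m, ← Real.rpow_mul (by norm_num)]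
    congr 1
    ring
  rw [h2] at hm1
  linarith

end Pool.Agent.Helper7.G3
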