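import Pool.Agent.Helper7.G3.RightB

/-!
# Slopes of `V ^ n` over a division subalgebra of infinite left index

`E` acts on `Q` from the left; `Q` is the ring of left fractions of the algebra generated by `V`.

PROOF of `slope_pow`.  Suppose `dim (cap (V^n) X) > c₀ * rank X` with
`c₀ = dim V^(2n) / (n+1)`, `X` finite over `E`; choose `c > c₀` still with
`dim (cap (V^n) X) > c * rank X`.  `exists_PP` gives `Z ≠ ⊥` with `PP (V^n) Z c`.  By induction on
`j` there is `X_j ≠ ⊥` with `PP (V^(n+j)) X_j c` and `rank X_j ≥ j + 1`: `not_stable` gives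
`v ∈ V`, `x ∈ X_j` with `x v ∉ X_j`, take `X_(j+1) = X_j ⊔ X_j.map (rmul v)` (`PP.mono` for
`V^(n+j) ≤ V^(n+j+1)`, `PP.right`, `PP.sup`; `X_j < X_(j+1)`, so the rank grows,
`Submodule.finrank_lt_finrank_of_lt`).  For `j = n` and `Y = ⊥` in `PP`:
`c (n+1) ≤ c * rank X_n ≤ dim (cap (V^(2n)) X_n) ≤ dim V^(2n)`, a contradiction with `c > c₀`.
`cst_pow`: `tr x (V^n) ⊔ V^n ≤ V^(n+1)` (`x v ∈ V * V^n = V^(n+1)`, `1 ∈ V`).
-/

open Module

namespace Pool.Agent.Helper7.G3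

variable {K E Q : Type*} [Field K] [DivisionRing E] [Algebra K E] [DivisionRing Q] [Algebra K Q]

omit [DivisionRing E] [Algebra K E] in
private theorem fd_pow (V : Submodule K Q) [FiniteDimensional K V] (m : ℕ) :
    FiniteDimensional K ↥(V ^ m) := by
  have h : V.FG := Module.Finite.iff_fg.mp inferInstance
  exact Module.Finite.iff_fg.mpr (h.pow m)

omit [DivisionRing E] [Algebra K E] in
private theorem pow_le_succ (V : Submodule K Q) (h1 : (1 : Q) ∈ V) (m : ℕ) :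
    V ^ m ≤ V ^ (m + 1) := by
  intro x hx
  rw [pow_succ]
  have h := Submodule.mul_mem_mul hx h1
  rwa [mul_one] at h

private theorem grow [Module E Q] [IsScalarTower K E Q] [IsScalarTower E Q Q]
    (hinf : ¬ Module.Finite E Q) (V : Submodule K Q) [FiniteDimensional K V] (h1 : (1 : Q) ∈ V)
    (hfrac : ∀ q : Q, ∃ n : ℕ, ∃ a ∈ V ^ n, ∃ b ∈ V ^ n, b ≠ 0 ∧ q = b⁻¹ * a) (n : ℕ)
    {c : ℝ} (Z : Submodule E Q) (hZ : Z ≠ ⊥) (hPP : PP (V ^ n) Z c) (j : ℕ) :
    ∃ X : Submodule E Q, PP (V ^ (n + j)) X c ∧ j + 1 ≤ finrank E X := by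
  induction j with
  | zero =>
    refine ⟨Z, hPP, ?_⟩
    have := hPP.1
    have : Nontrivial Z := Submodule.nontrivial_iff_ne_bot.mpr hZ
    have := Module.finrank_pos (R := E) (M := Z)
    omega
  | succ j ih =>
    obtain ⟨X, hX, hr⟩ := ih
    have := hX.1
    have hne : X ≠ ⊥ := by
      rintro rfl
      rw [finrank_bot] at hr
      omega
    obtain ⟨v, hv, x, hx, hxv⟩ := not_stable hinf V hfrac X hne hX.1
    have hv0 : v ≠ 0 := by
      rintro rfl
      rw [mul_zero] at hxv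
      exact hxv X.zero_mem
    have := fd_pow V (n + j + 1)
    have h2 : PP (V ^ (n + j + 1)) (X ⊔ X.map (rmul v)) c := by
      apply PP.sup (hX.mono (pow_le_succ V h1 (n + j)))
      refine (hX.right v hv0 ?_).1
      intro t ht
      rw [pow_succ]
      exact Submodule.mul_mem_mul ht hv
    refine ⟨X ⊔ X.map (rmul v), h2, ?_⟩
    have := h2.1
    have hlt : X < X ⊔ X.map (rmul v) := by
      refine lt_of_le_of_ne le_sup_left ?_
      intro he
      apply hxv
      rw [he]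
      exact Submodule.mem_sup_right (Submodule.mem_map_of_mem (f := rmul (E := E) v) hx)
    have := Submodule.finrank_lt_finrank_of_lt hlt
    omega

theorem slope_pow [Module E Q] [IsScalarTower K E Q] [IsScalarTower E Q Q]
    (hinf : ¬ Module.Finite E Q) (V : Submodule K Q) [FiniteDimensional K V] (h1 : (1 : Q) ∈ V)
    (hfrac : ∀ q : Q, ∃ n : ℕ, ∃ a ∈ V ^ n, ∃ b ∈ V ^ n, b ≠ 0 ∧ q = b⁻¹ * a) (n : ℕ) :
    Slope E (V ^ n) ((finrank K ↥(V ^ (2 * n)) : ℝ) / (n + 1)) := by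
  intro X hX
  by_contra hcon
  push Not at hcon
  set c₀ : ℝ := (finrank K ↥(V ^ (2 * n)) : ℝ) / (n + 1) with hc₀
  set r : ℝ := (finrank E X : ℝ) with hr
  set b : ℝ := (finrank K ↥(cap (V ^ n) X) : ℝ) with hb
  have hr0 : 0 ≤ r := Nat.cast_nonneg _
  have hn0 : (0 : ℝ) < n + 1 := by positivity
  have hc₀0 : 0 ≤ c₀ := div_nonneg (Nat.cast_nonneg _) hn0.le
  set δ : ℝ := (b - c₀ * r) / (r + 1) with hδ
  have hδ0 : 0 < δ := div_pos (by linarith) (by linarith)
  have hδ1 : δ * (r + 1) = b - c₀ * r := div_mul_cancel₀ _ (by linarith)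
  have hlt : (c₀ + δ) * r < b := by nlinarith
  have := fd_pow V n
  obtain ⟨Z, hZ, hPP⟩ := exists_PP (V ^ n) X (c₀ + δ) (by linarith) hlt
  obtain ⟨Y, hY, hYr⟩ := grow hinf V h1 hfrac n Z hZ hPP n
  have h2 := hY.2 ⊥ bot_le
  have := fd_pow V (n + n)
  have h3 : finrank K ↥(cap (V ^ (n + n)) Y) ≤ finrank K ↥(V ^ (n + n)) := by
    apply Submodule.finrank_mono
    exact inf_le_left
  have h4 : (finrank K ↥(cap (V ^ (n + n)) Y) : ℝ) ≤ finrank K ↥(V ^ (n + n)) := by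
    exact_mod_cast h3
  have h5 : ((n : ℝ) + 1) ≤ finrank E Y := by exact_mod_cast hYr
  have h6 : (0 : ℝ) ≤ finrank K ↥(cap (V ^ (n + n)) (⊥ : Submodule E Q)) := Nat.cast_nonneg _
  rw [finrank_bot, Nat.cast_zero, sub_zero] at h2
  have h7 : c₀ * (n + 1) = finrank K ↥(V ^ (n + n)) := by
    rw [hc₀, div_mul_cancel₀ _ hn0.ne', two_mul]
  have h8 : (c₀ + δ) * (n + 1) ≤ (c₀ + δ) * finrank E Y :=
    mul_le_mul_of_nonneg_left h5 (by linarith)
  have h9 : 0 < δ * (n + 1) := mul_pos hδ0 hn0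
  nlinarith

/-- The cost of an element of `V` on `V ^ n`. -/
theorem cst_pow (V : Submodule K Q) [FiniteDimensional K V] (h1 : (1 : Q) ∈ V) (x : Q)
    (hx : x ∈ V) (n : ℕ) :
    cst (K := K) (M := Q) x (V ^ n) + finrank K ↥(V ^ n) ≤ finrank K ↥(V ^ (n + 1)) := by
  have := fd_pow V n
  have := fd_pow V (n + 1)
  have hle : tr x (V ^ n) ⊔ V ^ n ≤ V ^ (n + 1) := by
    apply sup_le
    · intro y hy
      unfold tr at hy
      rw [Submodule.mem_map] at hy
      obtain ⟨t, ht, rfl⟩ := hy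
      rw [pow_succ']
      exact Submodule.mul_mem_mul hx ht
    · exact pow_le_succ V h1 n
  have : FiniteDimensional K ↥(tr x (V ^ n) ⊔ V ^ n) :=
    Submodule.finiteDimensional_of_le hle
  have h2 : finrank K ↥(V ^ n) ≤ finrank K ↥(tr x (V ^ n) ⊔ V ^ n) :=
    Submodule.finrank_mono le_sup_right
  have h3 : finrank K ↥(tr x (V ^ n) ⊔ V ^ n) ≤ finrank K ↥(V ^ (n + 1)) :=
    Submodule.finrank_mono hle
  unfold cst
  omega

end Pool.Agent.Helper7.G3
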