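import Pool.Agent.Helper7.G3.Law
import Pool.Agent.Helper7.G3.Profile
import Pool.Agent.Helper7.G3.RightMul
import Pool.Agent.Helper7.G3.Growth
import Pool.Agent.Helper7.G3.Regular
import Pool.Agent.Helper7.G3.Comb
import Pool.Agent.Helper7.DivSub.Core

/-!
# The main argument
-/

open Module Filter

universe u v

namespace Pool.Agent.Helper7.G3

open Pool.Agent.Helper41.CT

section

variable {K E Q M : Type*} [Field K] [DivisionRing E] [Algebra K E] [DivisionRing Q] [Algebra K Q]
  [AddCommGroup M] [Module K M] [Module E M] [Module Q M] [IsScalarTower K E M]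
  [IsScalarTower K Q M]

lemma cst_eq (s : E →ₐ[K] Q) (hs : ∀ (e : E) (m : M), e • m = s e • m) (e : E)
    (T : Submodule K M) : cst e T = cst (s e) T := by
  have : tr e T = tr (s e) T := by
    ext x
    unfold tr
    simp only [Submodule.mem_map, Algebra.lsmul_coe]
    constructor
    · rintro ⟨y, hy, rfl⟩
      exact ⟨y, hy, (hs e y).symm⟩
    · rintro ⟨y, hy, rfl⟩
      exact ⟨y, hy, hs e y⟩
  unfold cst
  rw [this]

end

/-- costs of a family of elements of bounded complexity. -/
lemma sum_cst_le {K Q M : Type*} [Field K] [DivisionRing Q] [Algebra K Q]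
    [AddCommGroup M] [Module K M] [Module Q M] [IsScalarTower K Q M] {r n : ℕ}
    (F : Fin r → Q) (q : Fin n → Q) (k : Fin n → ℕ)
    (hq : ∀ j, Cx K (Set.range F) (k j) (q j)) (T : Submodule K M) [FiniteDimensional K T] :
    (∑ j, (cst (q j) T : ℝ)) ≤ (∑ j, (k j : ℝ)) * ∑ i, (cst (F i) T : ℝ) := by
  rw [Finset.sum_mul]
  apply Finset.sum_le_sum
  intro j _
  have h := cst_cx (hq j) T (b := ∑ i, cst (F i) T) (by
    rintro _ ⟨i, rfl⟩
    exact Finset.single_le_sum (f := fun i => cst (F i) T) (fun _ _ => Nat.zero_le _)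
      (Finset.mem_univ i))
  have h' : ((cst (q j) T : ℕ) : ℝ) ≤ ((k j * ∑ i, cst (F i) T : ℕ) : ℝ) := by exact_mod_cast h
  push_cast at h'
  exact h'

/-- If `Q` is not finite over `E` there are arbitrarily many left `E`-independent elements. -/
lemma exists_leftIndep {K E Q : Type*} [Field K] [DivisionRing E] [Algebra K E] [DivisionRing Q]
    [Algebra K Q] [Module E Q] (s : E →ₐ[K] Q) (hs : ∀ (e : E) (m : Q), e • m = s e * m)
    (hinf : ¬ Module.Finite E Q) (n : ℕ) : ∃ q : Fin n → Q, LeftIndep s q := by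
  have h1 : ¬ Module.rank E Q < Cardinal.aleph0 := by
    rw [Module.rank_lt_aleph0_iff]
    exact hinf
  have h2 : (n : Cardinal) ≤ Module.rank E Q :=
    (Cardinal.natCast_lt_aleph0 (n := n)).le.trans (not_lt.1 h1)
  obtain ⟨q, hq⟩ := (le_rank_iff_exists_linearIndependent_finset).1 h2
  obtain ⟨hcard, hind⟩ := hq
  have e : Fin n ≃ q := (Finset.equivFinOfCardEq hcard).symm
  refine ⟨fun j => (e j : Q), ?_⟩
  intro g hg j
  have h3 := hind.comp e e.injective
  rw [Fintype.linearIndependent_iff] at h3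
  apply h3 g _ j
  rw [← hg]
  apply Finset.sum_congr rfl
  intro i _
  exact hs _ _

lemma LeftIndep.castLE {K E Q : Type*} [Field K] [DivisionRing E] [Algebra K E] [DivisionRing Q]
    [Algebra K Q] {s : E →ₐ[K] Q} {n m : ℕ} (h : m ≤ n) {q : Fin n → Q} (hq : LeftIndep s q) :
    LeftIndep s (fun j : Fin m => q (Fin.castLE h j)) := by
  intro e he j
  have h1 := hq (fun i : Fin n => if hi : (i : ℕ) < m then e ⟨i, hi⟩ else 0) (by
    rw [← he]
    symm
    apply Finset.sum_of_injOn (Fin.castLE h)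
    · intro a _ b _ hab
      exact Fin.castLE_injective h hab
    · intro a _
      simp
    · intro i _ hi
      have : ¬ (i : ℕ) < m := by
        intro hlt
        apply hi
        refine ⟨⟨i, hlt⟩, by simp, ?_⟩
        ext
        simp
      simp [this]
    · intro a _
      simp) (Fin.castLE h j)
  simpa using h1

/-- The main theorem for `E → Q` of infinite left index with the same profile function. -/
theorem main {K : Type v} {E Q : Type u} [Field K] [DivisionRing E] [Algebra K E] [DivisionRing Q]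
    [Algebra K Q] [Module E Q] [IsScalarTower K E Q] [IsScalarTower E Q Q]
    (s : E →ₐ[K] Q) (hs : ∀ (e : E) (m : Q), e • m = s e * m)
    (hinf : ¬ Module.Finite E Q) (hinfK : ¬ Module.Finite K Q)
    (V : Submodule K Q) [FiniteDimensional K V] (h1 : (1 : Q) ∈ V)
    (hfrac : ∀ q : Q, ∃ n : ℕ, ∃ a ∈ V ^ n, ∃ b ∈ V ^ n, b ≠ 0 ∧ q = b⁻¹ * a)
    {r : ℕ} (F' : Fin r → E) (F : Fin r → Q) (hJ : ∀ lam : ℝ, J K F' lam = J K F lam)
    (hFV : ∀ i, F i ∈ V) (hgen : ∀ q : Q, ∃ k : ℕ, Cx K (Set.range F) k q)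
    (hub : ∀ ε : ℝ, 0 < ε → ∃ᶠ N : ℕ in atTop, (finrank K ↥(V ^ N) : ℝ) ≤ (N : ℝ) ^ (3 + ε)) :
    False := by
  classical
  -- complexities of the images
  choose κ hκ using fun i => hgen (s (F' i))
  set C : ℝ := ∑ i, (κ i : ℝ) with hC
  have hC0 : 0 ≤ C := Finset.sum_nonneg fun _ _ => Nat.cast_nonneg _
  -- costs over `E` against costs over `Q`
  have hcost : ∀ (M : Type u) [AddCommGroup M] [Module K M] [Module E M] [Module Q M]
      [IsScalarTower K E M] [IsScalarTower K Q M], (∀ (e : E) (m : M), e • m = s e • m) →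
      ∀ (T : Submodule K M), FiniteDimensional K T →
      (∑ i, (cst (F' i) T : ℝ)) ≤ C * ∑ i, (cst (F i) T : ℝ) := by
    intro M _ _ _ _ _ _ hM T hT
    have h := sum_cst_le F (fun i => s (F' i)) κ hκ T
    refine le_trans (le_of_eq ?_) h
    apply Finset.sum_congr rfl
    intro i _
    rw [cst_eq s hM]
  set g : ℕ → ℕ := fun n => finrank K ↥(V ^ n) with hg
  have hg1 : ∀ n, 1 ≤ g n := fun n => Pool.Agent.Helper7.DivSub.finrank_pow_pos h1 n
  have hgm : Monotone g := by
    intro a b hab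
    exact Submodule.finrank_mono (Pool.Agent.Helper7.DivSub.pow_le_pow_of_one_mem h1 hab)
  -- the bound for `J`
  have hJg : ∀ n : ℕ, 1 ≤ n → J K F (max 1 ((g (2 * n) : ℝ) / (n + 1))) ≤
      (C * r) * (((g (n + 1) : ℝ) - g n) / g n) := by
    intro n hn
    have hS : Slope E (V ^ n) (max 1 ((g (2 * n) : ℝ) / (n + 1))) :=
      Slope.mono (slope_pow (E := E) hinf V h1 hfrac n) le_rfl (le_max_right _ _)
    have h2 := J_le F' (V ^ n) hS
    rw [hJ] at h2
    have h3 := hcost Q (fun e m => by rw [hs, smul_eq_mul]) (V ^ n) inferInstance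
    have h4 : (∑ i, (cst (F i) (V ^ n) : ℝ)) ≤ r * ((g (n + 1) : ℝ) - g n) := by
      calc (∑ i, (cst (F i) (V ^ n) : ℝ)) ≤ ∑ _i : Fin r, ((g (n + 1) : ℝ) - g n) := by
            apply Finset.sum_le_sum
            intro i _
            have h5 := cst_pow V h1 (F i) (hFV i) n
            have h6 : ((cst (K := K) (M := Q) (F i) (V ^ n) : ℕ) : ℝ) + g n ≤ g (n + 1) := by
              exact_mod_cast h5
            linarith
        _ = r * ((g (n + 1) : ℝ) - g n) := by
            rw [Finset.sum_const, Finset.card_univ, Fintype.card_fin, nsmul_eq_mul]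
    have hgn : (0 : ℝ) < g n := by exact_mod_cast hg1 n
    have h7 : J K F (max 1 ((g (2 * n) : ℝ) / (n + 1))) * g n ≤
        C * (r * ((g (n + 1) : ℝ) - g n)) :=
      h2.trans (h3.trans (mul_le_mul_of_nonneg_left h4 hC0))
    rw [← mul_div_assoc, le_div_iff₀ hgn]
    linarith
  have hhub := growth_J (fun x => J K F x) (fun a b ha hab => J_anti F ha hab) (C * r)
    (mul_nonneg hC0 (Nat.cast_nonneg _)) g hg1 hgm hub hJg
  -- the sequence `j`
  set j : ℕ → ℝ := fun m => J K F ((4 : ℝ) ^ m) with hjdef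
  have h4pow : ∀ m : ℕ, (1 : ℝ) ≤ 4 ^ m := fun m => one_le_pow₀ (by norm_num)
  have hjpos : ∀ m, 0 < j m := fun m => J_pos F hinfK hgen _ (h4pow m)
  have hjanti : Antitone j := by
    intro a b hab
    exact J_anti F (h4pow a) (pow_le_pow_right₀ (by norm_num) hab)
  -- number of scales
  obtain ⟨k, hk⟩ := exists_nat_gt (48 * (2 * C))
  obtain ⟨q, hq⟩ := exists_leftIndep s hs hinf (2 ^ k)
  choose L hL using fun i => hgen (q i)
  set B : ℝ := ∑ i, (L i : ℝ) with hB
  have hB0 : 0 ≤ B := Finset.sum_nonneg fun _ _ => Nat.cast_nonneg _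
  obtain ⟨m₀, hm₀⟩ := small j hjanti hhub (1 / (8 * (B + 1))) (by positivity)
  obtain ⟨m, hm, hkm, hreg⟩ := regular j hjpos hhub (k + 1) m₀ (by omega)
  -- a near optimal subspace
  obtain ⟨M, iM1, iM2, iM3, iM4, T, hTf, hT0, hTS, hTc⟩ := exists_near F (h4pow m) (hjpos m)
  letI : Module E M := Module.compHom M (s : E →+* Q)
  have hM : ∀ (e : E) (x : M), e • x = s e • x := fun _ _ => rfl
  haveI : IsScalarTower K E M := by
    refine ⟨fun a e x => ?_⟩
    rw [hM, hM, map_smul, smul_assoc]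
  have hD : (0 : ℝ) < finrank K T := by
    have : 0 < finrank K T := by
      rw [Module.finrank_pos_iff]
      exact (Submodule.nontrivial_iff_ne_bot).2 hT0
    exact_mod_cast this
  set lam : ℕ → ℝ := fun i => (4 : ℝ) ^ m / 4 ^ i with hlam
  have hlampos : ∀ i, 0 < lam i := fun i => by positivity
  have hSE : Slope E T (lam 0) := by
    have := slope_sub s hM T ((4 : ℝ) ^ m) (by positivity) hTS
    simpa [hlam] using this
  obtain ⟨X, hXf, hXm, hr0, hr, hc⟩ := law T lam hlampos hSE
  have hJi : ∀ i, ∀ T' : Submodule K M, FiniteDimensional K T' → Slope E T' (lam i) →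
      J K F (lam i) * finrank K T' ≤ ∑ f, (cst (F' f) T' : ℝ) := by
    intro i T' hT' hS
    have := J_le F' T' hS
    rwa [hJ] at this
  have hc' := hc r F' (fun i => J K F (lam i)) hJi k
  have hcE := hcost M hM T hTf
  have hcap : ∀ i, i ≤ k → (2 : ℝ) ^ i * ((finrank K T : ℝ) -
      (2 : ℝ) ^ i * ((finrank K T : ℝ) - finrank K ↥(cap T (X i))) - finrank K T / 4) ≤
      (4 : ℝ) ^ m * finrank E (X i) := by
    intro i hi
    haveI := hXf i
    have hle : 2 ^ i ≤ 2 ^ k := Nat.pow_le_pow_right (by norm_num) hi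
    have h5 := capture s hM T ((4 : ℝ) ^ m) (by positivity) hTS _ (hq.castLE hle) (X i)
    have h6 : (∑ a : Fin (2 ^ i), (cst (q (Fin.castLE hle a)) T : ℝ)) ≤ finrank K T / 4 := by
      have h7 : (∑ a : Fin (2 ^ i), (cst (q (Fin.castLE hle a)) T : ℝ)) ≤
          ∑ a : Fin (2 ^ k), (cst (q a) T : ℝ) := by
        have h12 : (∑ a : Fin (2 ^ i), (cst (q (Fin.castLE hle a)) T : ℝ)) =
            ∑ a ∈ Finset.univ.map (Fin.castLEEmb hle), (cst (q a) T : ℝ) := by
          rw [Finset.sum_map]
          rfl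
        rw [h12]
        exact Finset.sum_le_sum_of_subset_of_nonneg (Finset.subset_univ _)
          fun _ _ _ => Nat.cast_nonneg _
      have h8 := sum_cst_le F q L hL T
      have h9 : B * ∑ i, (cst (F i) T : ℝ) ≤ B * (2 * J K F ((4 : ℝ) ^ m) * finrank K T) :=
        mul_le_mul_of_nonneg_left hTc hB0
      have h10 : J K F ((4 : ℝ) ^ m) ≤ 1 / (8 * (B + 1)) := hm₀ m hm
      have h11 : B * (2 * J K F ((4 : ℝ) ^ m) * finrank K T) ≤ finrank K T / 4 := by
        have h12 : B * (2 * J K F ((4 : ℝ) ^ m)) ≤ 1 / 4 := by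
          have h13 : B * (2 * J K F ((4 : ℝ) ^ m)) ≤ B * (2 * (1 / (8 * (B + 1)))) := by
            gcongr
          have h14 : B * (2 * (1 / (8 * (B + 1)))) = (1 / 4) * (B / (B + 1)) := by
            field_simp
            ring
          have h15 : B / (B + 1) ≤ 1 := by
            rw [div_le_one (by linarith)]
            linarith
          linarith
        nlinarith
      linarith
    push_cast at h5
    refine le_trans ?_ h5
    have : (0 : ℝ) ≤ 2 ^ i := by positivity
    apply mul_le_mul_of_nonneg_left _ this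
    linarith
  have hfin := comb k (finrank K T) ((4 : ℝ) ^ m) (2 * C) (J K F ((4 : ℝ) ^ m)) hD (by positivity)
    (hjpos m) (fun i => (finrank K ↥(cap T (X i)) : ℝ)) (fun i => (finrank E (X i) : ℝ))
    (fun i => J K F (lam i)) (Nat.cast_nonneg _) ?_ ?_ ?_ ?_ ?_ ?_ hcap
  · linarith
  · intro i
    have h5 : cap T (X i) ≤ cap T (X (i + 1)) := by
      intro x hx
      rw [mem_cap] at hx ⊢
      exact ⟨hx.1, hXm i hx.2⟩
    haveI : FiniteDimensional K ↥(cap T (X (i + 1))) :=
      Submodule.finiteDimensional_of_le (inf_le_left : cap T (X (i + 1)) ≤ T)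
    exact_mod_cast Submodule.finrank_mono h5
  · intro i
    have h5 : cap T (X i) ≤ T := inf_le_left
    exact_mod_cast Submodule.finrank_mono h5
  · intro i hi
    have h5 := hreg i (by omega)
    have h6 : lam i = (4 : ℝ) ^ (m - i) := by
      rw [hlam]
      simp only
      rw [div_eq_iff (by positivity), ← pow_add]
      congr 1
      omega
    simp only [h6]
    exact h5
  · refine hc'.trans (hcE.trans ?_)
    have := mul_le_mul_of_nonneg_left hTc hC0
    linarith
  · have : lam 0 = (4 : ℝ) ^ m := by simp [hlam]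
    rw [← this]
    exact hr0
  · intro i
    exact hr i

end Pool.Agent.Helper7.G3
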