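import Pool.Agent.Helper7.G3.Basic

/-!
# Existence of maximisers

PROOF.  For `Y ≥ X₀` finite over `E` the value `v(Y) = dim (T ∩ Y) - lam * rank Y` is at most
`dim T`, and if `v(Y) ≥ v(X₀)` then `lam * rank Y ≤ dim T - v(X₀)`, so the pair
`(dim (T ∩ Y), rank Y)` ranges over a finite set of pairs of natural numbers; take a `Y` for which
the value is the largest (for example `Set.exists_max_image` on the finite set of attained pairs).
-/

open Module

namespace Pool.Agent.Helper7.G3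

variable {K E M : Type*} [Field K] [DivisionRing E] [Algebra K E] [AddCommGroup M] [Module K M]
  [Module E M] [IsScalarTower K E M]

theorem exists_max (T : Submodule K M) [FiniteDimensional K T] (lam : ℝ) (hlam : 0 < lam)
    (X₀ : Submodule E M) (hX₀ : Module.Finite E X₀) :
    ∃ X : Submodule E M, X₀ ≤ X ∧ Module.Finite E X ∧
      ∀ Y : Submodule E M, X₀ ≤ Y → Module.Finite E Y →
        (finrank K ↥(cap T Y) : ℝ) - lam * finrank E Y ≤
          finrank K ↥(cap T X) - lam * finrank E X := by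
  classical
  set v₀ : ℝ := (finrank K ↥(cap T X₀) : ℝ) - lam * finrank E X₀ with hv₀
  have hcap : ∀ Y : Submodule E M, finrank K ↥(cap T Y) ≤ finrank K T := fun Y =>
    Submodule.finrank_mono inf_le_left
  set B : ℕ := ⌈((finrank K T : ℝ) - v₀) / lam⌉₊ with hB
  set P : Set (ℕ × ℕ) := {q | ∃ Y : Submodule E M, X₀ ≤ Y ∧ Module.Finite E Y ∧
    finrank K ↥(cap T Y) = q.1 ∧ finrank E Y = q.2 ∧ v₀ ≤ (q.1 : ℝ) - lam * q.2} with hP
  have hfin : P.Finite := by
    refine Set.Finite.subset ((Set.finite_Iic (finrank K T)).prod (Set.finite_Iic B)) ?_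
    rintro ⟨a, b⟩ ⟨Y, -, -, h1, h2, h3⟩
    have h4 : a ≤ finrank K T := by
      have h1' : finrank K ↥(cap T Y) = a := h1
      rw [← h1']
      exact hcap Y
    refine ⟨h4, ?_⟩
    show b ≤ B
    have h5 : (b : ℝ) ≤ ((finrank K T : ℝ) - v₀) / lam := by
      rw [le_div_iff₀ hlam]
      have h6 : (a : ℝ) ≤ finrank K T := by exact_mod_cast h4
      have h7 : v₀ ≤ (a : ℝ) - lam * b := h3
      nlinarith
    have h6 : (b : ℝ) ≤ B := h5.trans (Nat.le_ceil _)
    exact_mod_cast h6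
  have hne : P.Nonempty :=
    ⟨(finrank K ↥(cap T X₀), finrank E X₀), X₀, le_rfl, hX₀, rfl, rfl, le_rfl⟩
  obtain ⟨⟨a, b⟩, ⟨X, hX, hXf, h1, h2, h3⟩, hmax⟩ :=
    Set.exists_max_image P (fun q => (q.1 : ℝ) - lam * q.2) hfin hne
  refine ⟨X, hX, hXf, fun Y hY hYf => ?_⟩
  have h1' : finrank K ↥(cap T X) = a := h1
  have h2' : finrank E X = b := h2
  have h3' : v₀ ≤ (a : ℝ) - lam * b := h3
  rw [h1', h2']
  by_cases h : v₀ ≤ (finrank K ↥(cap T Y) : ℝ) - lam * finrank E Y
  · exact hmax (finrank K ↥(cap T Y), finrank E Y) ⟨Y, hY, hYf, rfl, rfl, h⟩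
  · linarith

end Pool.Agent.Helper7.G3
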