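import Pool.Agent.Helper7.G3.Basic

/-!
# Subspaces all of whose quotient slopes are at least `c`

PROOFS.  `exists_PP`: among the `E`-subspaces `Z` of the finite `X` take one maximising
`dim (cap T Z) - c * rank Z` (the pairs `(dim (cap T Z), rank Z)` range over a finite set); the
maximum is positive, so `Z ≠ ⊥`.
`PP.sup`: for `Y ≤ X ⊔ X'`:
`dim (cap T (Y ⊔ X)) - dim (cap T Y) ≥ dim (cap T X) - dim (cap T (X ⊓ Y))` because
`cap T X ⊓ cap T Y = cap T (X ⊓ Y)` and `cap T X ⊔ cap T Y ≤ cap T (X ⊔ Y)`; this is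
`≥ c (rank X - rank (X ⊓ Y)) = c (rank (Y ⊔ X) - rank Y)`
(`Submodule.finrank_sup_add_finrank_inf_eq` over `E`).  Then the same with `Y ⊔ X` and `X'`; note
`Y ⊔ X ⊔ X' = X ⊔ X'`.
`PP.mono`: `cap T X / cap T Y` embeds into `cap T' X / cap T' Y`: use `cap T X ⊓ cap T' Y = cap T Y`
and `cap T X ⊔ cap T' Y ≤ cap T' X`.
`PP.right`: right multiplication by `v ≠ 0` is `E`-linear (`rmul v`) and injective.  If
`Y' ≤ X.map (rmul v)` then `Y' = Y.map (rmul v)` with `Y = Y'.comap (rmul v) ≤ X`, and
`cap T X / cap T Y` embeds by it into `cap T' (X v) / cap T' (Y v)` (as in `PP.mono`).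
-/

open Module

namespace Pool.Agent.Helper7.G3

section

variable {K E M : Type*} [Field K] [DivisionRing E] [Algebra K E] [AddCommGroup M] [Module K M]
  [Module E M] [IsScalarTower K E M]

/-- `X` is finite over `E` and all its quotients have `T`-slope at least `c`. -/
def PP (T : Submodule K M) (X : Submodule E M) (c : ℝ) : Prop :=
  Module.Finite E X ∧ ∀ Y : Submodule E M, Y ≤ X →
    c * ((finrank E X : ℝ) - finrank E Y) ≤
      (finrank K ↥(cap T X) : ℝ) - finrank K ↥(cap T Y)

private lemma cap_mono {T T' : Submodule K M} {R R' : Submodule E M} (hT : T ≤ T') (hR : R ≤ R') :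
    cap T R ≤ cap T' R' := by
  intro x hx
  rw [mem_cap] at hx ⊢
  exact ⟨hT hx.1, hR hx.2⟩

private lemma cap_fin (T : Submodule K M) [FiniteDimensional K T] (R : Submodule E M) :
    FiniteDimensional K ↥(cap T R) :=
  Submodule.finiteDimensional_of_le (inf_le_left : cap T R ≤ T)

private lemma dim_le (T : Submodule K M) [FiniteDimensional K T] {R R' : Submodule E M}
    (h : R ≤ R') : finrank K ↥(cap T R) ≤ finrank K ↥(cap T R') := by
  have h1 := cap_fin T R'
  exact Submodule.finrank_mono (cap_mono le_rfl h)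

private lemma PP.step {T : Submodule K M} [FiniteDimensional K T] {X : Submodule E M} {c : ℝ}
    (h : PP T X c) (Y : Submodule E M) [Module.Finite E Y] :
    c * ((finrank E ↥(Y ⊔ X) : ℝ) - finrank E Y) ≤
      (finrank K ↥(cap T (Y ⊔ X)) : ℝ) - finrank K ↥(cap T Y) := by
  have hX : Module.Finite E X := h.1
  have f1 := cap_fin T X
  have f2 := cap_fin T Y
  have f3 := cap_fin T (Y ⊔ X)
  have h1 := Submodule.finrank_sup_add_finrank_inf_eq Y X
  have h2 := Submodule.finrank_sup_add_finrank_inf_eq (cap T Y) (cap T X)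
  have h3 : finrank K ↥(cap T Y ⊔ cap T X) ≤ finrank K ↥(cap T (Y ⊔ X)) :=
    Submodule.finrank_mono (sup_le (cap_mono le_rfl le_sup_left) (cap_mono le_rfl le_sup_right))
  have h4 : cap T Y ⊓ cap T X = cap T (Y ⊓ X) := by
    ext x
    simp only [Submodule.mem_inf, mem_cap]
    tauto
  have h5 := h.2 (Y ⊓ X) inf_le_right
  rw [h4] at h2
  have h1' : (finrank E ↥(Y ⊔ X) : ℝ) + finrank E ↥(Y ⊓ X) = finrank E Y + finrank E X := by
    exact_mod_cast h1
  have h2' : (finrank K ↥(cap T Y ⊔ cap T X) : ℝ) + finrank K ↥(cap T (Y ⊓ X)) =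
      finrank K ↥(cap T Y) + finrank K ↥(cap T X) := by
    exact_mod_cast h2
  have h3' : (finrank K ↥(cap T Y ⊔ cap T X) : ℝ) ≤ finrank K ↥(cap T (Y ⊔ X)) := by
    exact_mod_cast h3
  have h6 : (finrank E ↥(Y ⊔ X) : ℝ) - finrank E Y = finrank E X - finrank E ↥(Y ⊓ X) := by
    linarith
  rw [h6]
  linarith

theorem exists_PP (T : Submodule K M) [FiniteDimensional K T] (X : Submodule E M)
    [Module.Finite E X] (c : ℝ) (hc : 0 < c)
    (h : c * (finrank E X : ℝ) < finrank K ↥(cap T X)) :
    ∃ Z : Submodule E M, Z ≠ ⊥ ∧ PP T Z c := by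
  classical
  set S : Set (ℕ × ℕ) := {p | ∃ Z : Submodule E M, Z ≤ X ∧
    p = (finrank K ↥(cap T Z), finrank E Z)} with hS
  have hfin : S.Finite := by
    refine Set.Finite.subset ((Set.finite_Iic (finrank K ↥(cap T X))).prod
      (Set.finite_Iic (finrank E X))) ?_
    rintro p ⟨Z, hZ, rfl⟩
    exact ⟨dim_le T hZ, Submodule.finrank_mono hZ⟩
  have hne : S.Nonempty := ⟨_, X, le_rfl, rfl⟩
  obtain ⟨p, ⟨Z, hZ, rfl⟩, hmax⟩ :=
    Set.exists_max_image S (fun p : ℕ × ℕ => (p.1 : ℝ) - c * p.2) hfin hne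
  have hmaxX := hmax _ ⟨X, le_rfl, rfl⟩
  refine ⟨Z, ?_, ?_, ?_⟩
  · rintro rfl
    have h0 : cap T (⊥ : Submodule E M) = ⊥ := by
      rw [eq_bot_iff]
      intro x hx
      rw [mem_cap] at hx
      exact hx.2
    have h1 : (finrank K ↥(cap T (⊥ : Submodule E M)) : ℝ) = 0 := by
      rw [h0, finrank_bot]; simp
    have h2 : (finrank E ↥(⊥ : Submodule E M) : ℝ) = 0 := by
      rw [finrank_bot]; simp
    simp only [h1, h2] at hmaxX
    linarith
  · exact Submodule.finiteDimensional_of_le hZ
  · intro Y hY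
    have h3 := hmax _ ⟨Y, hY.trans hZ, rfl⟩
    simp only at h3
    linarith

theorem PP.sup {T : Submodule K M} [FiniteDimensional K T] {X X' : Submodule E M} {c : ℝ}
    (h : PP T X c) (h' : PP T X' c) : PP T (X ⊔ X') c := by
  have hX : Module.Finite E X := h.1
  have hX' : Module.Finite E X' := h'.1
  have hS : Module.Finite E ↥(X ⊔ X') := Submodule.finite_sup X X'
  refine ⟨hS, fun Y hY => ?_⟩
  have hYf : Module.Finite E Y := Submodule.finiteDimensional_of_le hY
  have hYX : Module.Finite E ↥(Y ⊔ X) := Submodule.finite_sup Y X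
  have h1 := h.step Y
  have h2 := h'.step (Y ⊔ X)
  have h3 : Y ⊔ X ⊔ X' = X ⊔ X' := by
    rw [sup_assoc]
    exact sup_eq_right.mpr hY
  rw [h3] at h2
  linarith

theorem PP.mono {T T' : Submodule K M} [FiniteDimensional K T'] {X : Submodule E M} {c : ℝ}
    (h : PP T X c) (hT : T ≤ T') : PP T' X c := by
  have hX : Module.Finite E X := h.1
  have hTf : FiniteDimensional K T := Submodule.finiteDimensional_of_le hT
  refine ⟨hX, fun Y hY => ?_⟩
  have f1 := cap_fin T X
  have f2 := cap_fin T' Y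
  have f3 := cap_fin T' X
  have h2 := Submodule.finrank_sup_add_finrank_inf_eq (cap T X) (cap T' Y)
  have h3 : finrank K ↥(cap T X ⊔ cap T' Y) ≤ finrank K ↥(cap T' X) :=
    Submodule.finrank_mono (sup_le (cap_mono hT le_rfl) (cap_mono le_rfl hY))
  have h4 : cap T X ⊓ cap T' Y = cap T Y := by
    ext x
    simp only [Submodule.mem_inf, mem_cap]
    constructor
    · rintro ⟨⟨a1, a2⟩, a3, a4⟩
      exact ⟨a1, a4⟩
    · rintro ⟨a1, a2⟩
      exact ⟨⟨a1, hY a2⟩, hT a1, a2⟩
  rw [h4] at h2
  have h5 := h.2 Y hY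
  have h2' : (finrank K ↥(cap T X ⊔ cap T' Y) : ℝ) + finrank K ↥(cap T Y) =
      finrank K ↥(cap T X) + finrank K ↥(cap T' Y) := by
    exact_mod_cast h2
  have h3' : (finrank K ↥(cap T X ⊔ cap T' Y) : ℝ) ≤ finrank K ↥(cap T' X) := by
    exact_mod_cast h3
  linarith

end

section

variable {K E Q : Type*} [Field K] [DivisionRing E] [Algebra K E] [DivisionRing Q] [Algebra K Q]
  [Module E Q] [IsScalarTower K E Q] [IsScalarTower E Q Q]

/-- Right multiplication by `v`, as an `E`-linear map. -/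
def rmul (v : Q) : Q →ₗ[E] Q where
  toFun x := x * v
  map_add' x y := add_mul x y v
  map_smul' e x := by
    rw [RingHom.id_apply, ← smul_eq_mul, ← smul_eq_mul, smul_assoc]

theorem PP.right {T T' : Submodule K Q} [FiniteDimensional K T'] {X : Submodule E Q} {c : ℝ}
    (h : PP T X c) (v : Q) (hv : v ≠ 0) (hT : ∀ t ∈ T, t * v ∈ T') :
    PP T' (X.map (rmul v)) c ∧ finrank E ↥(X.map (rmul (E := E) v)) = finrank E X := by
  have hX : Module.Finite E X := h.1
  have hinj : Function.Injective (rmul (E := E) v) := by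
    intro x y hxy
    exact mul_right_cancel₀ hv hxy
  have hg : Function.Injective (LinearMap.mulRight K v) := by
    intro x y hxy
    exact mul_right_cancel₀ hv hxy
  have hrk : ∀ Z : Submodule E Q, finrank E ↥(Z.map (rmul (E := E) v)) = finrank E Z := fun Z =>
    (Submodule.equivMapOfInjective (rmul (E := E) v) hinj Z).finrank_eq.symm
  have hmapT : T.map (LinearMap.mulRight K v) ≤ T' := by
    rintro _ ⟨t, ht, rfl⟩
    exact hT t ht
  have hTf : FiniteDimensional K T := by
    have h1 : FiniteDimensional K ↥(T.map (LinearMap.mulRight K v)) :=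
      Submodule.finiteDimensional_of_le hmapT
    exact Module.Finite.equiv
      (Submodule.equivMapOfInjective (LinearMap.mulRight K v) hg T).symm
  have hdim : ∀ Z : Submodule K Q, finrank K ↥(Z.map (LinearMap.mulRight K v)) = finrank K Z :=
    fun Z => (Submodule.equivMapOfInjective (LinearMap.mulRight K v) hg Z).finrank_eq.symm
  refine ⟨⟨?_, fun Y' hY' => ?_⟩, hrk X⟩
  · exact Module.Finite.equiv (Submodule.equivMapOfInjective (rmul (E := E) v) hinj X)
  · set Y : Submodule E Q := Y'.comap (rmul (E := E) v) with hYdef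
    have hYX : Y ≤ X := by
      intro y hy
      obtain ⟨x, hx, hxy⟩ := hY' hy
      have : x = y := hinj hxy
      rw [← this]
      exact hx
    have hYmap : Y.map (rmul (E := E) v) = Y' := by
      rw [hYdef, Submodule.map_comap_eq, inf_eq_right]
      intro y hy
      obtain ⟨x, hx, hxy⟩ := hY' hy
      exact ⟨x, hxy⟩
    have f1 := cap_fin T X
    have f1' : FiniteDimensional K ↥((cap T X).map (LinearMap.mulRight K v)) :=
      Module.Finite.equiv (Submodule.equivMapOfInjective (LinearMap.mulRight K v) hg (cap T X))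
    have f2 := cap_fin T' Y'
    have f3 := cap_fin T' (X.map (rmul (E := E) v))
    have f4 := cap_fin T Y
    have f4' : FiniteDimensional K ↥((cap T Y).map (LinearMap.mulRight K v)) :=
      Module.Finite.equiv (Submodule.equivMapOfInjective (LinearMap.mulRight K v) hg (cap T Y))
    have h2 := Submodule.finrank_sup_add_finrank_inf_eq
      ((cap T X).map (LinearMap.mulRight K v)) (cap T' Y')
    have h3 : finrank K ↥((cap T X).map (LinearMap.mulRight K v) ⊔ cap T' Y') ≤
        finrank K ↥(cap T' (X.map (rmul (E := E) v))) := by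
      refine Submodule.finrank_mono (sup_le ?_ (cap_mono le_rfl hY'))
      rintro _ ⟨x, hx, rfl⟩
      rw [SetLike.mem_coe, mem_cap] at hx
      rw [mem_cap]
      exact ⟨hT x hx.1, x, hx.2, rfl⟩
    have h4 : finrank K ↥((cap T X).map (LinearMap.mulRight K v) ⊓ cap T' Y') ≤
        finrank K ↥(cap T Y) := by
      rw [← hdim (cap T Y)]
      refine Submodule.finrank_mono ?_
      rintro _ ⟨⟨x, hx, rfl⟩, hy⟩
      rw [SetLike.mem_coe, mem_cap] at hx
      rw [SetLike.mem_coe, mem_cap] at hy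
      refine ⟨x, ?_, rfl⟩
      rw [SetLike.mem_coe, mem_cap]
      exact ⟨hx.1, hy.2⟩
    rw [hdim] at h2
    have h5 := h.2 Y hYX
    have h6 : finrank E Y' = finrank E Y := by rw [← hYmap, hrk]
    rw [hrk X, h6]
    have h2' : (finrank K ↥((cap T X).map (LinearMap.mulRight K v) ⊔ cap T' Y') : ℝ) +
        finrank K ↥((cap T X).map (LinearMap.mulRight K v) ⊓ cap T' Y') =
        finrank K ↥(cap T X) + finrank K ↥(cap T' Y') := by
      exact_mod_cast h2
    have h3' : (finrank K ↥((cap T X).map (LinearMap.mulRight K v) ⊔ cap T' Y') : ℝ) ≤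
        finrank K ↥(cap T' (X.map (rmul (E := E) v))) := by
      exact_mod_cast h3
    have h4' : (finrank K ↥((cap T X).map (LinearMap.mulRight K v) ⊓ cap T' Y') : ℝ) ≤
        finrank K ↥(cap T Y) := by
      exact_mod_cast h4
    linarith

end

end Pool.Agent.Helper7.G3
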