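import Pool.Agent.Helper7.G3.RightA

/-!
# No finite-rank left subspace is stable under right multiplication
-/

open Module

namespace Pool.Agent.Helper7.G3

variable {K E Q : Type*} [Field K] [DivisionRing E] [Algebra K E] [DivisionRing Q] [Algebra K Q]
  [Module E Q] [IsScalarTower K E Q] [IsScalarTower E Q Q]

theorem not_stable (hinf : ¬ Module.Finite E Q) (V : Submodule K Q)
    (hfrac : ∀ q : Q, ∃ n : ℕ, ∃ a ∈ V ^ n, ∃ b ∈ V ^ n, b ≠ 0 ∧ q = b⁻¹ * a)
    (X : Submodule E Q) (hX : X ≠ ⊥) (hfin : Module.Finite E X) :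
    ∃ v ∈ V, ∃ x ∈ X, x * v ∉ X := by
  by_contra hcon
  push_neg at hcon
  -- stable under `V ^ n`
  have h1 : ∀ n : ℕ, ∀ a ∈ V ^ n, ∀ x ∈ X, x * a ∈ X := by
    intro n
    induction n with
    | zero =>
      intro a ha x hx
      rw [pow_zero, Submodule.mem_one] at ha
      obtain ⟨k, rfl⟩ := ha
      have : x * algebraMap K Q k = (algebraMap K E k) • x := by
        rw [← Algebra.commutes, ← Algebra.smul_def, algebraMap_smul]
      rw [this]
      exact X.smul_mem _ hx
    | succ n ih =>
      intro a ha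
      rw [pow_succ] at ha
      induction ha using Submodule.mul_induction_on' with
      | mem_mul_mem c hc v hv =>
        intro x hx
        rw [← mul_assoc]
        exact hcon v hv _ (ih c hc x hx)
      | add c _ d _ hc hd =>
        intro x hx
        rw [mul_add]
        exact X.add_mem (hc x hx) (hd x hx)
  -- stable under inverses
  have h2 : ∀ n : ℕ, ∀ b ∈ V ^ n, b ≠ 0 → ∀ x ∈ X, x * b⁻¹ ∈ X := by
    intro n b hb hb0 x hx
    let f : X →ₗ[E] X := (rmul b).restrict (p := X) (q := X) (fun y hy => h1 n b hb y hy)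
    have hinj : Function.Injective f := by
      intro y z hyz
      have : (y : Q) * b = z * b := congrArg Subtype.val hyz
      exact Subtype.ext (mul_right_cancel₀ hb0 this)
    have hsurj : Function.Surjective f := (LinearMap.injective_iff_surjective).1 hinj
    obtain ⟨y, hy⟩ := hsurj ⟨x, hx⟩
    have hy' : (y : Q) * b = x := congrArg Subtype.val hy
    rw [← hy', mul_assoc, mul_inv_cancel₀ hb0, mul_one]
    exact y.2
  apply hinf
  obtain ⟨x, hx, hx0⟩ := (Submodule.ne_bot_iff X).1 hX
  have htop : X = ⊤ := by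
    rw [eq_top_iff]
    intro q _
    obtain ⟨n, a, ha, b, hb, hb0, hq⟩ := hfrac (x⁻¹ * q)
    have h3 : x * (b⁻¹ * a) ∈ X := by
      rw [← mul_assoc]
      exact h1 n a ha _ (h2 n b hb hb0 x hx)
    rw [← hq, ← mul_assoc, mul_inv_cancel₀ hx0, one_mul] at h3
    exact h3
  rw [htop] at hfin
  exact Module.Finite.equiv (Submodule.topEquiv (R := E) (M := Q))

end Pool.Agent.Helper7.G3
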